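import Pool.Agent.Helper714_HW.Spec

/-!
# Hayman-Wu constant: small lemmas on mean values
-/

set_option autoImplicit false
open Set Metric MeasureTheory Complex Filter Topology
open scoped NNReal ENNReal

namespace HW714

lemma isOpen_St : IsOpen St :=
  isOpen_lt (continuous_abs.comp Complex.continuous_im) continuous_const

lemma ofReal_mem_St (t : ℝ) : (t : ℂ) ∈ St := by
  simp [St, Real.pi_pos]

lemma conj_mem_St {z : ℂ} (hz : z ∈ St) : (starRingEnd ℂ) z ∈ St := by
  simpa [St] using hz

lemma circleIntegrable_of {u : ℂ → ℝ} {O : Set ℂ} (hu : ContinuousOn u O) {z : ℂ} {r : ℝ}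
    (hr : 0 < r) (h : closedBall z r ⊆ O) : CircleIntegrable u z r :=
  ContinuousOn.circleIntegrable hr.le (hu.mono (sphere_subset_closedBall.trans h))

lemma MVon.add {u v : ℂ → ℝ} {O : Set ℂ} (hu : MVon u O) (hv : MVon v O)
    (cu : ContinuousOn u O) (cv : ContinuousOn v O) : MVon (fun z => u z + v z) O := by
  intro z r hr h
  rw [Real.circleAverage_fun_add (circleIntegrable_of cu hr h) (circleIntegrable_of cv hr h),
    hu z r hr h, hv z r hr h]

lemma MVon.const_zero {O : Set ℂ} : MVon (fun _ => (0 : ℝ)) O := by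
  intro z r hr h
  rw [Real.circleAverage_const]

lemma MVon.sum {ι : Type} (F : Finset ι) {u : ι → ℂ → ℝ} {O : Set ℂ}
    (hu : ∀ i ∈ F, MVon (u i) O) (cu : ∀ i ∈ F, ContinuousOn (u i) O) :
    MVon (fun z => ∑ i ∈ F, u i z) O ∧ ContinuousOn (fun z => ∑ i ∈ F, u i z) O := by
  classical
  induction F using Finset.induction_on with
  | empty => exact ⟨by simpa using MVon.const_zero, by simpa using continuousOn_const⟩
  | insert a s ha ih =>
    obtain ⟨h1, h2⟩ := ih (fun i hi => hu i (Finset.mem_insert_of_mem hi))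
      (fun i hi => cu i (Finset.mem_insert_of_mem hi))
    simp_rw [Finset.sum_insert ha]
    exact ⟨(hu a (Finset.mem_insert_self a s)).add h1 (cu a (Finset.mem_insert_self a s)) h2,
      (cu a (Finset.mem_insert_self a s)).add h2⟩

lemma circleAverage_conj (u : ℂ → ℝ) (z : ℂ) (r : ℝ) :
    Real.circleAverage (fun w => u ((starRingEnd ℂ) w)) z r =
      Real.circleAverage u ((starRingEnd ℂ) z) r := by
  rw [Real.circleAverage_def, Real.circleAverage_def]
  congr 1
  have h1 : ∀ θ : ℝ, (starRingEnd ℂ) (circleMap z r θ) = circleMap ((starRingEnd ℂ) z) r (-θ) := by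
    intro θ
    simp only [circleMap, map_add, map_mul, Complex.conj_ofReal]
    rw [← Complex.exp_conj]
    simp
  simp_rw [h1]
  rw [intervalIntegral.integral_comp_neg (fun θ => u (circleMap ((starRingEnd ℂ) z) r θ))]
  have hp : Function.Periodic (fun θ => u (circleMap ((starRingEnd ℂ) z) r θ)) (2 * Real.pi) :=
    (periodic_circleMap _ _).comp u
  have h2 := hp.intervalIntegral_add_eq (-(2 * Real.pi)) 0
  simp only [neg_add_cancel, zero_add] at h2
  simpa using h2

lemma MVon.conj {u : ℂ → ℝ} (hu : MVon u St) :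
    MVon (fun z => u ((starRingEnd ℂ) z)) St := by
  intro z r hr h
  rw [circleAverage_conj]
  apply hu _ r hr
  intro w hw
  have h1 : (starRingEnd ℂ) w ∈ closedBall z r := by
    rw [mem_closedBall, Complex.dist_eq] at hw ⊢
    rw [← Complex.norm_conj]
    simpa using hw
  have := conj_mem_St (h h1)
  simpa using this

end HW714
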