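import Pool.Agent.Helper714_HW.Basic

/-!
# Hayman-Wu constant: the core potential inequality
-/

set_option autoImplicit false
open Set Metric MeasureTheory Complex Filter Topology
open scoped NNReal ENNReal

namespace HW714

/-- Green function identity -/
lemma normSq_identity (a w : ℂ) :
    ‖1 - (starRingEnd ℂ) a * w‖ ^ 2 - ‖w - a‖ ^ 2 = (1 - ‖a‖ ^ 2) * (1 - ‖w‖ ^ 2) := by
  rw [← Complex.normSq_eq_norm_sq, ← Complex.normSq_eq_norm_sq, ← Complex.normSq_eq_norm_sq,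
    ← Complex.normSq_eq_norm_sq]
  simp only [Complex.normSq_apply, Complex.sub_re, Complex.one_re, Complex.mul_re,
    Complex.conj_re, Complex.conj_im, Complex.sub_im, Complex.one_im, Complex.mul_im]
  ring

lemma gD_nonneg {a w : ℂ} (ha : ‖a‖ < 1) (hw : ‖w‖ < 1) (hne : w ≠ a) : 0 ≤ gD w a := by
  have h1 := normSq_identity a w
  have h2 : 0 < (1 - ‖a‖ ^ 2) * (1 - ‖w‖ ^ 2) := by
    apply mul_pos <;> nlinarith [norm_nonneg a, norm_nonneg w]
  have h3 : 0 < ‖w - a‖ := norm_pos_iff.2 (sub_ne_zero.2 hne)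
  have h4 : ‖w - a‖ ≤ ‖1 - (starRingEnd ℂ) a * w‖ := by
    apply le_of_sq_le_sq _ (norm_nonneg _)
    linarith
  unfold gD
  linarith [Real.log_le_log h3 h4]

lemma gD_le {a w : ℂ} (ha : ‖a‖ < 1) (hw : ‖w‖ < 1) (hne : w ≠ a) :
    gD w a ≤ (1 - ‖w‖ ^ 2) / ‖w - a‖ ^ 2 := by
  have h1 := normSq_identity a w
  have h3 : 0 < ‖w - a‖ := norm_pos_iff.2 (sub_ne_zero.2 hne)
  have h2 : 0 < (1 - ‖a‖ ^ 2) * (1 - ‖w‖ ^ 2) := by
    apply mul_pos <;> nlinarith [norm_nonneg a, norm_nonneg w]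
  have h4 : ‖w - a‖ ≤ ‖1 - (starRingEnd ℂ) a * w‖ := by
    apply le_of_sq_le_sq _ (norm_nonneg _)
    linarith
  set A := ‖1 - (starRingEnd ℂ) a * w‖ with hA
  set B := ‖w - a‖ with hB
  have hA0 : 0 < A := lt_of_lt_of_le h3 h4
  have h5 : gD w a = Real.log (A / B) := by
    unfold gD
    rw [Real.log_div hA0.ne' h3.ne']
  rw [h5]
  have h6 : Real.log (A / B) ≤ A / B - 1 := Real.log_le_sub_one_of_pos (by positivity)
  refine h6.trans ?_
  rw [div_sub_one h3.ne', div_le_div_iff₀ h3 (by positivity)]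
  have h7 : (A - B) * (A + B) ≤ 1 - ‖w‖ ^ 2 := by
    have : (A - B) * (A + B) = A ^ 2 - B ^ 2 := by ring
    rw [this, h1]
    have h8 : 0 ≤ 1 - ‖w‖ ^ 2 := by nlinarith [norm_nonneg w]
    nlinarith [norm_nonneg a, sq_nonneg ‖a‖]
  have h9 : (A - B) * B ≤ (A - B) * (A + B) := by
    apply mul_le_mul_of_nonneg_left _ (by linarith)
    linarith
  calc (A - B) * B ^ 2 = ((A - B) * B) * B := by ring
    _ ≤ (1 - ‖w‖ ^ 2) * B := by
        apply mul_le_mul_of_nonneg_right _ h3.le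
        linarith

lemma one_sub_conj_mul_ne {a w : ℂ} (ha : ‖a‖ < 1) (hw : ‖w‖ < 1) :
    1 - (starRingEnd ℂ) a * w ≠ 0 := by
  intro h
  have h1 : (starRingEnd ℂ) a * w = 1 := (sub_eq_zero.1 h).symm
  have h2 : ‖a‖ * ‖w‖ = 1 := by
    rw [← Complex.norm_conj a, ← norm_mul, h1, norm_one]
  nlinarith [norm_nonneg a, norm_nonneg w]

lemma gD_eq_log {a w : ℂ} (ha : ‖a‖ < 1) (hw : ‖w‖ < 1) (hne : w ≠ a) :
    gD w a = Real.log ‖(1 - (starRingEnd ℂ) a * w) / (w - a)‖ := by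
  unfold gD
  rw [norm_div, Real.log_div (norm_ne_zero_iff.2 (one_sub_conj_mul_ne ha hw))
    (norm_ne_zero_iff.2 (sub_ne_zero.2 hne))]

/-- continuity of the Green function kernel -/
lemma gD_continuousOn : ContinuousOn (fun p : ℂ × ℂ => gD p.1 p.2)
    {p | ‖p.1‖ < 1 ∧ ‖p.2‖ < 1 ∧ p.1 ≠ p.2} := by
  unfold gD
  apply ContinuousOn.sub
  · apply ContinuousOn.log
    · exact (Continuous.norm (continuous_const.sub
        ((Complex.continuous_conj.comp continuous_snd).mul continuous_fst))).continuousOn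
    · rintro ⟨w, a⟩ ⟨h1, h2, h3⟩
      exact norm_ne_zero_iff.2 (one_sub_conj_mul_ne h2 h1)
  · apply ContinuousOn.log
    · exact (Continuous.norm (continuous_fst.sub continuous_snd)).continuousOn
    · rintro ⟨w, a⟩ ⟨h1, h2, h3⟩
      exact norm_ne_zero_iff.2 (sub_ne_zero.2 h3)

/-- mean value property of the Green function in the first variable -/
lemma gD_MV (h_log : S_log) {O : Set ℂ} (hO : IsOpen O) {q : ℂ → ℂ} (hq : DifferentiableOn ℂ q O)
    {a : ℂ} (ha : ‖a‖ < 1) (h1 : ∀ z ∈ O, ‖q z‖ < 1) (h2 : ∀ z ∈ O, q z ≠ a) :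
    MVon (fun z => gD (q z) a) O := by
  have h3 : MVon (fun z => Real.log ‖(1 - (starRingEnd ℂ) a * q z) / (q z - a)‖) O := by
    apply h_log O _ hO
    · apply DifferentiableOn.div
      · exact (differentiableOn_const _).sub ((differentiableOn_const _).mul hq)
      · exact hq.sub (differentiableOn_const _)
      · intro z hz
        exact sub_ne_zero.2 (h2 z hz)
    · intro z hz
      exact div_ne_zero (one_sub_conj_mul_ne ha (h1 z hz)) (sub_ne_zero.2 (h2 z hz))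
  intro z r hr h
  have h4 := h3 z r hr h
  have h5 : Real.circleAverage (fun z => gD (q z) a) z r =
      Real.circleAverage (fun z => Real.log ‖(1 - (starRingEnd ℂ) a * q z) / (q z - a)‖) z r := by
    apply Real.circleAverage_congr_sphere
    intro w hw
    rw [abs_of_pos hr] at hw
    have hwO : w ∈ O := h (sphere_subset_closedBall hw)
    exact gD_eq_log ha (h1 w hwO) (h2 w hwO)
  rw [h5, h4]
  have hzO : z ∈ O := h (mem_closedBall_self hr.le)
  exact (gD_eq_log ha (h1 z hzO) (h2 z hzO)).symm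

/-- injective holomorphic maps are open, in the form of neighbourhood filters -/
lemma nhds_le_map {Φ : ℂ → ℂ} {O : Set ℂ} (hO : IsOpen O) (hd : DifferentiableOn ℂ Φ O)
    (hi : InjOn Φ O) {s : ℂ} (hs : s ∈ O) : 𝓝 (Φ s) ≤ map Φ (𝓝 s) := by
  have ha : AnalyticAt ℂ Φ s := hd.analyticAt (hO.mem_nhds hs)
  refine ha.eventually_constant_or_nhds_le_map_nhds.resolve_left ?_
  intro h
  have h0 : ∀ᶠ z in 𝓝 s, z ∈ O := hO.mem_nhds hs
  have h1 : ∀ᶠ z in 𝓝[≠] s, Φ z = Φ s ∧ z ∈ O :=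
    (h.filter_mono nhdsWithin_le_nhds).and (h0.filter_mono nhdsWithin_le_nhds)
  have h2 : ∀ᶠ z in 𝓝[≠] s, z ≠ s := eventually_mem_nhdsWithin
  obtain ⟨z, ⟨h3, h4⟩, h5⟩ := (h1.and h2).exists
  exact h5 (hi h4 hs h3)

attribute [local irreducible] gD hreg gS

section core

variable {ι : Type} {F : Finset ι} {Φ : ι → ℂ → ℂ}

/-- the potential -/
noncomputable def Pot (F : Finset ι) (Φ : ι → ℂ → ℂ) (R : ℝ) (w : ℂ) : ℝ :=
  ∑ i ∈ F, ∫ t in (-R)..R, gD w (Φ i t)

/-- the harmonic part seen from the strip of index j -/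
noncomputable def Hj [DecidableEq ι] (F : Finset ι) (Φ : ι → ℂ → ℂ) (R : ℝ) (j : ι) (z : ℂ) : ℝ :=
  (∫ t in (-R)..R, hreg (Φ j) z t) + ∑ i ∈ F.erase j, ∫ t in (-R)..R, gD (Φ j z) (Φ i t)

/-- the support -/
def Kset (F : Finset ι) (Φ : ι → ℂ → ℂ) (R : ℝ) : Set ℂ :=
  ⋃ i ∈ F, (fun t : ℝ => Φ i t) '' Icc (-R) R

variable (hd : ∀ i ∈ F, DifferentiableOn ℂ (Φ i) St) (hi : ∀ i ∈ F, InjOn (Φ i) St)
  (hm : ∀ i ∈ F, MapsTo (Φ i) St (ball 0 1))
  (hdis : ∀ i ∈ F, ∀ j ∈ F, i ≠ j → ∀ z ∈ St, ∀ w ∈ St, Φ i z ≠ Φ j w)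

include hd in
lemma cont_real {i : ι} (hiF : i ∈ F) : Continuous (fun t : ℝ => Φ i t) := by
  rw [← continuousOn_univ]
  exact (hd i hiF).continuousOn.comp Complex.continuous_ofReal.continuousOn
    (fun t _ => ofReal_mem_St t)

include hd in
lemma isCompact_Kset (R : ℝ) : IsCompact (Kset F Φ R) := by
  apply F.isCompact_biUnion
  intro i hi
  exact isCompact_Icc.image (cont_real hd hi)

include hm in
lemma Kset_subset (R : ℝ) : Kset F Φ R ⊆ ball 0 1 := by
  intro w hw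
  simp only [Kset, mem_iUnion, mem_image] at hw
  obtain ⟨i, hiF, t, ht, rfl⟩ := hw
  exact hm i hiF (ofReal_mem_St t)

include hd hm hdis in
lemma Hj_props [DecidableEq ι] (h_reg : S_hreg) (h_int : S_int) (h_log : S_log)
    (hi : ∀ i ∈ F, InjOn (Φ i) St)
    {R : ℝ} (hR : 0 < R) {j : ι} (hj : j ∈ F) :
    ContinuousOn (Hj F Φ R j) St ∧ MVon (Hj F Φ R j) St := by
  obtain ⟨r1, r2, r3⟩ := h_reg (Φ j) (hd j hj) (hi j hj) (hm j hj)
  have hRR : -R ≤ R := by linarith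
  have h1 := h_int St (fun z t => hreg (Φ j) z t) (-R) R isOpen_St hRR
    (r1.mono (prod_mono le_rfl (subset_univ _))) (fun t _ => r2 t)
  have h2 : ∀ i ∈ F.erase j,
      ContinuousOn (fun z => ∫ t in (-R)..R, gD (Φ j z) (Φ i t)) St ∧
      MVon (fun z => ∫ t in (-R)..R, gD (Φ j z) (Φ i t)) St := by
    intro i hi'
    obtain ⟨hne, hiF⟩ := Finset.mem_erase.1 hi'
    apply h_int St (fun z t => gD (Φ j z) (Φ i t)) (-R) R isOpen_St hRR
    · refine gD_continuousOn.comp (f := fun p : ℂ × ℝ => (Φ j p.1, Φ i p.2)) ?_ ?_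
      · apply ContinuousOn.prodMk
        · exact (hd j hj).continuousOn.comp continuous_fst.continuousOn (fun p hp => hp.1)
        · exact ((cont_real hd hiF).comp continuous_snd).continuousOn
      · rintro ⟨z, t⟩ ⟨hz, ht⟩
        refine ⟨?_, ?_, ?_⟩
        · simpa using hm j hj hz
        · simpa using hm i hiF (ofReal_mem_St t)
        · exact hdis j hj i hiF (Ne.symm hne) z hz t (ofReal_mem_St t)
    · intro t _
      apply gD_MV h_log isOpen_St (hd j hj)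
      · simpa using hm i hiF (ofReal_mem_St t)
      · intro z hz
        simpa using hm j hj hz
      · intro z hz
        exact hdis j hj i hiF (Ne.symm hne) z hz t (ofReal_mem_St t)
  have h3 := MVon.sum (F.erase j) (fun i hi' => (h2 i hi').2) (fun i hi' => (h2 i hi').1)
  exact ⟨h1.1.add h3.2, h1.2.add h3.1 h1.1 h3.2⟩

include hd hm in
/-- the decomposition of the potential on the image of the strip of index j -/
lemma Pot_eq [DecidableEq ι] (h_gS : S_gS) (h_reg : S_hreg) (hi : ∀ i ∈ F, InjOn (Φ i) St)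
    {R : ℝ} (hR : 0 < R) {j : ι} (hj : j ∈ F) {z : ℂ} (hz : z ∈ St) :
    Pot F Φ R (Φ j z) = Hj F Φ R j z + ∫ t in (-R)..R, gS z t := by
  obtain ⟨r1, r2, r3⟩ := h_reg (Φ j) (hd j hj) (hi j hj) (hm j hj)
  unfold Pot Hj
  rw [← Finset.add_sum_erase F _ hj]
  have h1 : ∫ t in (-R)..R, gD (Φ j z) (Φ j t) =
      (∫ t in (-R)..R, hreg (Φ j) z t) + ∫ t in (-R)..R, gS z t := by
    rw [← intervalIntegral.integral_add]
    · apply intervalIntegral.integral_congr_ae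
      have h2 : ∀ᵐ t : ℝ, t ≠ z.re := by
        simp [ae_iff]
      filter_upwards [h2] with t ht _
      apply r3 t z hz
      intro h
      apply ht
      rw [h]
      simp
    · apply ContinuousOn.intervalIntegrable
      have h5 : ContinuousOn (fun t : ℝ => (z, t)) (uIcc (-R) R) :=
        (Continuous.prodMk_right z).continuousOn
      have h6 : MapsTo (fun t : ℝ => (z, t)) (uIcc (-R) R) (St ×ˢ (univ : Set ℝ)) :=
        fun t _ => ⟨hz, mem_univ _⟩
      exact ContinuousOn.comp (g := fun p : ℂ × ℝ => hreg (Φ j) p.1 p.2)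
        (f := fun t : ℝ => (z, t)) r1 h5 h6
    · exact ((h_gS z hz).2 R hR.le).1
  rw [h1]
  ring

include hd hm in
lemma Pot_away (h_int : S_int) (h_log : S_log) {R : ℝ} (hR : 0 < R) :
    ContinuousOn (Pot F Φ R) (ball 0 1 \ Kset F Φ R) ∧
      MVon (Pot F Φ R) (ball 0 1 \ Kset F Φ R) := by
  have hK : IsClosed (Kset F Φ R) := (isCompact_Kset hd R).isClosed
  have hO : IsOpen (ball (0 : ℂ) 1 \ Kset F Φ R) := isOpen_ball.sdiff hK
  have hRR : -R ≤ R := by linarith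
  have hne : ∀ i ∈ F, ∀ t ∈ Icc (-R) R, ∀ w ∈ ball (0 : ℂ) 1 \ Kset F Φ R, w ≠ Φ i t := by
    intro i hiF t ht w hw h
    apply hw.2
    simp only [Kset, mem_iUnion, mem_image]
    exact ⟨i, hiF, t, ht, h.symm⟩
  have h2 : ∀ i ∈ F,
      ContinuousOn (fun w => ∫ t in (-R)..R, gD w (Φ i t)) (ball 0 1 \ Kset F Φ R) ∧
      MVon (fun w => ∫ t in (-R)..R, gD w (Φ i t)) (ball 0 1 \ Kset F Φ R) := by
    intro i hiF
    have hc1 : ContinuousOn (fun p : ℂ × ℝ => gD p.1 (Φ i p.2))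
        ((ball (0 : ℂ) 1 \ Kset F Φ R) ×ˢ Icc (-R) R) := by
      have hc2 : ContinuousOn (fun p : ℂ × ℝ => (p.1, Φ i p.2))
          ((ball (0 : ℂ) 1 \ Kset F Φ R) ×ˢ Icc (-R) R) :=
        (continuous_fst.prodMk ((cont_real hd hiF).comp continuous_snd)).continuousOn
      have hc4 : MapsTo (fun p : ℂ × ℝ => (p.1, Φ i p.2))
          ((ball (0 : ℂ) 1 \ Kset F Φ R) ×ˢ Icc (-R) R)
          {p : ℂ × ℂ | ‖p.1‖ < 1 ∧ ‖p.2‖ < 1 ∧ p.1 ≠ p.2} := by
        rintro ⟨z, t⟩ ⟨hz, ht⟩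
        refine ⟨?_, ?_, ?_⟩
        · simpa using hz.1
        · simpa using hm i hiF (ofReal_mem_St t)
        · exact hne i hiF t ht z hz
      exact ContinuousOn.comp (g := fun p : ℂ × ℂ => gD p.1 p.2)
        (f := fun p : ℂ × ℝ => (p.1, Φ i p.2)) gD_continuousOn hc2 hc4
    have hc3 : ∀ t ∈ Icc (-R) R, MVon (fun z => gD z (Φ i t)) (ball (0 : ℂ) 1 \ Kset F Φ R) := by
      intro t ht
      refine gD_MV h_log hO (q := fun z => z) differentiableOn_id (a := Φ i t) ?_ ?_ ?_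
      · simpa using hm i hiF (ofReal_mem_St t)
      · intro z hz
        simpa using hz.1
      · intro z hz
        exact hne i hiF t ht z hz
    exact h_int (ball (0 : ℂ) 1 \ Kset F Φ R) (fun w t => gD w (Φ i t)) (-R) R hO hRR hc1 hc3
  have h3 := MVon.sum F (fun i hi' => (h2 i hi').2) (fun i hi' => (h2 i hi').1)
  exact ⟨h3.2, h3.1⟩

include hd hm in
/-- the potential tends to zero at the unit circle -/
lemma Pot_small {R : ℝ} (hR : 0 < R) {ε : ℝ} (hε : 0 < ε) :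
    ∃ ρ : ℝ, 0 < ρ ∧ ρ < 1 ∧ ∀ w ∈ ball (0 : ℂ) 1, ρ < ‖w‖ → Pot F Φ R w ≤ ε := by
  have hK := isCompact_Kset hd R (F := F) (Φ := Φ)
  obtain ⟨ρ₀, h0, h1, h2⟩ : ∃ ρ₀ : ℝ, 0 ≤ ρ₀ ∧ ρ₀ < 1 ∧ ∀ a ∈ Kset F Φ R, ‖a‖ ≤ ρ₀ := by
    rcases (Kset F Φ R).eq_empty_or_nonempty with he | hne
    · exact ⟨0, le_rfl, one_pos, by simp [he]⟩
    · obtain ⟨a, ha, hmax⟩ := hK.exists_isMaxOn hne continuous_norm.continuousOn
      exact ⟨‖a‖, norm_nonneg _, by simpa using Kset_subset hm R ha, fun b hb => hmax hb⟩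
  -- the bound is a continuous function of the modulus
  have hlim : Tendsto (fun s : ℝ => (F.card : ℝ) * ((1 - s ^ 2) / (s - ρ₀) ^ 2 * (2 * R)))
      (𝓝 1) (𝓝 ((F.card : ℝ) * ((1 - 1 ^ 2) / (1 - ρ₀) ^ 2 * (2 * R)))) := by
    apply Tendsto.const_mul
    apply Tendsto.mul_const
    apply Tendsto.div
    · exact tendsto_const_nhds.sub (tendsto_id.pow 2)
    · exact (tendsto_id.sub tendsto_const_nhds).pow 2
    · have : 0 < 1 - ρ₀ := by linarith
      positivity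
  have h3 : ∀ᶠ s in 𝓝 (1 : ℝ), (F.card : ℝ) * ((1 - s ^ 2) / (s - ρ₀) ^ 2 * (2 * R)) < ε := by
    apply hlim.eventually_lt_const
    simpa using hε
  obtain ⟨δ, hδ, h4⟩ := Metric.eventually_nhds_iff.1 h3
  refine ⟨max (max (1 - δ) ((ρ₀ + 1) / 2)) (1/2), by positivity, ?_, ?_⟩
  · apply max_lt (max_lt (by linarith) (by linarith)) (by norm_num)
  intro w hw hρ
  have hw1 : ‖w‖ < 1 := by simpa using hw
  have h5 : 1 - δ < ‖w‖ := lt_of_le_of_lt ((le_max_left _ _).trans (le_max_left _ _)) hρ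
  have h6 : (ρ₀ + 1) / 2 < ‖w‖ := lt_of_le_of_lt ((le_max_right _ _).trans (le_max_left _ _)) hρ
  have h7 : ρ₀ < ‖w‖ := by linarith
  have h8 := h4 (y := ‖w‖) (by rw [Real.dist_eq, abs_lt]; constructor <;> linarith)
  refine le_trans ?_ h8.le
  unfold Pot
  rw [← nsmul_eq_mul]
  apply Finset.sum_le_card_nsmul
  intro i hiF
  have h9 : ∀ t ∈ Icc (-R) R, gD w (Φ i t) ≤ (1 - ‖w‖ ^ 2) / (‖w‖ - ρ₀) ^ 2 := by
    intro t ht
    have ha : Φ i t ∈ Kset F Φ R := by
      simp only [Kset, mem_iUnion, mem_image]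
      exact ⟨i, hiF, t, ht, rfl⟩
    have ha1 : ‖Φ i t‖ < 1 := by simpa using hm i hiF (ofReal_mem_St t)
    have ha2 := h2 _ ha
    have hne : w ≠ Φ i t := by
      rintro rfl
      linarith
    refine (gD_le ha1 hw1 hne).trans ?_
    have h10 : ‖w‖ - ρ₀ ≤ ‖w - Φ i t‖ := by
      have := norm_sub_norm_le w (Φ i t)
      linarith
    have h11 : 0 < ‖w‖ - ρ₀ := by linarith
    apply div_le_div_of_nonneg_left
    · nlinarith [norm_nonneg w]
    · positivity
    · exact pow_le_pow_left₀ h11.le h10 2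
  have h10 : ‖∫ t in (-R)..R, gD w (Φ i t)‖ ≤
      ((1 - ‖w‖ ^ 2) / (‖w‖ - ρ₀) ^ 2) * |R - -R| := by
    apply intervalIntegral.norm_integral_le_of_norm_le_const
    intro t ht
    rw [uIoc_of_le (by linarith : -R ≤ R)] at ht
    have ht' : t ∈ Icc (-R) R := ⟨ht.1.le, ht.2⟩
    have ha : Φ i t ∈ Kset F Φ R := by
      simp only [Kset, mem_iUnion, mem_image]
      exact ⟨i, hiF, t, ht', rfl⟩
    have ha1 : ‖Φ i t‖ < 1 := by simpa using hm i hiF (ofReal_mem_St t)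
    have ha2 := h2 _ ha
    have hne : w ≠ Φ i t := by
      rintro rfl
      linarith
    rw [Real.norm_of_nonneg (gD_nonneg ha1 hw1 hne)]
    exact h9 t ht'
  have h12 : |R - -R| = 2 * R := by
    rw [abs_of_pos (by linarith)]
    ring
  rw [h12] at h10
  exact (Real.le_norm_self _).trans h10

end core

end HW714
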