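import Pool.Agent.Helper714_HW.Core

/-!
# Hayman-Wu constant: the core inequality
-/

set_option autoImplicit false
open Set Metric MeasureTheory Complex Filter Topology
open scoped NNReal ENNReal

namespace HW714

attribute [local irreducible] gD hreg gS

theorem core (h_mp : S_mp) (h_gS : S_gS) (h_reg : S_hreg) (h_int : S_int) (h_log : S_log) :
    S_core := by
  classical
  intro ι F Φ hd hi hm hdis hc R hR
  set P : ℂ → ℝ := Pot F Φ R with hP
  set K : Set ℂ := Kset F Φ R with hKdef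
  have hKc : IsCompact K := isCompact_Kset hd R
  have hKs : K ⊆ ball 0 1 := Kset_subset hm R
  have hRR : -R ≤ R := by linarith
  have hsmall := fun {ε : ℝ} (hε : 0 < ε) => Pot_small (F := F) (Φ := Φ) hd hm hR hε
  have hH := fun {j : ι} (hj : j ∈ F) =>
    Hj_props (F := F) (Φ := Φ) hd hm hdis h_reg h_int h_log hi hR hj
  have hPe := fun {j : ι} (hj : j ∈ F) {z : ℂ} (hz : z ∈ St) =>
    Pot_eq (F := F) (Φ := Φ) hd hm h_gS h_reg hi hR hj hz
  obtain ⟨hPc, hPmv⟩ := Pot_away (F := F) (Φ := Φ) hd hm h_int h_log hR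
  have hO : IsOpen (ball (0 : ℂ) 1 \ K) := isOpen_ball.sdiff hKc.isClosed
  have hgint : ∀ z ∈ St, 0 ≤ ∫ t in (-R)..R, gS z t := fun z hz =>
    intervalIntegral.integral_nonneg hRR (fun t _ => (h_gS z hz).1 t)
  have hgint2 : ∀ z ∈ St, ∫ t in (-R)..R, gS z t ≤ Real.pi ^ 2 / 2 := fun z hz =>
    ((h_gS z hz).2 R hR.le).2
  -- membership in K
  have hmemK : ∀ w ∈ K, ∃ j ∈ F, ∃ s : ℝ, Φ j s = w := by
    intro w hw
    simp only [hKdef, Kset, mem_iUnion, mem_image] at hw
    obtain ⟨i, hiF, t, ht, h⟩ := hw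
    exact ⟨i, hiF, t, h⟩
  -- upper estimates near the curves
  have hnear : ∀ j ∈ F, ∀ s : ℝ, ∀ ε > 0, ∀ᶠ w in 𝓝 (Φ j s),
      P w ≤ Hj F Φ R j s + ε + Real.pi ^ 2 / 2 := by
    intro j hj s ε hε
    have h1 : ContinuousAt (Hj F Φ R j) s :=
      (hH hj).1.continuousAt (isOpen_St.mem_nhds (ofReal_mem_St s))
    have h2 : ∀ᶠ z in 𝓝 (s : ℂ), Hj F Φ R j z < Hj F Φ R j s + ε :=
      h1.eventually_lt_const (by linarith)
    have h3 : ∀ᶠ z in 𝓝 (s : ℂ), z ∈ St := isOpen_St.mem_nhds (ofReal_mem_St s)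
    have h4 : ∀ᶠ z in 𝓝 (s : ℂ), P (Φ j z) ≤ Hj F Φ R j s + ε + Real.pi ^ 2 / 2 := by
      filter_upwards [h2, h3] with z hz1 hz2
      rw [hP, hPe hj hz2]
      have := hgint2 z hz2
      linarith
    have h5 := nhds_le_map isOpen_St (hd j hj) (hi j hj) (ofReal_mem_St s)
    have h6 : ∀ᶠ w in map (Φ j) (𝓝 (s : ℂ)), P w ≤ Hj F Φ R j s + ε + Real.pi ^ 2 / 2 := by
      rw [eventually_map]
      exact h4
    exact h5 h6
  -- P is bounded above
  obtain ⟨B, hB⟩ : ∃ B : ℝ, ∀ w ∈ ball (0 : ℂ) 1, P w ≤ B := by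
    obtain ⟨ρ, hρ0, hρ1, hρ⟩ := hsmall one_pos
    have h1 : ∃ B : ℝ, ∀ w ∈ closedBall (0 : ℂ) ρ, P w ≤ B := by
      apply (isCompact_closedBall (0 : ℂ) ρ).induction_on
        (p := fun s => ∃ B : ℝ, ∀ w ∈ s, P w ≤ B)
      · exact ⟨0, by simp⟩
      · rintro s t hst ⟨B, hB⟩
        exact ⟨B, fun w hw => hB w (hst hw)⟩
      · rintro s t ⟨B, hB⟩ ⟨B', hB'⟩
        refine ⟨max B B', ?_⟩
        rintro w (hw | hw)
        · exact (hB w hw).trans (le_max_left _ _)
        · exact (hB' w hw).trans (le_max_right _ _)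
      · intro w hw
        have hw1 : w ∈ ball (0 : ℂ) 1 := closedBall_subset_ball hρ1 hw
        by_cases hwK : w ∈ K
        · obtain ⟨j, hj, s, rfl⟩ := hmemK w hwK
          have h2 := hnear j hj s 1 one_pos
          refine ⟨{w | P w ≤ Hj F Φ R j s + 1 + Real.pi ^ 2 / 2}, ?_, _, fun w hw => hw⟩
          exact mem_nhdsWithin_of_mem_nhds h2
        · have h2 : ContinuousAt P w := hPc.continuousAt (hO.mem_nhds ⟨hw1, hwK⟩)
          have h3 : ∀ᶠ z in 𝓝 w, P z < P w + 1 := h2.eventually_lt_const (by linarith)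
          refine ⟨{z | P z < P w + 1}, mem_nhdsWithin_of_mem_nhds h3, P w + 1, ?_⟩
          intro z hz
          exact le_of_lt hz
    obtain ⟨B, hB⟩ := h1
    refine ⟨max B 1, fun w hw => ?_⟩
    by_cases h : ‖w‖ ≤ ρ
    · exact (hB w (by simpa using h)).trans (le_max_left _ _)
    · exact (hρ w hw (not_le.1 h)).trans (le_max_right _ _)
  set m : ℝ := sSup (P '' ball (0 : ℂ) 1) with hmdef
  have hbdd : BddAbove (P '' ball (0 : ℂ) 1) := ⟨B, by rintro _ ⟨w, hw, rfl⟩; exact hB w hw⟩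
  have hPm : ∀ w ∈ ball (0 : ℂ) 1, P w ≤ m := fun w hw => le_csSup hbdd ⟨w, hw, rfl⟩
  -- the symmetrised harmonic part
  have hHm : ∀ j ∈ F, ∀ s : ℝ, Hj F Φ R j s ≤ m / 2 := by
    intro j hj s
    obtain ⟨hHc, hHmv⟩ := hH hj
    have hHP : ∀ z ∈ St, Hj F Φ R j z ≤ P (Φ j z) := by
      intro z hz
      rw [hP, hPe hj hz]
      linarith [hgint z hz]
    have hconj : ContinuousOn (fun z => Hj F Φ R j ((starRingEnd ℂ) z)) St :=
      hHc.comp Complex.continuous_conj.continuousOn (fun z hz => conj_mem_St hz)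
    have hkc : ContinuousOn (fun z => Hj F Φ R j z + Hj F Φ R j ((starRingEnd ℂ) z)) St :=
      hHc.add hconj
    have hkmv : MVon (fun z => Hj F Φ R j z + Hj F Φ R j ((starRingEnd ℂ) z)) St :=
      hHmv.add hHmv.conj hHc hconj
    have key : ∀ ε > 0, Hj F Φ R j s + Hj F Φ R j ((starRingEnd ℂ) s) < m + ε := by
      intro ε hε
      obtain ⟨ρ, hρ0, hρ1, hρ⟩ := hsmall (half_pos hε)
      apply h_mp St _ (m + ε) isOpen_St hkc hkmv _ s (ofReal_mem_St s)
      have hC := hc j hj ρ hρ1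
      have hsub : {z ∈ St | m + ε ≤ Hj F Φ R j z + Hj F Φ R j ((starRingEnd ℂ) z)} ⊆
          {z ∈ St | ‖Φ j z‖ ≤ ρ ∧ ‖Φ j ((starRingEnd ℂ) z)‖ ≤ ρ} := by
        rintro z ⟨hz, hz2⟩
        have hz' := conj_mem_St hz
        refine ⟨hz, ?_, ?_⟩
        · by_contra hcon
          have h1 := hρ _ (hm j hj hz) (not_le.1 hcon)
          have h2 := hPm _ (hm j hj hz')
          have h3 := hHP z hz
          have h4 := hHP _ hz'
          linarith
        · by_contra hcon
          have h1 := hρ _ (hm j hj hz') (not_le.1 hcon)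
          have h2 := hPm _ (hm j hj hz)
          have h3 := hHP z hz
          have h4 := hHP _ hz'
          linarith
      have heq : {z ∈ St | m + ε ≤ Hj F Φ R j z + Hj F Φ R j ((starRingEnd ℂ) z)} =
          {z ∈ St | ‖Φ j z‖ ≤ ρ ∧ ‖Φ j ((starRingEnd ℂ) z)‖ ≤ ρ} ∩
            (fun z => Hj F Φ R j z + Hj F Φ R j ((starRingEnd ℂ) z)) ⁻¹' Ici (m + ε) := by
        ext z
        constructor
        · intro hz
          exact ⟨hsub hz, hz.2⟩
        · rintro ⟨hz1, hz2⟩
          exact ⟨hz1.1, hz2⟩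
      rw [heq]
      have h5 : IsClosed ({z ∈ St | ‖Φ j z‖ ≤ ρ ∧ ‖Φ j ((starRingEnd ℂ) z)‖ ≤ ρ} ∩
            (fun z => Hj F Φ R j z + Hj F Φ R j ((starRingEnd ℂ) z)) ⁻¹' Ici (m + ε)) := by
        apply ContinuousOn.preimage_isClosed_of_isClosed _ hC.isClosed isClosed_Ici
        exact hkc.mono (fun z hz => hz.1)
      exact hC.of_isClosed_subset h5 inter_subset_left
    have h6 : Hj F Φ R j s + Hj F Φ R j ((starRingEnd ℂ) s) ≤ m :=
      le_of_forall_pos_lt_add key
    rw [Complex.conj_ofReal] at h6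
    linarith
  -- the main estimate
  have hmain : m ≤ Real.pi ^ 2 := by
    by_contra hcon
    have hcon' : Real.pi ^ 2 < m := not_le.1 hcon
    have hpi : 0 < Real.pi ^ 2 := by positivity
    have hall : ∀ ε > 0, ∀ w ∈ ball (0 : ℂ) 1, P w ≤ Real.pi ^ 2 / 2 + m / 2 + ε := by
      intro ε hε w hw
      by_cases hwK : w ∈ K
      · obtain ⟨j, hj, s, rfl⟩ := hmemK w hwK
        have h1 := hPe hj (ofReal_mem_St s)
        have h2 := hHm j hj s
        have h3 := hgint2 _ (ofReal_mem_St s)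
        rw [hP, h1]
        linarith
      · apply le_of_lt
        apply h_mp (ball (0 : ℂ) 1 \ K) P _ hO hPc hPmv _ w ⟨hw, hwK⟩
        obtain ⟨ρ, hρ0, hρ1, hρ⟩ := hsmall (ε := Real.pi ^ 2 / 2) (by positivity)
        have hsub : {z ∈ ball (0 : ℂ) 1 \ K | Real.pi ^ 2 / 2 + m / 2 + ε ≤ P z} ⊆
            closedBall 0 ρ := by
          rintro z ⟨hz, hz2⟩
          by_contra hcon2
          have h1 : ρ < ‖z‖ := by simpa using hcon2
          have h2 := hρ z hz.1 h1
          linarith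
        apply Metric.isCompact_of_isClosed_isBounded _ (isBounded_closedBall.subset hsub)
        apply isClosed_of_closure_subset
        intro z hz
        have hz1 : z ∈ closedBall (0 : ℂ) ρ := by
          have := closure_mono hsub hz
          rwa [isClosed_closedBall.closure_eq] at this
        have hz2 : z ∈ ball (0 : ℂ) 1 := closedBall_subset_ball hρ1 hz1
        have hzK : z ∉ K := by
          intro hzK
          obtain ⟨j, hj, s, rfl⟩ := hmemK z hzK
          have h1 := hnear j hj s (ε / 2) (half_pos hε)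
          have h2 := hHm j hj s
          rw [mem_closure_iff_frequently] at hz
          obtain ⟨w', hw1, hw2⟩ := (hz.and_eventually h1).exists
          have := hw1.2
          linarith
        refine ⟨⟨hz2, hzK⟩, ?_⟩
        have h1 : ContinuousAt P z := hPc.continuousAt (hO.mem_nhds ⟨hz2, hzK⟩)
        by_contra hcon3
        have h2 : ∀ᶠ w' in 𝓝 z, P w' < Real.pi ^ 2 / 2 + m / 2 + ε :=
          h1.eventually_lt_const (not_le.1 hcon3)
        rw [mem_closure_iff_frequently] at hz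
        obtain ⟨w', hw1, hw2⟩ := (hz.and_eventually h2).exists
        have := hw1.2
        linarith
    have hle : m ≤ Real.pi ^ 2 / 2 + m / 2 := by
      apply le_of_forall_pos_le_add
      intro ε hε
      have hne0 : (P '' ball (0 : ℂ) 1).Nonempty := ⟨P 0, 0, mem_ball_self one_pos, rfl⟩
      apply csSup_le hne0
      rintro _ ⟨w, hw, rfl⟩
      exact hall ε hε w hw
    linarith
  have h0 := hPm 0 (mem_ball_self one_pos)
  have h1 : P 0 = ∑ i ∈ F, ∫ t in (-R)..R, -Real.log ‖Φ i t‖ := by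
    rw [hP, Pot]
    apply Finset.sum_congr rfl
    intro i _
    apply intervalIntegral.integral_congr
    intro t _
    simp [gD]
  rw [← h1]
  exact h0.trans hmain

end HW714
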