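import Mathlib

/-!
# Hayman-Wu constant: definitions
-/

set_option autoImplicit false
open Set Metric MeasureTheory Complex Filter Topology

namespace HW714

/-- the open horizontal strip of width pi -/
def St : Set ℂ := {z : ℂ | |z.im| < Real.pi / 2}

/-- the kernel of the strip with a real pole -/
noncomputable def gS (z : ℂ) (t : ℝ) : ℝ := -Real.log ‖Complex.tanh ((z - t) / 2)‖

/-- the Green function of the disc -/
noncomputable def gD (w a : ℂ) : ℝ :=
  Real.log ‖1 - (starRingEnd ℂ) a * w‖ - Real.log ‖w - a‖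

/-- the regular part of the pulled back Green function -/
noncomputable def hreg (Φ : ℂ → ℂ) (z : ℂ) (t : ℝ) : ℝ :=
  Real.log ‖1 - (starRingEnd ℂ) (Φ t) * Φ z‖ - Real.log ‖dslope Φ (t : ℂ) z‖
    + Real.log ‖dslope (fun x : ℂ => Complex.tanh (x / 2)) 0 (z - t)‖

/-- the mean value property on all closed discs inside O -/
def MVon (u : ℂ → ℝ) (O : Set ℂ) : Prop :=
  ∀ z : ℂ, ∀ r : ℝ, 0 < r → closedBall z r ⊆ O → Real.circleAverage u z r = u z

/-- the component of the intersection of the image and its mirror image -/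
def Comp (f : ℂ → ℂ) (x : ℂ) : Set ℂ :=
  connectedComponentIn (f '' ball 0 1 ∩ (starRingEnd ℂ) ⁻¹' (f '' ball 0 1)) x

/-- the Moebius involution exchanging the disc and the upper half plane -/
noncomputable def Mo (φ : ℝ) (z : ℂ) : ℂ :=
  (Complex.exp (φ * Complex.I) - z) / (1 - Complex.exp (φ * Complex.I) * z)

/-- normalised univalent maps of the disc -/
def Cls (G : ℂ → ℂ) : Prop :=
  DifferentiableOn ℂ G (ball (0 : ℂ) 1) ∧ InjOn G (ball (0 : ℂ) 1) ∧ G 0 = 0

/-- the disc with one side of a vertical line -/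
def UU (φ : ℝ) : Set ℂ := {w : ℂ | ‖w‖ < 1 ∨ w.re < Real.cos φ}

/-- the chord points -/
noncomputable def zz (φ α t : ℝ) : ℂ :=
  Mo φ ((t : ℂ) * Complex.exp ((Real.pi / α : ℝ) * Complex.I))

end HW714
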