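import Pool.Agent.Helper714_HW.Spec
/- JOB complement of a component of Omega cap conj Omega is connected (owner helper714, MP_0a9e96_an, Hayman-Wu constant).
Replace the sorry of the TARGET theorem. Keep the statement, the definitions and the namespace HW714 unchanged; add auxiliary lemmas (please prefix their names with aux_cc_ ).
No axioms, no native_decide. Mathlib only (or starting-tree modules: then say which).

Proof in words:
conj = starRingEnd ℂ is a homeomorphism. A := Ωᶜ and A* := conj ⁻¹' Ωᶜ are connected and closed; both contain a far away real point (Ω is bounded), so A ∪ A* = (Ω ∩ Ω*)ᶜ is connected. Let W = Ω ∩ Ω*, open.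
If x ∉ W the component is empty (connectedComponentIn_eq_empty) and the complement is univ. Otherwise U = connectedComponentIn W x is open (IsOpen.connectedComponentIn) and
Uᶜ = Wᶜ ∪ ⋃_{y ∈ W \ U} closure (connectedComponentIn W y). For y ∈ W \ U let U' = connectedComponentIn W y; U' is open, disjoint from U, so closure U' is disjoint from the open set U;
closure U' is connected; it meets Wᶜ: U' is nonempty, open, bounded (so ≠ univ), so its frontier is nonempty (frontier_eq_empty_iff / isClopen), and a frontier point b of U' is not in W: otherwise the component of b in W is an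
open set meeting U', so equal to U', so b ∈ U' = interior U', contradiction. A union of connected sets each meeting the connected set Wᶜ is connected (isPreconnected_sUnion, IsPreconnected.union', isConnected_iUnion...).
-/

set_option autoImplicit false
open Set Metric MeasureTheory Complex Filter Topology
open scoped NNReal ENNReal

namespace HW714

theorem aux_cc_frontier (W : Set ℂ) (hW : IsOpen W) (hne : Wᶜ.Nonempty) (y : ℂ) (hy : y ∈ W) :
    ∃ b ∈ closure (connectedComponentIn W y), b ∈ Wᶜ := by
  have hopen : IsOpen (connectedComponentIn W y) := hW.connectedComponentIn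
  have hyU : y ∈ connectedComponentIn W y := mem_connectedComponentIn hy
  have hnu : connectedComponentIn W y ≠ univ := by
    intro h
    obtain ⟨p, hp⟩ := hne
    exact hp (connectedComponentIn_subset W y (h ▸ mem_univ p))
  have hnc : ¬ IsClosed (connectedComponentIn W y) := by
    intro h
    rcases isClopen_iff.mp ⟨h, hopen⟩ with h1 | h1
    · rw [h1] at hyU; exact hyU
    · exact hnu h1
  have hex : ∃ b ∈ closure (connectedComponentIn W y), b ∉ connectedComponentIn W y := by
    by_contra hcon
    push Not at hcon
    exact hnc (isClosed_of_closure_subset hcon)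
  obtain ⟨b, hb, hbn⟩ := hex
  refine ⟨b, hb, ?_⟩
  intro hbW
  have hVo : IsOpen (connectedComponentIn W b) := hW.connectedComponentIn
  have hbV : b ∈ connectedComponentIn W b := mem_connectedComponentIn hbW
  obtain ⟨z, hzV, hzU⟩ := mem_closure_iff.mp hb _ hVo hbV
  have e1 := connectedComponentIn_eq hzV
  have e2 := connectedComponentIn_eq hzU
  rw [e2, ← e1] at hbn
  exact hbn hbV

theorem aux_cc_general (W : Set ℂ) (hW : IsOpen W) (hc : IsConnected Wᶜ) (x : ℂ) :
    IsConnected (connectedComponentIn W x)ᶜ := by
  obtain ⟨p, hp⟩ := hc.nonempty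
  have hsub : Wᶜ ⊆ (connectedComponentIn W x)ᶜ :=
    compl_subset_compl.mpr (connectedComponentIn_subset W x)
  refine ⟨⟨p, hsub hp⟩, ?_⟩
  apply isPreconnected_of_forall p
  intro y hy
  by_cases hyW : y ∈ W
  · obtain ⟨b, hb, hbW⟩ := aux_cc_frontier W hW hc.nonempty y hyW
    refine ⟨Wᶜ ∪ closure (connectedComponentIn W y), ?_, Or.inl hp,
      Or.inr (subset_closure (mem_connectedComponentIn hyW)), ?_⟩
    · apply union_subset hsub
      intro z hz hzU
      have hUo : IsOpen (connectedComponentIn W x) := hW.connectedComponentIn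
      obtain ⟨w, hwx, hwy⟩ := mem_closure_iff.mp hz _ hUo hzU
      have e1 := connectedComponentIn_eq hwx
      have e2 := connectedComponentIn_eq hwy
      apply hy
      rw [e1, ← e2]
      exact mem_connectedComponentIn hyW
    · exact IsPreconnected.union b hbW hb hc.isPreconnected
        (isPreconnected_connectedComponentIn.closure)
  · exact ⟨Wᶜ, hsub, hp, hyW, hc.isPreconnected⟩

theorem aux_cc_conj (s : Set ℂ) : (starRingEnd ℂ) '' s = (starRingEnd ℂ) ⁻¹' s := by
  ext z
  constructor
  · rintro ⟨w, hw, rfl⟩
    simpa using hw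
  · intro hz
    exact ⟨(starRingEnd ℂ) z, hz, by simp⟩

/-- TARGET -/
theorem cc (Ω : Set ℂ) (x : ℂ) (hO : IsOpen Ω) (hb : Bornology.IsBounded Ω)
    (hc : IsConnected Ωᶜ) :
    IsConnected (connectedComponentIn (Ω ∩ (starRingEnd ℂ) ⁻¹' Ω) x)ᶜ := by
  have hW : IsOpen (Ω ∩ (starRingEnd ℂ) ⁻¹' Ω) :=
    hO.inter (hO.preimage Complex.continuous_conj)
  apply aux_cc_general _ hW
  have hE : (Ω ∩ (starRingEnd ℂ) ⁻¹' Ω)ᶜ = Ωᶜ ∪ (starRingEnd ℂ) '' Ωᶜ := by
    rw [aux_cc_conj, compl_inter, preimage_compl]
  rw [hE]
  obtain ⟨R, hR⟩ := hb.subset_closedBall 0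
  have hr : (((|R| + 1 : ℝ)) : ℂ) ∈ Ωᶜ := by
    intro h
    have h2 := hR h
    rw [mem_closedBall_zero_iff, Complex.norm_real, Real.norm_eq_abs] at h2
    have h3 := le_abs_self R
    have h4 := abs_nonneg R
    rw [abs_of_nonneg (by linarith)] at h2
    linarith
  refine ⟨⟨_, Or.inl hr⟩, ?_⟩
  apply IsPreconnected.union (((|R| + 1 : ℝ)) : ℂ) hr
  · exact ⟨_, hr, Complex.conj_ofReal _⟩
  · exact hc.isPreconnected
  · exact hc.isPreconnected.image _ Complex.continuous_conj.continuousOn

theorem t_cc : S_cc := fun Ω x hO hb hc => cc Ω x hO hb hc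

end HW714
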