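import Pool.Agent.Helper714_HW.Spec
/- JOB chords of the circular arc (owner helper714, MP_0a9e96_an, Hayman-Wu constant).
Replace the sorry of the TARGET theorem. Keep the statement, the definitions and the namespace HW714 unchanged; add auxiliary lemmas (please prefix their names with aux_chord_ ).
No axioms, no native_decide. Mathlib only (or starting-tree modules: then say which).

Proof in words:
Mo φ a - Mo φ b = (e^2 - 1)(a - b)/((1 - e a)(1 - e b)), e = exp(iφ), |e^2 - 1| = 2 sin φ. With p = exp(iπ/α): |zz φ α s - zz φ α t| / φ = (2 sin φ/φ) |s - t| / (|1 - e p s| |1 - e p t|) -> 2 |s-t| / (|1 - p s| |1 - p t|) as φ -> 0+ ,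
and as α -> 2-, p -> i, this tends to 2|s-t|/(sqrt(1+s^2) sqrt(1+t^2)) = 2 sin(ϑ' - ϑ) for s = tan ϑ', t = tan ϑ. Take N large and t_j = tan(π (j+1)/(2N)), j = 0..N-2 =: n, so all in (0,∞), increasing,
and the limit of the sum of the n chords is n * 2 sin(π/(2N)) = (N-2) * 2 sin(π/(2N)) -> π as N -> ∞. So: given ε choose N with (N-2) 2 sin(π/(2N)) > π - ε/2 ... , then α<2 close to 2 so that the φ -> 0 limit is > π - ε, then for small φ the sum is >= (π - ε) φ.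
(t may be any values outside j <= n.) If ε >= π one can still use the same argument.
-/

set_option autoImplicit false
open Set Metric MeasureTheory Complex Filter Topology
open scoped NNReal ENNReal

namespace HW714





theorem aux_chord_diff (φ : ℝ) (a b : ℂ) (ha : 1 - Complex.exp (φ * Complex.I) * a ≠ 0)
    (hb : 1 - Complex.exp (φ * Complex.I) * b ≠ 0) :
    Mo φ a - Mo φ b = (Complex.exp (φ * Complex.I) ^ 2 - 1) * (a - b) /
      ((1 - Complex.exp (φ * Complex.I) * a) * (1 - Complex.exp (φ * Complex.I) * b)) := by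
  unfold Mo
  field_simp
  ring

theorem aux_chord_two : Tendsto (fun φ : ℝ => ‖Complex.exp (φ * Complex.I) ^ 2 - 1‖ / φ)
    (𝓝[>] (0 : ℝ)) (𝓝 2) := by
  have h1 : HasDerivAt (fun φ : ℝ => Complex.exp (φ * Complex.I) ^ 2) (2 * Complex.I) 0 := by
    have h2 : HasDerivAt (fun φ : ℝ => (φ : ℂ) * Complex.I) Complex.I 0 := by
      have := (Complex.ofRealCLM.hasDerivAt (x := (0 : ℝ))).mul_const Complex.I
      simpa using this
    have h3 := (h2.cexp).pow 2
    refine h3.congr_deriv ?_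
    simp
  have h4 := (hasDerivAt_iff_tendsto_slope.1 h1).norm
  have h5 : Tendsto (fun φ : ℝ => ‖slope (fun φ : ℝ => Complex.exp (φ * Complex.I) ^ 2) 0 φ‖)
      (𝓝[>] (0 : ℝ)) (𝓝 ‖2 * Complex.I‖) :=
    h4.mono_left (nhdsWithin_mono _ (fun x hx => ne_of_gt hx))
  have h6 : ‖2 * Complex.I‖ = 2 := by simp
  rw [h6] at h5
  refine h5.congr' ?_
  filter_upwards [self_mem_nhdsWithin] with φ hφ
  have hφ' : (0 : ℝ) < φ := hφ
  rw [slope_def_module]
  simp only [sub_zero, Complex.ofReal_zero, zero_mul, Complex.exp_zero, one_pow, norm_smul,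
    norm_inv, Real.norm_eq_abs, abs_of_pos hφ']
  rw [div_eq_inv_mul]

theorem aux_chord_lim (a b : ℂ) (ha : 1 - a ≠ 0) (hb : 1 - b ≠ 0) :
    Tendsto (fun φ : ℝ => ‖Mo φ a - Mo φ b‖ / φ) (𝓝[>] (0 : ℝ))
      (𝓝 (2 * ‖a - b‖ / (‖1 - a‖ * ‖1 - b‖))) := by
  have e1 : Tendsto (fun φ : ℝ => Complex.exp (φ * Complex.I)) (𝓝[>] (0 : ℝ)) (𝓝 1) := by
    have hc : Continuous (fun φ : ℝ => Complex.exp (φ * Complex.I)) := by fun_prop
    exact (hc.tendsto' 0 1 (by simp)).mono_left nhdsWithin_le_nhds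
  have ea : Tendsto (fun φ : ℝ => 1 - Complex.exp (φ * Complex.I) * a) (𝓝[>] (0 : ℝ))
      (𝓝 (1 - a)) := by
    simpa using (tendsto_const_nhds (x := (1 : ℂ))).sub (e1.mul_const a)
  have eb : Tendsto (fun φ : ℝ => 1 - Complex.exp (φ * Complex.I) * b) (𝓝[>] (0 : ℝ))
      (𝓝 (1 - b)) := by
    simpa using (tendsto_const_nhds (x := (1 : ℂ))).sub (e1.mul_const b)
  have hne : ‖1 - a‖ * ‖1 - b‖ ≠ 0 := mul_ne_zero (norm_ne_zero_iff.2 ha) (norm_ne_zero_iff.2 hb)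
  have h1 := (aux_chord_two.mul_const ‖a - b‖).div (ea.norm.mul eb.norm) hne
  refine h1.congr' ?_
  filter_upwards [ea.eventually_ne ha, eb.eventually_ne hb] with φ h2 h3
  rw [aux_chord_diff φ a b h2 h3, norm_div, norm_mul, norm_mul]
  simp only [Pi.div_apply]
  ring

theorem aux_chord_norm (θ : ℝ) (h : 0 < Real.cos θ) :
    ‖(1 : ℂ) - (Real.tan θ : ℂ) * Complex.I‖ * Real.cos θ = 1 := by
  have h1 : ((1 : ℂ) - (Real.tan θ : ℂ) * Complex.I) * (Real.cos θ : ℂ)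
      = Complex.exp ((-θ : ℝ) * Complex.I) := by
    rw [Complex.exp_mul_I, ← Complex.ofReal_cos, ← Complex.ofReal_sin, Real.cos_neg, Real.sin_neg,
      Real.tan_eq_sin_div_cos]
    have : (Real.cos θ : ℂ) ≠ 0 := by exact_mod_cast h.ne'
    push_cast
    push_cast at this
    field_simp
    ring
  have h2 := congrArg norm h1
  rw [norm_mul, Complex.norm_exp_ofReal_mul_I, Complex.norm_real, Real.norm_eq_abs,
    abs_of_pos h] at h2
  exact h2

theorem aux_chord_term (θ θ' : ℝ) (h : 0 < Real.cos θ) (h' : 0 < Real.cos θ')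
    (hlt : Real.tan θ < Real.tan θ') :
    2 * ‖(Real.tan θ' : ℂ) * Complex.I - (Real.tan θ : ℂ) * Complex.I‖ /
      (‖(1 : ℂ) - (Real.tan θ' : ℂ) * Complex.I‖ * ‖(1 : ℂ) - (Real.tan θ : ℂ) * Complex.I‖)
      = 2 * Real.sin (θ' - θ) := by
  have h1 := aux_chord_norm θ h
  have h2 := aux_chord_norm θ' h'
  have h3 : ‖(Real.tan θ' : ℂ) * Complex.I - (Real.tan θ : ℂ) * Complex.I‖ =
      Real.tan θ' - Real.tan θ := by
    rw [← sub_mul, norm_mul, Complex.norm_I, mul_one, ← Complex.ofReal_sub, Complex.norm_real,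
      Real.norm_eq_abs, abs_of_pos (by linarith)]
  have h4 : ‖(1 : ℂ) - (Real.tan θ : ℂ) * Complex.I‖ = (Real.cos θ)⁻¹ :=
    eq_inv_of_mul_eq_one_left h1
  have h5 : ‖(1 : ℂ) - (Real.tan θ' : ℂ) * Complex.I‖ = (Real.cos θ')⁻¹ :=
    eq_inv_of_mul_eq_one_left h2
  rw [h3, h4, h5, Real.sin_sub, Real.tan_eq_sin_div_cos, Real.tan_eq_sin_div_cos]
  have := h.ne'
  have := h'.ne'
  field_simp

theorem aux_chord_N (ε : ℝ) (hε : 0 < ε) : ∃ N : ℕ, 2 ≤ N ∧
    Real.pi - ε < ((N : ℝ) - 2) * (2 * Real.sin (Real.pi / (2 * N))) := by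
  obtain ⟨N0, hN0⟩ := exists_nat_gt (5 * Real.pi / (2 * ε))
  refine ⟨max N0 2, le_max_right _ _, ?_⟩
  set N := max N0 2 with hN
  have hN2 : (2 : ℝ) ≤ N := by exact_mod_cast le_max_right N0 2
  have hN1 : (N0 : ℝ) ≤ N := by exact_mod_cast le_max_left N0 2
  have hNpos : (0 : ℝ) < N := by linarith
  set x := Real.pi / (2 * N) with hx
  have hpi := Real.pi_pos
  have hpi4 := Real.pi_le_four
  have hx0 : 0 < x := by positivity
  have hx1 : x ≤ 1 := by
    rw [hx, div_le_one (by positivity)]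
    linarith
  have hNx : (N : ℝ) * x = Real.pi / 2 := by
    rw [hx]; field_simp
  have hsin := Real.sin_gt_sub_cube hx0
  have h5 : 5 * x < ε := by
    have h6 : 5 * Real.pi / (2 * ε) < N := lt_of_lt_of_le hN0 hN1
    rw [div_lt_iff₀ (by positivity)] at h6
    rw [hx, ← mul_div_assoc, div_lt_iff₀ (by positivity)]
    linarith
  have h7 : (N : ℝ) * x ^ 3 = Real.pi / 2 * x ^ 2 := by
    rw [← hNx]; ring
  have h8 : x ^ 2 ≤ x := by nlinarith
  have h9 : Real.pi / 2 * x ^ 2 ≤ 2 * x := by nlinarith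
  have h10 : 0 < x ^ 3 := by positivity
  have h11 : ((N : ℝ) - 2) * (2 * (x - x ^ 3 / 6)) ≤ ((N : ℝ) - 2) * (2 * Real.sin x) := by
    apply mul_le_mul_of_nonneg_left _ (by linarith)
    linarith
  have h12 : ((N : ℝ) - 2) * (2 * (x - x ^ 3 / 6)) =
      2 * (N * x) - 4 * x - (N * x ^ 3) / 3 + 2 / 3 * x ^ 3 := by ring
  rw [h7, hNx] at h12
  linarith

/-- TARGET -/
theorem chord (ε : ℝ) (hε : 0 < ε) : ∃ α : ℝ, 1 < α ∧ α < 2 ∧ ∃ (n : ℕ) (t : ℕ → ℝ),
    (∀ j ≤ n, 0 < t j) ∧ (∀ j < n, t j < t (j + 1)) ∧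
    ∀ᶠ φ in 𝓝[>] (0 : ℝ), (Real.pi - ε) * φ ≤
      ∑ j ∈ Finset.range n, ‖zz φ α (t (j + 1)) - zz φ α (t j)‖ := by
  obtain ⟨N, hN2, hN⟩ := aux_chord_N ε hε
  have hNpos : (0 : ℝ) < N := by exact_mod_cast (by omega : 0 < N)
  have hpi := Real.pi_pos
  set θ : ℕ → ℝ := fun j => Real.pi * (j + 1) / (2 * N) with hθ
  have hθ0 : ∀ j, 0 < θ j := by
    intro j
    simp only [hθ]
    positivity
  have hθ1 : ∀ j ≤ N - 2, θ j < Real.pi / 2 := by
    intro j hj
    have h1 : (j : ℝ) + 1 < N := by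
      have : j + 1 < N := by omega
      exact_mod_cast this
    simp only [hθ]
    rw [div_lt_div_iff₀ (by positivity) (by norm_num)]
    nlinarith
  have hθs : ∀ j, θ (j + 1) - θ j = Real.pi / (2 * N) := by
    intro j
    simp only [hθ]
    push_cast
    ring
  have hcos : ∀ j ≤ N - 2, 0 < Real.cos (θ j) := by
    intro j hj
    exact Real.cos_pos_of_mem_Ioo ⟨by linarith [hθ0 j], hθ1 j hj⟩
  have htan : ∀ j < N - 2, Real.tan (θ j) < Real.tan (θ (j + 1)) := by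
    intro j hj
    apply Real.tan_lt_tan_of_lt_of_lt_pi_div_two (by linarith [hθ0 j]) (hθ1 _ (by omega))
    have h1 := hθs j
    have h2 : 0 < Real.pi / (2 * N) := by positivity
    linarith
  set t : ℕ → ℝ := fun j => Real.tan (θ j) with ht
  -- the limit in α
  have hne2 : ∀ j ≤ N - 2, (1 : ℂ) - (t j : ℂ) * Complex.exp ((Real.pi / (2 : ℝ) : ℝ) * Complex.I) ≠ 0 := by
    intro j hj h0
    have h1 := aux_chord_norm (θ j) (hcos j hj)
    have h2 : Complex.exp ((Real.pi / (2 : ℝ) : ℝ) * Complex.I) = Complex.I := by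
      push_cast
      exact Complex.exp_pi_div_two_mul_I
    rw [h2] at h0
    simp only [ht] at h0
    rw [h0] at h1
    simp at h1
  have hp : Tendsto (fun α : ℝ => Complex.exp ((Real.pi / α : ℝ) * Complex.I)) (𝓝[<] (2 : ℝ))
      (𝓝 (Complex.exp ((Real.pi / (2 : ℝ) : ℝ) * Complex.I))) := by
    have : ContinuousAt (fun α : ℝ => Complex.exp ((Real.pi / α : ℝ) * Complex.I)) 2 := by
      have h2 : ContinuousAt (fun α : ℝ => Real.pi / α) 2 :=
        continuousAt_const.div continuousAt_id (by norm_num)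
      have h3 : ContinuousAt (fun α : ℝ => ((Real.pi / α : ℝ) : ℂ)) 2 :=
        Complex.continuous_ofReal.continuousAt.comp h2
      exact (h3.mul continuousAt_const).cexp
    exact this.tendsto.mono_left nhdsWithin_le_nhds
  have h1p : ∀ j, Tendsto (fun α : ℝ => (1 : ℂ) - (t j : ℂ) * Complex.exp ((Real.pi / α : ℝ) * Complex.I))
      (𝓝[<] (2 : ℝ)) (𝓝 ((1 : ℂ) - (t j : ℂ) * Complex.exp ((Real.pi / (2 : ℝ) : ℝ) * Complex.I))) := by
    intro j
    exact tendsto_const_nhds.sub (hp.const_mul _)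
  have hG : Tendsto (fun α : ℝ => ∑ j ∈ Finset.range (N - 2),
      2 * ‖(t (j + 1) : ℂ) * Complex.exp ((Real.pi / α : ℝ) * Complex.I) -
          (t j : ℂ) * Complex.exp ((Real.pi / α : ℝ) * Complex.I)‖ /
        (‖(1 : ℂ) - (t (j + 1) : ℂ) * Complex.exp ((Real.pi / α : ℝ) * Complex.I)‖ *
          ‖(1 : ℂ) - (t j : ℂ) * Complex.exp ((Real.pi / α : ℝ) * Complex.I)‖)) (𝓝[<] (2 : ℝ))
      (𝓝 (∑ j ∈ Finset.range (N - 2),
      2 * ‖(t (j + 1) : ℂ) * Complex.exp ((Real.pi / (2 : ℝ) : ℝ) * Complex.I) -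
          (t j : ℂ) * Complex.exp ((Real.pi / (2 : ℝ) : ℝ) * Complex.I)‖ /
        (‖(1 : ℂ) - (t (j + 1) : ℂ) * Complex.exp ((Real.pi / (2 : ℝ) : ℝ) * Complex.I)‖ *
          ‖(1 : ℂ) - (t j : ℂ) * Complex.exp ((Real.pi / (2 : ℝ) : ℝ) * Complex.I)‖))) := by
    apply tendsto_finsetSum
    intro j hj
    have hj' := Finset.mem_range.1 hj
    refine Tendsto.div (Tendsto.const_mul _ ((hp.const_mul _).sub (hp.const_mul _)).norm)
      ((h1p (j + 1)).norm.mul (h1p j).norm) ?_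
    exact mul_ne_zero (norm_ne_zero_iff.2 (hne2 _ (by omega))) (norm_ne_zero_iff.2 (hne2 _ (by omega)))
  have hval : (∑ j ∈ Finset.range (N - 2),
      2 * ‖(t (j + 1) : ℂ) * Complex.exp ((Real.pi / (2 : ℝ) : ℝ) * Complex.I) -
          (t j : ℂ) * Complex.exp ((Real.pi / (2 : ℝ) : ℝ) * Complex.I)‖ /
        (‖(1 : ℂ) - (t (j + 1) : ℂ) * Complex.exp ((Real.pi / (2 : ℝ) : ℝ) * Complex.I)‖ *
          ‖(1 : ℂ) - (t j : ℂ) * Complex.exp ((Real.pi / (2 : ℝ) : ℝ) * Complex.I)‖))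
      = ((N : ℝ) - 2) * (2 * Real.sin (Real.pi / (2 * N))) := by
    have h2 : Complex.exp ((Real.pi / (2 : ℝ) : ℝ) * Complex.I) = Complex.I := by
      push_cast
      exact Complex.exp_pi_div_two_mul_I
    rw [h2]
    have h3 : ∀ j ∈ Finset.range (N - 2), 2 * ‖(t (j + 1) : ℂ) * Complex.I -
          (t j : ℂ) * Complex.I‖ /
        (‖(1 : ℂ) - (t (j + 1) : ℂ) * Complex.I‖ *
          ‖(1 : ℂ) - (t j : ℂ) * Complex.I‖) = 2 * Real.sin (Real.pi / (2 * N)) := by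
      intro j hj
      have hj' := Finset.mem_range.1 hj
      simp only [ht]
      rw [aux_chord_term (θ j) (θ (j + 1)) (hcos _ (by omega)) (hcos _ (by omega)) (htan j hj'),
        hθs]
    rw [Finset.sum_congr rfl h3, Finset.sum_const, Finset.card_range, nsmul_eq_mul,
      Nat.cast_sub hN2]
    push_cast
    ring
  rw [hval] at hG
  have hev1 := hG.eventually (lt_mem_nhds hN)
  have hev2 : ∀ᶠ α : ℝ in 𝓝[<] (2 : ℝ), ∀ j ∈ Finset.range (N - 2 + 1),
      (1 : ℂ) - (t j : ℂ) * Complex.exp ((Real.pi / α : ℝ) * Complex.I) ≠ 0 := by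
    rw [Filter.eventually_all_finset]
    intro j hj
    have hj' := Finset.mem_range.1 hj
    exact (h1p j).eventually_ne (hne2 j (by omega))
  have hev3 : ∀ᶠ α : ℝ in 𝓝[<] (2 : ℝ), 1 < α :=
    nhdsWithin_le_nhds (lt_mem_nhds (by norm_num))
  have hev4 : ∀ᶠ α : ℝ in 𝓝[<] (2 : ℝ), α < 2 := self_mem_nhdsWithin
  obtain ⟨α, ⟨hα1, hα2⟩, hα3, hα4⟩ := ((hev1.and hev2).and (hev3.and hev4)).exists
  refine ⟨α, hα3, hα4, N - 2, t, ?_, ?_, ?_⟩
  · intro j hj
    exact Real.tan_pos_of_pos_of_lt_pi_div_two (hθ0 j) (hθ1 j hj)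
  · intro j hj
    exact htan j hj
  · have hφ : Tendsto (fun φ : ℝ => ∑ j ∈ Finset.range (N - 2),
        ‖zz φ α (t (j + 1)) - zz φ α (t j)‖ / φ) (𝓝[>] (0 : ℝ))
        (𝓝 (∑ j ∈ Finset.range (N - 2),
      2 * ‖(t (j + 1) : ℂ) * Complex.exp ((Real.pi / α : ℝ) * Complex.I) -
          (t j : ℂ) * Complex.exp ((Real.pi / α : ℝ) * Complex.I)‖ /
        (‖(1 : ℂ) - (t (j + 1) : ℂ) * Complex.exp ((Real.pi / α : ℝ) * Complex.I)‖ *
          ‖(1 : ℂ) - (t j : ℂ) * Complex.exp ((Real.pi / α : ℝ) * Complex.I)‖))) := by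
      apply tendsto_finsetSum
      intro j hj
      have hj' := Finset.mem_range.1 hj
      unfold zz
      exact aux_chord_lim _ _ (hα2 _ (Finset.mem_range.2 (by omega)))
        (hα2 _ (Finset.mem_range.2 (by omega)))
    filter_upwards [hφ.eventually (lt_mem_nhds hα1), self_mem_nhdsWithin] with φ h1 h2
    have h2' : (0 : ℝ) < φ := h2
    rw [← Finset.sum_div, lt_div_iff₀ h2'] at h1
    exact h1.le

theorem t_chord : S_chord := fun ε hε => chord ε hε

end HW714
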