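import Pool.Agent.Helper714_HW.Spec

set_option autoImplicit false
open Set Metric MeasureTheory Complex Filter Topology
open scoped NNReal ENNReal

namespace HW714



/-! ### Auxiliary lemmas -/

lemma aux_close_ne {φ : ℝ} {z : ℂ} (hz : ‖z‖ < 1) :
    1 - Complex.exp (φ * Complex.I) * z ≠ 0 := by
  intro h
  have h1 : Complex.exp (φ * Complex.I) * z = 1 := (sub_eq_zero.1 h).symm
  have h2 := congrArg norm h1
  rw [norm_mul, Complex.norm_exp_ofReal_mul_I, one_mul, norm_one] at h2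
  linarith

lemma aux_close_sq (z : ℂ) : ‖z‖ ^ 2 = z.re ^ 2 + z.im ^ 2 := by
  rw [Complex.sq_norm, Complex.normSq_apply]; ring

lemma aux_close_re (φ : ℝ) (z : ℂ) : (Mo φ z).re =
    (Real.cos φ * (1 + ‖z‖ ^ 2) - 2 * z.re) /
      Complex.normSq (1 - Complex.exp (φ * Complex.I) * z) := by
  unfold Mo
  rw [Complex.div_re, ← add_div, aux_close_sq]
  congr 1
  simp only [Complex.sub_re, Complex.sub_im, Complex.mul_re, Complex.mul_im, Complex.one_re,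
    Complex.one_im, Complex.exp_ofReal_mul_I_re, Complex.exp_ofReal_mul_I_im]
  have h := Real.sin_sq_add_cos_sq φ
  linear_combination (-z.re) * h

lemma aux_close_im (φ : ℝ) (z : ℂ) : (Mo φ z).im =
    (Real.sin φ * (1 - ‖z‖ ^ 2)) /
      Complex.normSq (1 - Complex.exp (φ * Complex.I) * z) := by
  unfold Mo
  rw [Complex.div_im, ← sub_div, aux_close_sq]
  congr 1
  simp only [Complex.sub_re, Complex.sub_im, Complex.mul_re, Complex.mul_im, Complex.one_re,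
    Complex.one_im, Complex.exp_ofReal_mul_I_re, Complex.exp_ofReal_mul_I_im]
  have h := Real.sin_sq_add_cos_sq φ
  linear_combination (z.im) * h

lemma aux_close_up {φ : ℝ} (h0 : 0 < φ) (h1 : φ < Real.pi) {z : ℂ} (hz : ‖z‖ < 1) :
    0 < (Mo φ z).im := by
  rw [aux_close_im]
  refine div_pos (mul_pos (Real.sin_pos_of_pos_of_lt_pi h0 h1) ?_)
    (Complex.normSq_pos.2 (aux_close_ne hz))
  nlinarith [norm_nonneg z]

/-- `|e - w|^2 - |1 - e w|^2 = -4 sin φ Im w`. -/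
lemma aux_close_diff (φ : ℝ) (w : ℂ) :
    ‖Complex.exp (φ * Complex.I) - w‖ ^ 2 - ‖1 - Complex.exp (φ * Complex.I) * w‖ ^ 2 =
      -4 * Real.sin φ * w.im := by
  rw [aux_close_sq, aux_close_sq]
  simp only [Complex.sub_re, Complex.sub_im, Complex.mul_re, Complex.mul_im, Complex.one_re,
    Complex.one_im, Complex.exp_ofReal_mul_I_re, Complex.exp_ofReal_mul_I_im]
  have h := Real.sin_sq_add_cos_sq φ
  linear_combination (1 - w.re ^ 2 - w.im ^ 2) * h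

lemma aux_close_ne' {φ : ℝ} (h0 : 0 < φ) (h1 : φ < Real.pi) {w : ℂ} (hw : 0 < w.im) :
    1 - Complex.exp (φ * Complex.I) * w ≠ 0 := by
  intro h
  have h2 := aux_close_diff φ w
  rw [h, norm_zero] at h2
  have h3 := mul_pos (Real.sin_pos_of_pos_of_lt_pi h0 h1) hw
  nlinarith [sq_nonneg ‖Complex.exp (φ * Complex.I) - w‖]

lemma aux_close_disc {φ : ℝ} (h0 : 0 < φ) (h1 : φ < Real.pi) {w : ℂ} (hw : 0 < w.im) :
    ‖Mo φ w‖ < 1 := by
  unfold Mo
  have h2 := aux_close_diff φ w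
  have h3 := mul_pos (Real.sin_pos_of_pos_of_lt_pi h0 h1) hw
  have h4 : 0 < ‖1 - Complex.exp (φ * Complex.I) * w‖ := norm_pos_iff.2 (aux_close_ne' h0 h1 hw)
  rw [norm_div, div_lt_one h4]
  refine lt_of_pow_lt_pow_left₀ 2 h4.le ?_
  nlinarith

lemma aux_close_e_sq {φ : ℝ} (h0 : 0 < φ) (h1 : φ < Real.pi) :
    1 - Complex.exp (φ * Complex.I) ^ 2 ≠ 0 := by
  intro h
  have h2 : (Complex.exp (φ * Complex.I) - 1) * (Complex.exp (φ * Complex.I) + 1) = 0 := by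
    linear_combination -h
  have him : (Complex.exp (φ * Complex.I)).im ≠ 0 := by
    rw [Complex.exp_ofReal_mul_I_im]
    exact (Real.sin_pos_of_pos_of_lt_pi h0 h1).ne'
  rcases mul_eq_zero.1 h2 with h3 | h3
  · apply him
    rw [sub_eq_zero.1 h3]; simp
  · apply him
    rw [eq_neg_of_add_eq_zero_left h3]; simp

lemma aux_close_denom {φ : ℝ} {z : ℂ} (hz : 1 - Complex.exp (φ * Complex.I) * z ≠ 0) :
    (1 - Complex.exp (φ * Complex.I) * Mo φ z) =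
      (1 - Complex.exp (φ * Complex.I) ^ 2) / (1 - Complex.exp (φ * Complex.I) * z) := by
  unfold Mo
  rw [eq_div_iff hz, sub_mul, mul_assoc, div_mul_cancel₀ _ hz]
  ring

lemma aux_close_denom_ne {φ : ℝ} (h0 : 0 < φ) (h1 : φ < Real.pi) {z : ℂ}
    (hz : 1 - Complex.exp (φ * Complex.I) * z ≠ 0) :
    1 - Complex.exp (φ * Complex.I) * Mo φ z ≠ 0 := by
  rw [aux_close_denom hz]
  exact div_ne_zero (aux_close_e_sq h0 h1) hz

lemma aux_close_invol {φ : ℝ} (h0 : 0 < φ) (h1 : φ < Real.pi) {z : ℂ}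
    (hz : 1 - Complex.exp (φ * Complex.I) * z ≠ 0) : Mo φ (Mo φ z) = z := by
  have h2 : Mo φ (Mo φ z) = (Complex.exp (φ * Complex.I) - Mo φ z) /
      (1 - Complex.exp (φ * Complex.I) * Mo φ z) := rfl
  have h3 := aux_close_e_sq h0 h1
  have h4 : Complex.exp (φ * Complex.I) - Mo φ z =
      z * (1 - Complex.exp (φ * Complex.I) ^ 2) / (1 - Complex.exp (φ * Complex.I) * z) := by
    unfold Mo
    rw [eq_div_iff hz, sub_mul, div_mul_cancel₀ _ hz]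
    ring
  rw [h2, aux_close_denom hz, h4, div_div_div_cancel_right₀ hz, mul_div_cancel_right₀ _ h3]

lemma aux_close_arg_of_im {w : ℂ} (hw : 0 < w.im) : 0 < w.arg ∧ w.arg < Real.pi := by
  have h1 : 0 ≤ w.arg := Complex.arg_nonneg_iff.2 hw.le
  have h2 := Complex.arg_le_pi w
  have h3 : ‖w‖ * Real.sin w.arg = w.im := Complex.norm_mul_sin_arg w
  constructor
  · rcases h1.lt_or_eq with h | h
    · exact h
    · rw [← h, Real.sin_zero, mul_zero] at h3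
      linarith
  · rcases h2.lt_or_eq with h | h
    · exact h
    · rw [h, Real.sin_pi, mul_zero] at h3
      linarith

lemma aux_close_im_of_arg {w : ℂ} (h0 : 0 < w.arg) (h1 : w.arg < Real.pi) : 0 < w.im := by
  have hw : w ≠ 0 := by
    intro h
    rw [h, Complex.arg_zero] at h0
    exact lt_irrefl _ h0
  rw [← Complex.norm_mul_sin_arg]
  exact mul_pos (norm_pos_iff.2 hw) (Real.sin_pos_of_pos_of_lt_pi h0 h1)

lemma aux_close_arg_cpow {x : ℂ} (hx : x ≠ 0) (y : ℝ) (h1 : -Real.pi < x.arg * y)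
    (h2 : x.arg * y ≤ Real.pi) : (x ^ (y : ℂ)).arg = x.arg * y := by
  have him : (Complex.log x * y).im = x.arg * y := by
    rw [Complex.mul_im, Complex.ofReal_im, Complex.ofReal_re, Complex.log_im]
    ring
  rw [← Complex.log_im, Complex.cpow_def_of_ne_zero hx, Complex.log_exp (by rw [him]; exact h1)
    (by rw [him]; exact h2), him]

lemma aux_close_cpow_cpow {x : ℂ} (y : ℝ) (hy : y ≠ 0) (h1 : -Real.pi < x.arg * y)
    (h2 : x.arg * y ≤ Real.pi) : (x ^ (y : ℂ)) ^ ((y⁻¹ : ℝ) : ℂ) = x := by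
  have him : (Complex.log x * y).im = x.arg * y := by
    rw [Complex.mul_im, Complex.ofReal_im, Complex.ofReal_re, Complex.log_im]
    ring
  rw [← Complex.cpow_mul _ (by rw [him]; exact h1) (by rw [him]; exact h2), ← Complex.ofReal_mul,
    mul_inv_cancel₀ hy, Complex.ofReal_one, Complex.cpow_one]

/-- The closing map. -/
noncomputable def aux_close_h (ψ1 β : ℝ) (z : ℂ) : ℂ := Mo (β * ψ1) ((Mo ψ1 z) ^ (β : ℂ))

/-- Its inverse. -/
noncomputable def aux_close_k (ψ1 β : ℝ) (u : ℂ) : ℂ :=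
  Mo ψ1 ((Mo (β * ψ1) u) ^ ((β⁻¹ : ℝ) : ℂ))

/-- The facts about `(Mo ψ1 z)^β`. -/
lemma aux_close_pow_up {ψ1 β : ℝ} (hψ : 0 < ψ1) (hψ' : ψ1 < Real.pi) (hβ : 0 < β) (hβ1 : β ≤ 1)
    {z : ℂ} (hz : ‖z‖ < 1) : ((Mo ψ1 z) ^ (β : ℂ)).arg = (Mo ψ1 z).arg * β ∧
      0 < (Mo ψ1 z).arg * β ∧ (Mo ψ1 z).arg * β < β * Real.pi ∧ 0 < ((Mo ψ1 z) ^ (β : ℂ)).im := by
  have h1 := aux_close_up hψ hψ' hz
  obtain ⟨h2, h3⟩ := aux_close_arg_of_im h1
  have hne : Mo ψ1 z ≠ 0 := by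
    intro h
    rw [h] at h1
    simp at h1
  have h4 : 0 < (Mo ψ1 z).arg * β := mul_pos h2 hβ
  have h5 : (Mo ψ1 z).arg * β < β * Real.pi := by
    rw [mul_comm]
    exact mul_lt_mul_of_pos_left h3 hβ
  have h6 : β * Real.pi ≤ Real.pi := by
    nlinarith [Real.pi_pos]
  have h7 := aux_close_arg_cpow hne β (by linarith [Real.pi_pos]) (by linarith)
  refine ⟨h7, h4, h5, aux_close_im_of_arg (by rw [h7]; exact h4) (by rw [h7]; linarith)⟩

lemma aux_close_kh {ψ1 β : ℝ} (hψ : 0 < ψ1) (hψ' : ψ1 < Real.pi) (hβ : 0 < β) (hβ1 : β ≤ 1)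
    {z : ℂ} (hz : ‖z‖ < 1) : aux_close_k ψ1 β (aux_close_h ψ1 β z) = z := by
  obtain ⟨h1, h2, h3, h4⟩ := aux_close_pow_up hψ hψ' hβ hβ1 hz
  have hb0 : 0 < β * ψ1 := mul_pos hβ hψ
  have hb1 : β * ψ1 < Real.pi := by nlinarith
  have h6 : β * Real.pi ≤ Real.pi := by
    nlinarith [Real.pi_pos]
  unfold aux_close_k aux_close_h
  rw [aux_close_invol hb0 hb1 (aux_close_ne' hb0 hb1 h4), aux_close_cpow_cpow β hβ.ne'
    (by linarith [Real.pi_pos]) (by linarith), aux_close_invol hψ hψ' (aux_close_ne hz)]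

lemma aux_close_h0 {ψ1 β : ℝ} (hψ : 0 < ψ1) (hψ' : ψ1 < Real.pi) :
    aux_close_h ψ1 β 0 = 0 := by
  unfold aux_close_h
  have h1 : Mo ψ1 0 = Complex.exp (ψ1 * Complex.I) := by simp [Mo]
  have h2 : Complex.exp (ψ1 * Complex.I) ^ (β : ℂ) = Complex.exp ((β * ψ1 : ℝ) * Complex.I) := by
    rw [Complex.cpow_def_of_ne_zero (Complex.exp_ne_zero _), Complex.log_exp]
    · congr 1
      push_cast
      ring
    · simp; linarith [Real.pi_pos]
    · simp; linarith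
  rw [h1, h2]
  unfold Mo
  simp

/-- Points in the image. -/
lemma aux_close_hk {ψ1 β : ℝ} (hψ : 0 < ψ1) (hψ' : ψ1 < Real.pi) (hβ : 0 < β) (hβ1 : β ≤ 1)
    {u : ℂ} (hu : ‖u‖ < 1) (harg : (Mo (β * ψ1) u).arg < β * Real.pi) :
    ‖aux_close_k ψ1 β u‖ < 1 ∧ aux_close_h ψ1 β (aux_close_k ψ1 β u) = u := by
  have hb0 : 0 < β * ψ1 := mul_pos hβ hψ
  have hb1 : β * ψ1 < Real.pi := by nlinarith
  have h1 := aux_close_up hb0 hb1 hu
  obtain ⟨h2, h3⟩ := aux_close_arg_of_im h1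
  have hne : Mo (β * ψ1) u ≠ 0 := by
    intro h
    rw [h] at h1
    simp at h1
  have h4 : 0 < (Mo (β * ψ1) u).arg * β⁻¹ := mul_pos h2 (inv_pos.2 hβ)
  have h5 : (Mo (β * ψ1) u).arg * β⁻¹ < Real.pi := by
    rw [← div_eq_mul_inv, div_lt_iff₀ hβ, mul_comm Real.pi]
    exact harg
  have h6 := aux_close_arg_cpow hne β⁻¹ (by linarith [Real.pi_pos]) h5.le
  have h7 : 0 < ((Mo (β * ψ1) u) ^ ((β⁻¹ : ℝ) : ℂ)).im :=
    aux_close_im_of_arg (by rw [h6]; exact h4) (by rw [h6]; exact h5)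
  refine ⟨aux_close_disc hψ hψ' h7, ?_⟩
  unfold aux_close_h aux_close_k
  rw [aux_close_invol hψ hψ' (aux_close_ne' hψ hψ' h7)]
  have h8 := aux_close_cpow_cpow (x := Mo (β * ψ1) u) β⁻¹ (inv_ne_zero hβ.ne')
    (by linarith [Real.pi_pos]) h5.le
  rw [inv_inv] at h8
  rw [h8, aux_close_invol hb0 hb1 (aux_close_ne hu)]

/-- The derivative of `Mo`. -/
noncomputable def aux_close_dMo (φ : ℝ) (z : ℂ) : ℂ :=
  (Complex.exp (φ * Complex.I) ^ 2 - 1) / (1 - Complex.exp (φ * Complex.I) * z) ^ 2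

lemma aux_close_hasDeriv {φ : ℝ} {z : ℂ} (hz : 1 - Complex.exp (φ * Complex.I) * z ≠ 0) :
    HasDerivAt (Mo φ) (aux_close_dMo φ z) z := by
  have h1 : HasDerivAt (fun z : ℂ => Complex.exp (φ * Complex.I) - z) (-1) z :=
    (hasDerivAt_id z).const_sub _
  have h2 : HasDerivAt (fun z : ℂ => 1 - Complex.exp (φ * Complex.I) * z)
      (-(Complex.exp (φ * Complex.I) * 1)) z :=
    ((hasDerivAt_id z).const_mul _).const_sub _
  have h3 := h1.div h2 hz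
  unfold aux_close_dMo
  convert! h3 using 1
  congr 1
  ring

/-- The derivative of `k`. -/
noncomputable def aux_close_dk (ψ1 β : ℝ) (u : ℂ) : ℂ :=
  aux_close_dMo ψ1 ((Mo (β * ψ1) u) ^ ((β⁻¹ : ℝ) : ℂ)) *
    (((β⁻¹ : ℝ) : ℂ) * (Mo (β * ψ1) u) ^ (((β⁻¹ : ℝ) : ℂ) - 1) * aux_close_dMo (β * ψ1) u)

lemma aux_close_hasDeriv_k {ψ1 β : ℝ} {u : ℂ}
    (h1 : 1 - Complex.exp ((β * ψ1 : ℝ) * Complex.I) * u ≠ 0)
    (h2 : Mo (β * ψ1) u ∈ slitPlane)
    (h3 : 1 - Complex.exp (ψ1 * Complex.I) * ((Mo (β * ψ1) u) ^ ((β⁻¹ : ℝ) : ℂ)) ≠ 0) :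
    HasDerivAt (aux_close_k ψ1 β) (aux_close_dk ψ1 β u) u := by
  have h4 := (aux_close_hasDeriv h1).cpow_const (c := ((β⁻¹ : ℝ) : ℂ)) h2
  exact (aux_close_hasDeriv h3).comp u h4

/-- The image of `h` keeps a distance from the arc. -/
lemma aux_close_dist {φ ψ1 β : ℝ} (h0 : 0 < φ) (hφ : φ < β * ψ1) (hψ : 0 < ψ1)
    (hψ' : ψ1 < Real.pi / 2) (hβ : 0 < β) (hβ1 : β < 1) :
    ∃ c > 0, ∀ z ∈ ball (0 : ℂ) 1, Real.cos φ - c ≤ (aux_close_h ψ1 β z).re →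
      ‖aux_close_h ψ1 β z‖ ≤ 1 - c := by
  have hpi := Real.pi_pos
  have hψπ : ψ1 < Real.pi := by linarith
  have hb0 : 0 < β * ψ1 := mul_pos hβ hψ
  have hb1 : β * ψ1 < Real.pi / 2 := by nlinarith
  have hbπ : β * ψ1 < Real.pi := by linarith
  have hcos0 : 0 ≤ Real.cos (β * ψ1) := Real.cos_nonneg_of_neg_pi_div_two_le_of_le
    (by linarith) hb1.le
  have hcosφ : Real.cos φ ≤ 1 := Real.cos_le_one φ
  have hc1 : 0 < Real.cos φ - Real.cos (β * ψ1) := by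
    have := Real.cos_lt_cos_of_nonneg_of_le_pi h0.le hbπ.le hφ
    linarith
  set c1 := Real.cos φ - Real.cos (β * ψ1) with hc1_def
  have hβπ : β * Real.pi < Real.pi := by nlinarith
  have hs : 0 < Real.sin (β * Real.pi) := Real.sin_pos_of_pos_of_lt_pi (by positivity) hβπ
  set s := Real.sin (β * Real.pi) with hs_def
  refine ⟨min (c1 / 2) (c1 * s / 4), lt_min (by positivity) (by positivity), ?_⟩
  set c := min (c1 / 2) (c1 * s / 4) with hc_def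
  have hca : c ≤ c1 / 2 := min_le_left _ _
  have hcb : c ≤ c1 * s / 4 := min_le_right _ _
  have hc0 : 0 < c := lt_min (by positivity) (by positivity)
  intro z hz hre
  rw [mem_ball_zero_iff] at hz
  by_contra hcon
  push Not at hcon
  obtain ⟨h1, h2, h3, h4⟩ := aux_close_pow_up hψ hψπ hβ hβ1.le hz
  set w := (Mo ψ1 z) ^ (β : ℂ) with hw
  set u := aux_close_h ψ1 β z with hu
  have hu1 : ‖u‖ < 1 := aux_close_disc hb0 hbπ h4
  have hMo : Mo (β * ψ1) u = w := aux_close_invol hb0 hbπ (aux_close_ne' hb0 hbπ h4)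
  have hn : 0 < Complex.normSq (1 - Complex.exp ((β * ψ1 : ℝ) * Complex.I) * u) :=
    Complex.normSq_pos.2 (aux_close_ne hu1)
  have hwre := aux_close_re (β * ψ1) u
  have hwim := aux_close_im (β * ψ1) u
  rw [hMo] at hwre hwim
  -- the argument of w
  have hrot : w.im * Real.cos (β * Real.pi) - w.re * s < 0 := by
    have e1 := Complex.norm_mul_cos_arg w
    have e2 := Complex.norm_mul_sin_arg w
    have hwn : 0 < ‖w‖ := by
      rw [norm_pos_iff]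
      intro h
      rw [h] at h4
      simp at h4
    have e3 : w.im * Real.cos (β * Real.pi) - w.re * s =
        ‖w‖ * Real.sin (w.arg - β * Real.pi) := by
      rw [← e1, ← e2, Real.sin_sub, hs_def]
      ring
    rw [e3]
    refine mul_neg_of_pos_of_neg hwn (Real.sin_neg_of_neg_of_neg_pi_lt ?_ ?_)
    · rw [h1]; linarith
    · rw [h1]; linarith
  have hNN : Real.sin (β * ψ1) * (1 - ‖u‖ ^ 2) * Real.cos (β * Real.pi) -
      (Real.cos (β * ψ1) * (1 + ‖u‖ ^ 2) - 2 * u.re) * s < 0 := by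
    rw [hwre, hwim, div_mul_eq_mul_div, div_mul_eq_mul_div, ← sub_div] at hrot
    have := (div_neg_iff.1 hrot)
    rcases this with ⟨_, h⟩ | ⟨h, _⟩
    · linarith
    · exact h
  have hu2 : ‖u‖ ^ 2 ≤ 1 := by nlinarith [norm_nonneg u]
  have hu3 : 1 - ‖u‖ ^ 2 ≤ 2 * c := by nlinarith [norm_nonneg u]
  have hNre : Real.cos (β * ψ1) * (1 + ‖u‖ ^ 2) - 2 * u.re ≤ -c1 := by
    have : Real.cos (β * ψ1) * (1 + ‖u‖ ^ 2) ≤ Real.cos (β * ψ1) * 2 :=
      mul_le_mul_of_nonneg_left (by linarith) hcos0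
    linarith
  have hNim : -(2 * c) ≤ Real.sin (β * ψ1) * (1 - ‖u‖ ^ 2) * Real.cos (β * Real.pi) := by
    have ha : 0 ≤ Real.sin (β * ψ1) * (1 - ‖u‖ ^ 2) :=
      mul_nonneg (Real.sin_pos_of_pos_of_lt_pi hb0 hbπ).le (by linarith)
    have hb : Real.sin (β * ψ1) * (1 - ‖u‖ ^ 2) ≤ 1 * (2 * c) :=
      mul_le_mul (Real.sin_le_one _) hu3 (by linarith) zero_le_one
    have hc : -1 ≤ Real.cos (β * Real.pi) := Real.neg_one_le_cos _
    nlinarith
  have h5 : (Real.cos (β * ψ1) * (1 + ‖u‖ ^ 2) - 2 * u.re) * s ≤ -c1 * s :=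
    mul_le_mul_of_nonneg_right hNre hs.le
  nlinarith [mul_pos hc1 hs]

lemma aux_close_diff_h {ψ1 β : ℝ} (hψ : 0 < ψ1) (hψ' : ψ1 < Real.pi) (hβ : 0 < β) (hβ1 : β ≤ 1)
    {z : ℂ} (hz : ‖z‖ < 1) : DifferentiableAt ℂ (aux_close_h ψ1 β) z := by
  obtain ⟨_, _, _, h4⟩ := aux_close_pow_up hψ hψ' hβ hβ1 hz
  have hb0 : 0 < β * ψ1 := mul_pos hβ hψ
  have hb1 : β * ψ1 < Real.pi := by nlinarith
  have h5 := (aux_close_hasDeriv (aux_close_ne (φ := ψ1) hz)).cpow_const (c := (β : ℂ))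
    (Complex.mem_slitPlane_iff.2 (Or.inr (aux_close_up hψ hψ' hz).ne'))
  exact ((aux_close_hasDeriv (aux_close_ne' hb0 hb1 h4)).comp z h5).differentiableAt

/-- The properties which hold near `β = 1`. -/
structure aux_close_P (ψ1 η : ℝ) (β : ℝ) (v : ℂ) : Prop where
  a : 1 - Complex.exp ((β * ψ1 : ℝ) * Complex.I) * v ≠ 0
  b : Mo (β * ψ1) v ∈ slitPlane
  c : (Mo (β * ψ1) v).arg < β * Real.pi
  d : 1 - Complex.exp (ψ1 * Complex.I) * ((Mo (β * ψ1) v) ^ ((β⁻¹ : ℝ) : ℂ)) ≠ 0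
  e : ‖aux_close_k ψ1 β v - v‖ ≤ η
  f : ‖aux_close_dk ψ1 β v‖⁻¹ ≤ 1 + η

lemma aux_close_near {ψ1 η : ℝ} (hψ : 0 < ψ1) (hψ' : ψ1 < Real.pi) (hη : 0 < η) {u : ℂ}
    (h1 : 1 - Complex.exp (ψ1 * Complex.I) * u ≠ 0) (h2 : Mo ψ1 u ∈ slitPlane) :
    ∀ᶠ p : ℝ × ℂ in 𝓝 (1, u), aux_close_P ψ1 η p.1 p.2 := by
  have c1 : ContinuousAt (fun p : ℝ × ℂ => 1 - Complex.exp ((p.1 * ψ1 : ℝ) * Complex.I) * p.2)
      (1, u) := by fun_prop
  have c2 : ContinuousAt (fun p : ℝ × ℂ => Mo (p.1 * ψ1) p.2) (1, u) := by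
    unfold Mo
    refine ContinuousAt.div (by fun_prop) c1 ?_
    simpa using h1
  have v2 : Mo ((1:ℝ) * ψ1) u = Mo ψ1 u := by rw [one_mul]
  have c3 : ContinuousAt (fun p : ℝ × ℂ => (Mo (p.1 * ψ1) p.2).arg - p.1 * Real.pi) (1, u) := by
    refine ContinuousAt.sub ?_ (by fun_prop)
    exact ContinuousAt.comp (f := fun p : ℝ × ℂ => Mo (p.1 * ψ1) p.2) (g := Complex.arg)
      (Complex.continuousAt_arg (by simpa [v2] using h2)) c2
  have cinv : ContinuousAt (fun p : ℝ × ℂ => ((p.1⁻¹ : ℝ) : ℂ)) (1, u) := by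
    have : ContinuousAt (fun p : ℝ × ℂ => p.1⁻¹) (1, u) :=
      ContinuousAt.inv₀ continuousAt_fst one_ne_zero
    exact (Complex.continuous_ofReal.continuousAt).comp this
  have c4 : ContinuousAt (fun p : ℝ × ℂ => (Mo (p.1 * ψ1) p.2) ^ ((p.1⁻¹ : ℝ) : ℂ)) (1, u) :=
    c2.cpow cinv (by simpa [v2] using h2)
  have v4 : (Mo ((1:ℝ) * ψ1) u) ^ (((1:ℝ)⁻¹ : ℝ) : ℂ) = Mo ψ1 u := by
    rw [v2, inv_one, Complex.ofReal_one, Complex.cpow_one]
  have c5 : ContinuousAt (fun p : ℝ × ℂ => 1 - Complex.exp (ψ1 * Complex.I) *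
      ((Mo (p.1 * ψ1) p.2) ^ ((p.1⁻¹ : ℝ) : ℂ))) (1, u) :=
    continuousAt_const.sub (continuousAt_const.mul c4)
  have v5 : 1 - Complex.exp (ψ1 * Complex.I) *
      ((Mo ((1:ℝ) * ψ1) u) ^ (((1:ℝ)⁻¹ : ℝ) : ℂ)) ≠ 0 := by
    rw [v4]
    exact aux_close_denom_ne hψ hψ' h1
  have c6 : ContinuousAt (fun p : ℝ × ℂ => aux_close_k ψ1 p.1 p.2) (1, u) := by
    unfold aux_close_k
    have : ContinuousAt (fun p : ℝ × ℂ => (Complex.exp (ψ1 * Complex.I) -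
        (Mo (p.1 * ψ1) p.2) ^ ((p.1⁻¹ : ℝ) : ℂ)) / (1 - Complex.exp (ψ1 * Complex.I) *
          ((Mo (p.1 * ψ1) p.2) ^ ((p.1⁻¹ : ℝ) : ℂ)))) (1, u) :=
      (continuousAt_const.sub c4).div c5 v5
    exact this
  have v6 : aux_close_k ψ1 1 u = u := by
    unfold aux_close_k
    rw [v4, aux_close_invol hψ hψ' h1]
  have c7 : ContinuousAt (fun p : ℝ × ℂ => aux_close_dk ψ1 p.1 p.2) (1, u) := by
    unfold aux_close_dk aux_close_dMo
    refine ContinuousAt.mul ?_ (ContinuousAt.mul (ContinuousAt.mul cinv ?_) ?_)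
    · exact continuousAt_const.div (c5.pow 2) (pow_ne_zero 2 v5)
    · exact c2.cpow (cinv.sub continuousAt_const) (by simpa [v2] using h2)
    · refine ContinuousAt.div (by fun_prop) (c1.pow 2) (pow_ne_zero 2 ?_)
      simpa using h1
  have v7 : aux_close_dk ψ1 1 u = 1 := by
    unfold aux_close_dk
    rw [v4, one_mul, inv_one, Complex.ofReal_one, sub_self, Complex.cpow_zero, one_mul, one_mul]
    unfold aux_close_dMo
    rw [aux_close_denom h1]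
    have h3 := aux_close_e_sq hψ hψ'
    have h4 : Complex.exp (ψ1 * Complex.I) ^ 2 - 1 ≠ 0 := by
      intro h
      apply h3
      linear_combination -h
    rw [div_pow, div_div_eq_mul_div, div_mul_div_comm, div_eq_one_iff_eq]
    · ring
    · exact mul_ne_zero (pow_ne_zero 2 h3) (pow_ne_zero 2 h1)
  have e1 : ∀ᶠ p : ℝ × ℂ in 𝓝 (1, u), 1 - Complex.exp ((p.1 * ψ1 : ℝ) * Complex.I) * p.2 ≠ 0 :=
    c1.eventually_ne (by simpa using h1)
  have e2 : ∀ᶠ p : ℝ × ℂ in 𝓝 (1, u), Mo (p.1 * ψ1) p.2 ∈ slitPlane :=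
    c2.eventually_mem (Complex.isOpen_slitPlane.mem_nhds (by simpa [v2] using h2))
  have e3 : ∀ᶠ p : ℝ × ℂ in 𝓝 (1, u), (Mo (p.1 * ψ1) p.2).arg - p.1 * Real.pi < 0 := by
    refine c3.eventually_lt_const ?_
    simp only [one_mul]
    have h3 := (Complex.mem_slitPlane_iff_arg.1 h2).1
    have h4 := lt_of_le_of_ne (Complex.arg_le_pi (Mo ψ1 u)) h3
    linarith
  have e5 : ∀ᶠ p : ℝ × ℂ in 𝓝 (1, u), 1 - Complex.exp (ψ1 * Complex.I) *
      ((Mo (p.1 * ψ1) p.2) ^ ((p.1⁻¹ : ℝ) : ℂ)) ≠ 0 := c5.eventually_ne v5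
  have e6 : ∀ᶠ p : ℝ × ℂ in 𝓝 (1, u), ‖aux_close_k ψ1 p.1 p.2 - p.2‖ < η := by
    have : ContinuousAt (fun p : ℝ × ℂ => ‖aux_close_k ψ1 p.1 p.2 - p.2‖) (1, u) :=
      (c6.sub continuousAt_snd).norm
    refine this.eventually_lt_const ?_
    simp only [v6, sub_self, norm_zero]
    exact hη
  have e7 : ∀ᶠ p : ℝ × ℂ in 𝓝 (1, u), ‖aux_close_dk ψ1 p.1 p.2‖⁻¹ < 1 + η := by
    have : ContinuousAt (fun p : ℝ × ℂ => ‖aux_close_dk ψ1 p.1 p.2‖⁻¹) (1, u) := by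
      refine c7.norm.inv₀ ?_
      simp only [v7]
      simp
    refine this.eventually_lt_const ?_
    simp only [v7]
    simp
    exact hη
  filter_upwards [e1, e2, e3, e5, e6, e7] with p q1 q2 q3 q5 q6 q7
  exact ⟨q1, q2, by linarith, q5, q6.le, q7.le⟩

lemma aux_close_deriv {ψ1 η β : ℝ} (hψ : 0 < ψ1) (hψ' : ψ1 < Real.pi) (hβ : 0 < β)
    (hβ1 : β ≤ 1) {u : ℂ} (hu : ‖u‖ < 1) (hP : aux_close_P ψ1 η β u) :
    ‖deriv (aux_close_h ψ1 β) (aux_close_k ψ1 β u)‖ ≤ 1 + η := by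
  obtain ⟨h1, h2⟩ := aux_close_hk hψ hψ' hβ hβ1 hu hP.c
  have hk := aux_close_hasDeriv_k hP.a hP.b hP.d
  have hh := (aux_close_diff_h hψ hψ' hβ hβ1 h1).hasDerivAt
  have hcomp := hh.comp u hk
  have hev : (aux_close_h ψ1 β ∘ aux_close_k ψ1 β) =ᶠ[𝓝 u] id := by
    have e1 : ∀ᶠ v in 𝓝 u, ‖v‖ < 1 := (continuous_norm.tendsto u).eventually_lt_const hu
    have c1 : ContinuousAt (fun v => (Mo (β * ψ1) v).arg) u :=
      ContinuousAt.comp (f := fun v => Mo (β * ψ1) v) (g := Complex.arg)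
        (Complex.continuousAt_arg hP.b) (aux_close_hasDeriv hP.a).continuousAt
    have e2 : ∀ᶠ v in 𝓝 u, (Mo (β * ψ1) v).arg < β * Real.pi := c1.eventually_lt_const hP.c
    filter_upwards [e1, e2] with v q1 q2
    exact (aux_close_hk hψ hψ' hβ hβ1 q1 q2).2
  have hid : HasDerivAt (aux_close_h ψ1 β ∘ aux_close_k ψ1 β) 1 u :=
    (hasDerivAt_id u).congr_of_eventuallyEq hev
  have hprod := hcomp.unique hid
  have hn := congrArg norm hprod
  rw [norm_mul, norm_one] at hn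
  have : ‖deriv (aux_close_h ψ1 β) (aux_close_k ψ1 β u)‖ = ‖aux_close_dk ψ1 β u‖⁻¹ :=
    eq_inv_of_mul_eq_one_left hn
  rw [this]
  exact hP.f

/-- TARGET -/
theorem close (φ ψ : ℝ) (K : Set ℂ) (η : ℝ) (h0 : 0 < φ) (h1 : φ < ψ) (h2 : ψ < Real.pi / 2)
    (hK : IsCompact K) (hK1 : K ⊆ ball 0 1) (hη : 0 < η) :
    ∃ h k : ℂ → ℂ, DifferentiableOn ℂ h (ball 0 1) ∧ MapsTo h (ball 0 1) (ball 0 1) ∧ h 0 = 0 ∧
      (∀ z ∈ ball (0 : ℂ) 1, k (h z) = z) ∧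
      (∃ c > 0, ∀ z ∈ ball (0 : ℂ) 1, Real.cos φ - c ≤ (h z).re → ‖h z‖ ≤ 1 - c) ∧
      (∀ u ∈ ball (0 : ℂ) 1, ψ ≤ |u.arg| → k u ∈ ball (0 : ℂ) 1 ∧ h (k u) = u ∧
        ‖deriv h (k u)‖ ≤ 1 + η) ∧
      (∀ z ∈ K, k z ∈ ball (0 : ℂ) 1 ∧ h (k z) = z ∧ ‖k z - z‖ ≤ η) := by
  have hpi := Real.pi_pos
  set ψ1 : ℝ := (φ + ψ) / 2 with hψ1
  have hφψ1 : φ < ψ1 := by rw [hψ1]; linarith
  have hψ1ψ : ψ1 < ψ := by rw [hψ1]; linarith
  have hψ : 0 < ψ1 := h0.trans hφψ1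
  have hψ2 : ψ1 < Real.pi / 2 := hψ1ψ.trans h2
  have hψ' : ψ1 < Real.pi := by linarith
  -- the compact set
  set Y : Set ℂ := {u : ℂ | ‖u‖ ≤ 1 ∧ u.re ≤ ‖u‖ * Real.cos ψ} with hY
  have hYc : IsCompact Y := by
    refine (isCompact_closedBall (0 : ℂ) 1).of_isClosed_subset ?_ ?_
    · refine IsClosed.and ?_ ?_
      · exact isClosed_le continuous_norm continuous_const
      · exact isClosed_le Complex.continuous_re (continuous_norm.mul continuous_const)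
    · intro u hu
      rw [mem_closedBall_zero_iff]
      exact hu.1
  have hcos : Real.cos ψ < Real.cos ψ1 :=
    Real.cos_lt_cos_of_nonneg_of_le_pi hψ.le (by linarith) hψ1ψ
  have hQ : ∀ u ∈ K ∪ Y, 1 - Complex.exp (ψ1 * Complex.I) * u ≠ 0 ∧ Mo ψ1 u ∈ slitPlane := by
    intro u hu
    by_cases hlt : ‖u‖ < 1
    · exact ⟨aux_close_ne hlt, Complex.mem_slitPlane_iff.2 (Or.inr (aux_close_up hψ hψ' hlt).ne')⟩
    · have huY : u ∈ Y := by
        rcases hu with hu | hu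
        · exact absurd (mem_ball_zero_iff.1 (hK1 hu)) hlt
        · exact hu
      have hun : ‖u‖ = 1 := le_antisymm huY.1 (not_lt.1 hlt)
      have hre : u.re ≤ Real.cos ψ := by
        have := huY.2
        rwa [hun, one_mul] at this
      have hne : 1 - Complex.exp (ψ1 * Complex.I) * u ≠ 0 := by
        intro h
        have h3 : Complex.exp (ψ1 * Complex.I) * u = 1 := (sub_eq_zero.1 h).symm
        have h4 : u = Complex.exp ((-ψ1 : ℝ) * Complex.I) := by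
          have h5 : Complex.exp ((-ψ1 : ℝ) * Complex.I) * Complex.exp (ψ1 * Complex.I) = 1 := by
            rw [← Complex.exp_add]
            simp
          calc u = (Complex.exp ((-ψ1 : ℝ) * Complex.I) * Complex.exp (ψ1 * Complex.I)) * u := by
                rw [h5, one_mul]
            _ = Complex.exp ((-ψ1 : ℝ) * Complex.I) * (Complex.exp (ψ1 * Complex.I) * u) := by ring
            _ = _ := by rw [h3, mul_one]
        have h5 : u.re = Real.cos ψ1 := by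
          rw [h4, Complex.exp_ofReal_mul_I_re, Real.cos_neg]
        linarith
      refine ⟨hne, Complex.mem_slitPlane_iff.2 (Or.inl ?_)⟩
      rw [aux_close_re, hun]
      refine div_pos ?_ (Complex.normSq_pos.2 hne)
      linarith
  have hev : ∀ᶠ β in 𝓝 (1:ℝ), ∀ v ∈ K ∪ Y, aux_close_P ψ1 η β v :=
    (hK.union hYc).eventually_forall_of_forall_eventually fun u hu =>
      aux_close_near hψ hψ' hη (hQ u hu).1 (hQ u hu).2
  have hev2 : ∀ᶠ β in 𝓝 (1:ℝ), φ < β * ψ1 := by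
    have : ContinuousAt (fun β : ℝ => β * ψ1) 1 := by fun_prop
    exact this.eventually_const_lt (by simpa using hφψ1)
  have hev3 : ∀ᶠ β in 𝓝 (1:ℝ), (0:ℝ) < β := eventually_gt_nhds one_pos
  have hev4 : ∀ᶠ β in 𝓝[<] (1:ℝ), β < 1 := self_mem_nhdsWithin
  obtain ⟨β, ⟨⟨hP, hφβ⟩, hβ⟩, hβ1⟩ := (((hev.and hev2).and hev3).filter_mono
    nhdsWithin_le_nhds |>.and hev4).exists
  have hb0 : 0 < β * ψ1 := mul_pos hβ hψ
  have hb1 : β * ψ1 < Real.pi := by nlinarith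
  refine ⟨aux_close_h ψ1 β, aux_close_k ψ1 β, ?_, ?_, aux_close_h0 hψ hψ', ?_, ?_, ?_, ?_⟩
  · intro z hz
    rw [mem_ball_zero_iff] at hz
    exact (aux_close_diff_h hψ hψ' hβ hβ1.le hz).differentiableWithinAt
  · intro z hz
    rw [mem_ball_zero_iff] at hz ⊢
    exact aux_close_disc hb0 hb1 (aux_close_pow_up hψ hψ' hβ hβ1.le hz).2.2.2
  · intro z hz
    rw [mem_ball_zero_iff] at hz
    exact aux_close_kh hψ hψ' hβ hβ1.le hz
  · exact aux_close_dist h0 hφβ hψ hψ2 hβ hβ1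
  · intro u hu harg
    rw [mem_ball_zero_iff] at hu
    have huY : u ∈ K ∪ Y := by
      right
      refine ⟨hu.le, ?_⟩
      rw [← Complex.norm_mul_cos_arg u, ← Real.cos_abs u.arg]
      refine mul_le_mul_of_nonneg_left ?_ (norm_nonneg _)
      exact Real.cos_le_cos_of_nonneg_of_le_pi (by linarith) (Complex.abs_arg_le_pi u) harg
    have hPu := hP u huY
    obtain ⟨h3, h4⟩ := aux_close_hk hψ hψ' hβ hβ1.le hu hPu.c
    exact ⟨mem_ball_zero_iff.2 h3, h4, aux_close_deriv hψ hψ' hβ hβ1.le hu hPu⟩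
  · intro u huK
    have hu := mem_ball_zero_iff.1 (hK1 huK)
    have hPu := hP u (Or.inl huK)
    obtain ⟨h3, h4⟩ := aux_close_hk hψ hψ' hβ hβ1.le hu hPu.c
    exact ⟨mem_ball_zero_iff.2 h3, h4, hPu.e⟩

theorem t_close : S_close := fun φ ψ K η h0 h1 h2 hK hK1 hη => close φ ψ K η h0 h1 h2 hK hK1 hη

end HW714
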