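import Pool.Agent.Helper714_HW.Spec

set_option autoImplicit false
open Set Metric MeasureTheory Complex Filter Topology
open scoped NNReal ENNReal

namespace HW714





lemma aux_gS_sinh (w : ℂ) : ‖Complex.sinh w‖ ^ 2 = Real.sinh w.re ^ 2 + Real.sin w.im ^ 2 := by
  rw [← Complex.normSq_eq_norm_sq]
  conv_lhs => rw [← Complex.re_add_im w]
  rw [Complex.sinh_add, Complex.sinh_mul_I, Complex.cosh_mul_I, ← Complex.ofReal_sinh,
    ← Complex.ofReal_cosh, ← Complex.ofReal_sin, ← Complex.ofReal_cos]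
  have : (↑(Real.sinh w.re) * ↑(Real.cos w.im) + ↑(Real.cosh w.re) * (↑(Real.sin w.im) * I) : ℂ)
      = ((Real.sinh w.re * Real.cos w.im : ℝ) : ℂ) + ((Real.cosh w.re * Real.sin w.im : ℝ) : ℂ) * I := by
    push_cast; ring
  rw [this, Complex.normSq_add_mul_I]
  have h1 := Real.cosh_sq w.re
  have h2 := Real.sin_sq_add_cos_sq w.im
  have h3 : Real.cos w.im ^ 2 = 1 - Real.sin w.im ^ 2 := by linarith
  rw [mul_pow, mul_pow, h1, h3]; ring

lemma aux_gS_cosh (w : ℂ) : ‖Complex.cosh w‖ ^ 2 = Real.sinh w.re ^ 2 + Real.cos w.im ^ 2 := by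
  rw [← Complex.normSq_eq_norm_sq]
  conv_lhs => rw [← Complex.re_add_im w]
  rw [Complex.cosh_add, Complex.sinh_mul_I, Complex.cosh_mul_I, ← Complex.ofReal_sinh,
    ← Complex.ofReal_cosh, ← Complex.ofReal_sin, ← Complex.ofReal_cos]
  have : (↑(Real.cosh w.re) * ↑(Real.cos w.im) + ↑(Real.sinh w.re) * (↑(Real.sin w.im) * I) : ℂ)
      = ((Real.cosh w.re * Real.cos w.im : ℝ) : ℂ) + ((Real.sinh w.re * Real.sin w.im : ℝ) : ℂ) * I := by
    push_cast; ring
  rw [this, Complex.normSq_add_mul_I]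
  have h1 := Real.cosh_sq w.re
  have h2 := Real.sin_sq_add_cos_sq w.im
  have h3 : Real.cos w.im ^ 2 = 1 - Real.sin w.im ^ 2 := by linarith
  rw [mul_pow, mul_pow, h1, h3]; ring

lemma aux_gS_tanh_le (w : ℂ) (hw : |w.im| < Real.pi / 4) : ‖Complex.tanh w‖ ≤ 1 := by
  rw [Complex.tanh_eq_sinh_div_cosh, norm_div]
  apply div_le_one_of_le₀ _ (norm_nonneg _)
  apply (sq_le_sq₀ (norm_nonneg _) (norm_nonneg _)).1
  rw [aux_gS_sinh, aux_gS_cosh]
  have h1 : 0 < Real.cos (2 * w.im) := by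
    apply Real.cos_pos_of_mem_Ioo
    rw [abs_lt] at hw
    constructor <;> linarith [hw.1, hw.2]
  rw [Real.cos_two_mul] at h1
  have h2 := Real.sin_sq_add_cos_sq w.im
  nlinarith

lemma aux_gS_le_tanh (w : ℂ) (hw : |w.im| < Real.pi / 4) : |Real.tanh w.re| ≤ ‖Complex.tanh w‖ := by
  have hc : 0 < Real.cosh w.re := Real.cosh_pos _
  have hcos : 0 < Real.cos w.im := by
    apply Real.cos_pos_of_mem_Ioo
    rw [abs_lt] at hw
    have := Real.pi_pos
    constructor <;> linarith [hw.1, hw.2]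
  have hcc : 0 < ‖Complex.cosh w‖ := by
    have := aux_gS_cosh w
    have h2 : 0 < ‖Complex.cosh w‖ ^ 2 := by rw [this]; positivity
    rcases (norm_nonneg (Complex.cosh w)).lt_or_eq with h | h
    · exact h
    · rw [← h] at h2; norm_num at h2
  rw [Complex.tanh_eq_sinh_div_cosh, norm_div, Real.tanh_eq_sinh_div_cosh, abs_div, abs_of_pos hc,
    div_le_div_iff₀ hc hcc]
  apply (sq_le_sq₀ (by positivity) (by positivity)).1
  rw [mul_pow, mul_pow, aux_gS_sinh, aux_gS_cosh, sq_abs]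
  have h1 := Real.cosh_sq w.re
  have h2 := Real.sin_sq_add_cos_sq w.im
  have h3 : Real.cos w.im ^ 2 = 1 - Real.sin w.im ^ 2 := by linarith
  rw [h1, h3]
  nlinarith [sq_nonneg (Real.sin w.im), sq_nonneg (Real.sinh w.re), mul_nonneg (sq_nonneg (Real.sin w.im)) (sq_nonneg (Real.sinh w.re))]

/-- the terms of the series -/
noncomputable def aux_gS_F (c : ℝ) (k : ℕ) (t : ℝ) : ℝ :=
  2 * (1 / (2 * k + 1)) * Real.exp (-(2 * k + 1) * |t - c|)

lemma aux_gS_hasSum (c t : ℝ) (ht : t ≠ c) :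
    HasSum (fun k => aux_gS_F c k t) (-Real.log |Real.tanh ((c - t) / 2)|) := by
  have hs : 0 < |t - c| := abs_pos.2 (sub_ne_zero.2 ht)
  have hq : Real.exp (-|t - c|) < 1 := by
    rw [Real.exp_lt_one_iff]; linarith
  have hq0 : 0 < Real.exp (-|t - c|) := Real.exp_pos _
  have := Real.hasSum_log_sub_log_of_abs_lt_one (x := Real.exp (-|t - c|)) (by rwa [abs_of_pos hq0])
  convert this using 1
  · ext k
    unfold aux_gS_F
    rw [← Real.exp_nat_mul]
    push_cast
    congr 2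
    ring
  · rw [← Real.log_div (by positivity) (by linarith), ← Real.log_inv]
    congr 1
    have e1 : |Real.tanh ((c - t) / 2)| = Real.tanh (|t - c| / 2) := by
      have e0 : |t - c| / 2 = |(c - t) / 2| := by rw [abs_div, abs_two, abs_sub_comm]
      rw [e0]
      rcases abs_cases ((c - t) / 2) with ⟨h1, h2⟩ | ⟨h1, h2⟩
      · rw [h1, abs_of_nonneg]
        rw [Real.tanh_eq_sinh_div_cosh]
        exact div_nonneg (Real.sinh_nonneg_iff.2 h2) (Real.cosh_pos _).le
      · rw [h1, Real.tanh_neg, abs_of_nonpos]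
        rw [Real.tanh_eq_sinh_div_cosh]
        exact div_nonpos_of_nonpos_of_nonneg (Real.sinh_nonpos_iff.2 h2.le) (Real.cosh_pos _).le
    rw [e1, Real.tanh_eq_sinh_div_cosh, Real.sinh_eq, Real.cosh_eq]
    have e2 : Real.exp (-|t - c|) = Real.exp (-(|t - c| / 2)) / Real.exp (|t - c| / 2) := by
      rw [← Real.exp_sub]; ring_nf
    rw [e2, inv_div]
    have h3 : Real.exp (-(|t - c| / 2)) < Real.exp (|t - c| / 2) := by
      apply Real.exp_lt_exp.2; linarith
    have h4 : 0 < Real.exp (|t - c| / 2) := Real.exp_pos _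
    have h5 : Real.exp (|t - c| / 2) - Real.exp (-(|t - c| / 2)) ≠ 0 := by linarith
    field_simp

lemma aux_gS_F_nonneg (c : ℝ) (k : ℕ) (t : ℝ) : 0 ≤ aux_gS_F c k t := by
  unfold aux_gS_F; positivity

lemma aux_gS_F_int (c : ℝ) (k : ℕ) : Integrable (aux_gS_F c k) ∧
    ∫ t, aux_gS_F c k t = 4 * (1 / (2 * (k : ℝ) + 1) ^ 2) := by
  have hval : ∫ t, aux_gS_F c k t = 4 * (1 / (2 * (k : ℝ) + 1) ^ 2) := by
    unfold aux_gS_F
    rw [integral_const_mul]
    rw [integral_sub_right_eq_self (fun t => Real.exp (-(2 * (k : ℝ) + 1) * |t|)) c]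
    rw [integral_comp_abs (f := fun t => Real.exp (-(2 * (k : ℝ) + 1) * t))]
    rw [integral_exp_mul_Ioi (by have : (0:ℝ) ≤ k := Nat.cast_nonneg k
                                 linarith)]
    have hk : (0:ℝ) < 2 * (k : ℝ) + 1 := by positivity
    rw [mul_zero, Real.exp_zero, neg_div_neg_eq]
    field_simp
    norm_num
  refine ⟨?_, hval⟩
  by_contra h
  rw [integral_undef h] at hval
  have : (0:ℝ) < 4 * (1 / (2 * (k : ℝ) + 1) ^ 2) := by positivity
  linarith

lemma aux_gS_even : HasSum (fun k : ℕ => (1 : ℝ) / ((2 * k : ℕ) : ℝ) ^ 2) (Real.pi ^ 2 / 24) := by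
  have h1 := hasSum_zeta_two.mul_left (1/4)
  have e1 : (fun k : ℕ => (1 : ℝ) / ((2 * k : ℕ) : ℝ) ^ 2) = fun k : ℕ => 1 / 4 * (1 / (k : ℝ) ^ 2) := by
    funext k
    push_cast
    rw [mul_pow, one_div, one_div, one_div, mul_inv]
    norm_num
  rw [e1]
  have e2 : Real.pi ^ 2 / 24 = 1 / 4 * (Real.pi ^ 2 / 6) := by ring
  rw [e2]
  exact h1

lemma aux_gS_odds : Summable (fun k : ℕ => (1 : ℝ) / ((2 * k + 1 : ℕ) : ℝ) ^ 2) := by
  have := hasSum_zeta_two.summable.comp_injective (i := fun k : ℕ => 2 * k + 1) (fun a b hab => by simpa using hab)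
  simpa [Function.comp_def] using this

lemma aux_gS_odd0 : HasSum (fun k : ℕ => (1 : ℝ) / ((2 * k + 1 : ℕ) : ℝ) ^ 2) (Real.pi ^ 2 / 8) := by
  have h := HasSum.even_add_odd (f := fun n : ℕ => (1 : ℝ) / (n : ℝ) ^ 2) aux_gS_even aux_gS_odds.hasSum
  have h2 := h.unique hasSum_zeta_two
  have h4 := aux_gS_odds.hasSum
  have h3 : ∑' k : ℕ, (1 : ℝ) / ((2 * k + 1 : ℕ) : ℝ) ^ 2 = Real.pi ^ 2 / 8 := by linarith
  rw [h3] at h4
  exact h4

lemma aux_gS_odd : HasSum (fun k : ℕ => 4 * (1 / (2 * (k : ℝ) + 1) ^ 2)) (Real.pi ^ 2 / 2) := by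
  have h4 := aux_gS_odd0.mul_left 4
  have e1 : (fun k : ℕ => 4 * (1 / (2 * (k : ℝ) + 1) ^ 2)) =
      fun k : ℕ => 4 * ((1 : ℝ) / ((2 * k + 1 : ℕ) : ℝ) ^ 2) := by
    funext k; push_cast; rfl
  rw [e1]
  have e2 : Real.pi ^ 2 / 2 = 4 * (Real.pi ^ 2 / 8) := by ring
  rw [e2]
  exact h4

lemma aux_gS_B (c : ℝ) : Integrable (fun t : ℝ => -Real.log |Real.tanh ((c - t) / 2)|) ∧
    ∫ t : ℝ, -Real.log |Real.tanh ((c - t) / 2)| = Real.pi ^ 2 / 2 := by
  have hae : ∀ᵐ t : ℝ, ∑' k, aux_gS_F c k t = -Real.log |Real.tanh ((c - t) / 2)| := by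
    have : ∀ᵐ t : ℝ, t ≠ c := by
      rw [ae_iff]; simp
    filter_upwards [this] with t ht
    exact (aux_gS_hasSum c t ht).tsum_eq
  have hsum : Summable fun k => ∫ t, ‖aux_gS_F c k t‖ := by
    have : (fun k => ∫ t, ‖aux_gS_F c k t‖) = fun k : ℕ => 4 * (1 / (2 * (k : ℝ) + 1) ^ 2) := by
      ext k
      rw [← (aux_gS_F_int c k).2]
      congr 1
      ext t
      rw [Real.norm_of_nonneg (aux_gS_F_nonneg c k t)]
    rw [this]
    exact aux_gS_odd.summable
  have h1 := hasSum_integral_of_summable_integral_norm (fun k => (aux_gS_F_int c k).1) hsum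
  have h2 : ∫ t, ∑' k, aux_gS_F c k t = Real.pi ^ 2 / 2 := by
    refine h1.unique ?_
    have e1 : (fun k => ∫ t, aux_gS_F c k t) = fun k : ℕ => 4 * (1 / (2 * (k : ℝ) + 1) ^ 2) := by
      funext k
      exact (aux_gS_F_int c k).2
    rw [e1]
    exact aux_gS_odd
  have h3 : ∫ t : ℝ, -Real.log |Real.tanh ((c - t) / 2)| = Real.pi ^ 2 / 2 := by
    rw [← h2]
    apply integral_congr_ae
    filter_upwards [hae] with t ht
    exact ht.symm
  refine ⟨?_, h3⟩
  by_contra h
  rw [integral_undef h] at h3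
  have : (0:ℝ) < Real.pi ^ 2 / 2 := by positivity
  linarith

/-- TARGET -/
theorem gS_props (z : ℂ) (hz : z ∈ St) : (∀ t : ℝ, 0 ≤ gS z t) ∧ ∀ R : ℝ, 0 ≤ R →
    IntervalIntegrable (fun t => gS z t) volume (-R) R ∧
      ∫ t in (-R)..R, gS z t ≤ Real.pi ^ 2 / 2 := by
  have hz' : |z.im| < Real.pi / 2 := hz
  have him : ∀ t : ℝ, |((z - t) / 2).im| < Real.pi / 4 := by
    intro t
    have : ((z - t) / 2).im = z.im / 2 := by simp
    rw [this, abs_div, abs_two]
    linarith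
  have hre : ∀ t : ℝ, ((z - t) / 2).re = (z.re - t) / 2 := by
    intro t
    simp
  have h0 : ∀ t : ℝ, 0 ≤ gS z t := by
    intro t
    unfold gS
    have := Real.log_nonpos (norm_nonneg _) (aux_gS_tanh_le _ (him t))
    linarith
  have hle : ∀ t : ℝ, t ≠ z.re → gS z t ≤ -Real.log |Real.tanh ((z.re - t) / 2)| := by
    intro t ht
    unfold gS
    have h1 := aux_gS_le_tanh _ (him t)
    rw [hre] at h1
    have h2 : 0 < |Real.tanh ((z.re - t) / 2)| := by
      rw [abs_pos]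
      intro h
      rw [Real.tanh_eq_sinh_div_cosh, div_eq_zero_iff] at h
      rcases h with h | h
      · rw [Real.sinh_eq_zero] at h
        apply ht
        linarith
      · exact (Real.cosh_pos _).ne' h
    have := Real.log_le_log h2 h1
    linarith
  obtain ⟨hB, hBi⟩ := aux_gS_B z.re
  have hae : ∀ᵐ t : ℝ, ‖gS z t‖ ≤ -Real.log |Real.tanh ((z.re - t) / 2)| := by
    have : ∀ᵐ t : ℝ, t ≠ z.re := by
      rw [ae_iff]; simp
    filter_upwards [this] with t ht
    rw [Real.norm_of_nonneg (h0 t)]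
    exact hle t ht
  have hmeas : Measurable (fun t : ℝ => gS z t) := by
    unfold gS
    have : Measurable Complex.tanh := by
      have : Complex.tanh = fun w => Complex.sinh w / Complex.cosh w := by
        ext w; exact Complex.tanh_eq_sinh_div_cosh w
      rw [this]
      exact Complex.continuous_sinh.measurable.div Complex.continuous_cosh.measurable
    fun_prop
  have hint : Integrable (fun t => gS z t) := hB.mono' hmeas.aestronglyMeasurable hae
  refine ⟨h0, fun R hR => ⟨hint.intervalIntegrable, ?_⟩⟩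
  rw [intervalIntegral.integral_of_le (by linarith)]
  calc ∫ t in Ioc (-R) R, gS z t ≤ ∫ t, gS z t :=
        setIntegral_le_integral hint (Filter.Eventually.of_forall h0)
    _ ≤ ∫ t : ℝ, -Real.log |Real.tanh ((z.re - t) / 2)| := by
        apply integral_mono_ae hint hB
        filter_upwards [hae] with t ht
        exact le_trans (le_abs_self _) ht
    _ = Real.pi ^ 2 / 2 := hBi

theorem t_gS : S_gS := fun z hz => gS_props z hz

end HW714
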