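import Pool.Agent.Helper714_HW.Spec
/- JOB regular part of the pulled back Green function (owner helper714, MP_0a9e96_an, Hayman-Wu constant).
Replace the sorry of the TARGET theorem. Keep the statement, the definitions and the namespace HW714 unchanged; add auxiliary lemmas (please prefix their names with aux_hreg_ ).
No axioms, no native_decide. Mathlib only (or starting-tree modules: then say which).

Proof in words:
St is open and convex. T(x) := dslope (fun x => tanh(x/2)) 0 x : tanh(x/2) is holomorphic for |Im x| < pi (cosh(x/2) <> 0), vanishes there only at x=0, derivative 1/2 at 0,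
so T is holomorphic and has no zeros on |Im x| < pi/2. dslope Φ t is holomorphic on St (Complex.differentiableOn_dslope) and has no zeros there, because Φ is injective on St
(at z = t it is deriv Φ t, nonzero for an injective holomorphic function: search Mathlib or the starting tree for 'deriv ne zero of injOn').
1 - conj(Φ t) Φ z <> 0 because |Φ t|, |Φ z| < 1.
(1) joint continuity on St x univ: logs of norms of nonvanishing jointly continuous functions. (z,t) -> dslope Φ t z is continuous on St x R: off the diagonal clear; at a diagonal point (a,a) use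
 HasStrictDerivAt Φ (deriv Φ a) a (analytic functions): Φ z - Φ t - Φ'(a)(z-t) = o(|z - t|) as (z,t) -> (a,a), and the value on the diagonal itself is deriv Φ t -> deriv Φ a.
(2) for fixed t the function hreg Φ z t is log|F(z)|, F(z) = (1 - conj(Φ t) Φ z) * T(z - t) / dslope Φ t z, holomorphic without zeros on St; mean value property of log|F| on a closed disc:
 Mathlib: AnalyticOnNhd.circleAverage_log_norm_of_ne_zero (Mathlib/Analysis/Complex/JensenFormula.lean or MeanValue/Harmonic files).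
(3) for z <> t: Φ z - Φ t = (z-t) * dslope Φ t z and tanh((z-t)/2) = (z-t) * T(z-t); take logs of norms, everything is nonzero.
-/

set_option autoImplicit false
open Set Metric MeasureTheory Complex Filter Topology
open scoped NNReal ENNReal

namespace HW714











/-- An injective holomorphic function of one variable has nonvanishing derivative. -/
theorem aux_hreg_deriv_ne_zero_of_injOn {f : ℂ → ℂ} {U : Set ℂ} (hU : IsOpen U)
    (hf : DifferentiableOn ℂ f U) (hinj : InjOn f U) {a : ℂ} (ha : a ∈ U) : deriv f a ≠ 0 := by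
  intro hd0
  have hUa : U ∈ 𝓝 a := hU.mem_nhds ha
  have hfa : AnalyticAt ℂ f a := hf.analyticAt hUa
  set F : ℂ → ℂ := fun z => f z - f a with hF
  have hFa : AnalyticAt ℂ F a := hfa.sub analyticAt_const
  have hnt : analyticOrderAt F a ≠ ⊤ := by
    intro h
    rw [analyticOrderAt_eq_top] at h
    obtain ⟨r, hr, hb⟩ := Metric.eventually_nhds_iff_ball.1 (h.and hUa)
    have h1 : a + (r / 2 : ℝ) ∈ ball a r := by
      rw [mem_ball, dist_eq_norm, add_sub_cancel_left, Complex.norm_real, Real.norm_of_nonneg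
        (by linarith)]
      linarith
    have h2 := hb _ h1
    have h3 : f (a + (r / 2 : ℝ)) = f a := sub_eq_zero.1 h2.1
    have h4 := hinj h2.2 ha h3
    have h5 : ((r / 2 : ℝ) : ℂ) = 0 := by linear_combination h4
    have h6 : (r / 2 : ℝ) = 0 := by exact_mod_cast h5
    linarith
  obtain ⟨g, hg, hg0, hgF⟩ := (hFa.analyticOrderAt_ne_top).1 hnt
  set m : ℕ := analyticOrderNatAt F a with hm
  have hm0 : m ≠ 0 := by
    intro h0
    have h1 := hgF.self_of_nhds
    rw [h0] at h1
    simp [hF] at h1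
    exact hg0 h1.symm
  have hm1 : m ≠ 1 := by
    intro h1
    rw [h1] at hgF
    have h2 : HasDerivAt F (deriv f a) a := (hfa.differentiableAt.hasDerivAt).sub_const _
    have h3 : HasDerivAt (fun z => (z - a) ^ 1 • g z) (g a) a := by
      have h4 : HasDerivAt (fun z => (z - a)) 1 a := (hasDerivAt_id a).sub_const a
      have h5 := h4.fun_mul hg.differentiableAt.hasDerivAt
      simpa using h5
    have h6 := h2.congr_of_eventuallyEq (hgF.symm : _ =ᶠ[𝓝 a] F)
    have h7 := h6.unique h3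
    rw [hd0] at h7
    exact hg0 h7.symm
  have hm2 : 1 < m := by omega
  -- the local root
  set u : ℂ → ℂ := fun z => Complex.exp (Complex.log (g z / g a) / m) with hu
  have hmC : (m : ℂ) ≠ 0 := by exact_mod_cast hm0
  have hquot : AnalyticAt ℂ (fun z => g z / g a) a := hg.div analyticAt_const hg0
  have hslit : (fun z => g z / g a) a ∈ Complex.slitPlane := by
    simp only [div_self hg0]
    exact Complex.one_mem_slitPlane
  have hua : AnalyticAt ℂ u a := by
    apply AnalyticAt.cexp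
    exact (hquot.clog hslit).div analyticAt_const hmC
  have hu1 : u a = 1 := by simp [hu, div_self hg0]
  set h : ℂ → ℂ := fun z => (z - a) * u z with hh
  have hha : AnalyticAt ℂ h a := (analyticAt_id.sub analyticAt_const).mul hua
  have hh0 : h a = 0 := by simp [hh]
  have hder : HasStrictDerivAt h 1 a := by
    have h1 : HasStrictDerivAt h (deriv h a) a := hha.hasStrictDerivAt
    have h2 : HasDerivAt h 1 a := by
      have h4 : HasDerivAt (fun z => (z - a)) 1 a := (hasDerivAt_id a).sub_const a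
      have h5 := h4.fun_mul hua.differentiableAt.hasDerivAt
      rw [sub_self, zero_mul, add_zero, one_mul, hu1] at h5
      exact h5
    rwa [h2.deriv] at h1
  have hpow : ∀ᶠ z in 𝓝 a, F z = g a * h z ^ m := by
    have hgne : ∀ᶠ z in 𝓝 a, g z ≠ 0 := hg.continuousAt.eventually_ne hg0
    filter_upwards [hgF, hgne] with z hz1 hz2
    rw [hz1, hh, mul_pow, hu, ← Complex.exp_nat_mul]
    have h1 : (m : ℂ) * (Complex.log (g z / g a) / m) = Complex.log (g z / g a) := by
      field_simp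
    rw [h1, Complex.exp_log (div_ne_zero hz2 hg0), smul_eq_mul]
    field_simp
  have hmap := hder.map_nhds_eq one_ne_zero
  rw [hh0] at hmap
  have hV : h '' {z | z ∈ U ∧ F z = g a * h z ^ m} ∈ 𝓝 (0 : ℂ) := by
    rw [← hmap]
    exact image_mem_map (by filter_upwards [hUa, hpow] with z h1 h2 using ⟨h1, h2⟩)
  obtain ⟨ε, hε, hb⟩ := Metric.mem_nhds_iff.1 hV
  set ω : ℂ := Complex.exp (2 * Real.pi * Complex.I / m) with hω
  have hprim : IsPrimitiveRoot ω m := Complex.isPrimitiveRoot_exp m hm0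
  have hω1 : ω ≠ 1 := hprim.ne_one hm2
  have hωn : ‖ω‖ = 1 := hprim.norm'_eq_one hm0
  have hw : ‖((ε / 2 : ℝ) : ℂ)‖ < ε := by
    rw [Complex.norm_real, Real.norm_of_nonneg (by linarith)]
    linarith
  obtain ⟨z1, ⟨hz1U, hz1F⟩, hz1⟩ := hb (show ((ε / 2 : ℝ) : ℂ) ∈ ball (0 : ℂ) ε by
    rw [mem_ball_zero_iff]; exact hw)
  obtain ⟨z2, ⟨hz2U, hz2F⟩, hz2⟩ := hb (show ω * ((ε / 2 : ℝ) : ℂ) ∈ ball (0 : ℂ) ε by
    rw [mem_ball_zero_iff, norm_mul, hωn, one_mul]; exact hw)
  have hFe : F z1 = F z2 := by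
    rw [hz1F, hz2F, hz1, hz2, mul_pow, hprim.pow_eq_one, one_mul]
  have hfe : f z1 = f z2 := by simpa [hF] using hFe
  have hze := hinj hz1U hz2U hfe
  rw [hze, hz2] at hz1
  have hne : ((ε / 2 : ℝ) : ℂ) ≠ 0 := by
    exact_mod_cast (by positivity : (ε / 2 : ℝ) ≠ 0)
  apply hω1
  exact mul_right_cancel₀ hne (by rw [hz1, one_mul])


theorem aux_hreg_cosh_ne {w : ℂ} (h : |w.im| < Real.pi / 2) : Complex.cosh w ≠ 0 := by
  intro h0
  have h1 : (Complex.cosh w).re = Real.cosh w.re * Real.cos w.im := by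
    conv_lhs => rw [← Complex.re_add_im w]
    rw [Complex.cosh_add, Complex.cosh_mul_I, Complex.sinh_mul_I]
    simp [Complex.cosh_ofReal_re, Complex.cos_ofReal_re, Complex.sinh_ofReal_re, Complex.sin_ofReal_re,
      Complex.cosh_ofReal_im, Complex.cos_ofReal_im, Complex.sinh_ofReal_im, Complex.sin_ofReal_im]
  have h2 : 0 < Real.cos w.im :=
    Real.cos_pos_of_mem_Ioo ⟨by linarith [(abs_lt.1 h).1], (abs_lt.1 h).2⟩
  have h3 := Real.cosh_pos w.re
  rw [h0] at h1
  simp only [Complex.zero_re] at h1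
  have := mul_pos h3 h2
  linarith

theorem aux_hreg_sinh_ne {w : ℂ} (h : |w.im| < Real.pi / 2) (hw : w ≠ 0) : Complex.sinh w ≠ 0 := by
  intro h0
  have h1 : (Complex.sinh w).re = Real.sinh w.re * Real.cos w.im := by
    conv_lhs => rw [← Complex.re_add_im w]
    rw [Complex.sinh_add, Complex.cosh_mul_I, Complex.sinh_mul_I]
    simp [Complex.cosh_ofReal_re, Complex.cos_ofReal_re, Complex.sinh_ofReal_re, Complex.sin_ofReal_re,
      Complex.cosh_ofReal_im, Complex.cos_ofReal_im, Complex.sinh_ofReal_im, Complex.sin_ofReal_im]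
  have h1' : (Complex.sinh w).im = Real.cosh w.re * Real.sin w.im := by
    conv_lhs => rw [← Complex.re_add_im w]
    rw [Complex.sinh_add, Complex.cosh_mul_I, Complex.sinh_mul_I]
    simp [Complex.cosh_ofReal_re, Complex.cos_ofReal_re, Complex.sinh_ofReal_re, Complex.sin_ofReal_re,
      Complex.cosh_ofReal_im, Complex.cos_ofReal_im, Complex.sinh_ofReal_im, Complex.sin_ofReal_im]
  have h2 : 0 < Real.cos w.im :=
    Real.cos_pos_of_mem_Ioo ⟨by linarith [(abs_lt.1 h).1], (abs_lt.1 h).2⟩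
  rw [h0] at h1 h1'
  simp only [Complex.zero_re, Complex.zero_im] at h1 h1'
  have h3 : Real.sinh w.re = 0 := by
    rcases mul_eq_zero.1 h1.symm with h | h
    · exact h
    · linarith
  have h4 : w.re = 0 := Real.sinh_eq_zero.1 h3
  have h5 : Real.sin w.im = 0 := by
    rcases mul_eq_zero.1 h1'.symm with h | h
    · linarith [Real.cosh_pos w.re]
    · exact h
  have h6 : w.im = 0 := by
    have hpi := Real.pi_pos
    have hh := abs_lt.1 h
    exact (Real.sin_eq_zero_iff_of_lt_of_lt (by linarith) (by linarith)).1 h5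
  exact hw (Complex.ext h4 h6)

theorem aux_hreg_im_half (z : ℂ) : (z / 2).im = z.im / 2 := by
  simp

theorem aux_hreg_isOpen_St : IsOpen St := by
  have : St = (fun z : ℂ => |z.im|) ⁻¹' Iio (Real.pi / 2) := rfl
  rw [this]
  exact isOpen_Iio.preimage (by fun_prop)

theorem aux_hreg_real_mem (t : ℝ) : (t : ℂ) ∈ St := by
  have := Real.pi_pos
  simp only [St, mem_ofPred_eq, Complex.ofReal_im, abs_zero]
  linarith

/-- the function `tanh(x/2)` -/
noncomputable def aux_hreg_f : ℂ → ℂ := fun x => Complex.tanh (x / 2)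

/-- the strip of width `2 pi` -/
def aux_hreg_S2 : Set ℂ := {z : ℂ | |z.im| < Real.pi}

theorem aux_hreg_isOpen_S2 : IsOpen aux_hreg_S2 := by
  have : aux_hreg_S2 = (fun z : ℂ => |z.im|) ⁻¹' Iio (Real.pi) := rfl
  rw [this]
  exact isOpen_Iio.preimage (by fun_prop)

theorem aux_hreg_zero_mem : (0 : ℂ) ∈ aux_hreg_S2 := by
  simp [aux_hreg_S2, Real.pi_pos]

theorem aux_hreg_hasDerivAt_f {x : ℂ} (hx : x ∈ aux_hreg_S2) :
    HasDerivAt aux_hreg_f ((Complex.cosh (x / 2) * (1 / 2) * Complex.cosh (x / 2)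
      - Complex.sinh (x / 2) * (Complex.sinh (x / 2) * (1 / 2))) / Complex.cosh (x / 2) ^ 2) x := by
  have hc : Complex.cosh (x / 2) ≠ 0 := by
    apply aux_hreg_cosh_ne
    rw [aux_hreg_im_half, abs_div, abs_of_pos (two_pos : (0 : ℝ) < 2)]
    have : |x.im| < Real.pi := hx
    linarith
  have h1 : HasDerivAt (fun x : ℂ => x / 2) (1 / 2) x := (hasDerivAt_id x).div_const 2
  have h2 := h1.csinh
  have h3 := h1.ccosh
  have h4 := h2.fun_div h3 hc
  have h5 : aux_hreg_f = fun x => Complex.sinh (x / 2) / Complex.cosh (x / 2) := by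
    funext x
    rw [aux_hreg_f, Complex.tanh_eq_sinh_div_cosh]
  rw [h5]
  exact h4

theorem aux_hreg_f_ne {x : ℂ} (hx : x ∈ aux_hreg_S2) (h0 : x ≠ 0) : aux_hreg_f x ≠ 0 := by
  have hx' : |(x / 2).im| < Real.pi / 2 := by
    rw [aux_hreg_im_half, abs_div, abs_of_pos (two_pos : (0 : ℝ) < 2)]
    have : |x.im| < Real.pi := hx
    linarith
  rw [aux_hreg_f, Complex.tanh_eq_sinh_div_cosh]
  exact div_ne_zero (aux_hreg_sinh_ne hx' (by simpa using h0)) (aux_hreg_cosh_ne hx')

theorem aux_hreg_f_zero : aux_hreg_f 0 = 0 := by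
  simp [aux_hreg_f]

theorem aux_hreg_diff_f : DifferentiableOn ℂ aux_hreg_f aux_hreg_S2 := fun _ hx =>
  (aux_hreg_hasDerivAt_f hx).differentiableAt.differentiableWithinAt

theorem aux_hreg_diff_T : DifferentiableOn ℂ (dslope aux_hreg_f 0) aux_hreg_S2 :=
  (Complex.differentiableOn_dslope (aux_hreg_isOpen_S2.mem_nhds aux_hreg_zero_mem)).2 aux_hreg_diff_f

theorem aux_hreg_T_ne {x : ℂ} (hx : x ∈ aux_hreg_S2) : dslope aux_hreg_f 0 x ≠ 0 := by
  by_cases h0 : x = 0
  · subst h0
    rw [dslope_same, (aux_hreg_hasDerivAt_f hx).deriv]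
    simp
  · rw [dslope_of_ne _ h0, slope_def_field]
    rw [aux_hreg_f_zero, sub_zero, sub_zero]
    exact div_ne_zero (aux_hreg_f_ne hx h0) h0

theorem aux_hreg_sub_mem {z : ℂ} (hz : z ∈ St) (t : ℝ) : z - t ∈ aux_hreg_S2 := by
  have h : |z.im| < Real.pi / 2 := hz
  have := Real.pi_pos
  simp only [aux_hreg_S2, mem_ofPred_eq, Complex.sub_im, Complex.ofReal_im, sub_zero]
  linarith

theorem aux_hreg_one_sub_ne {a b : ℂ} (ha : ‖a‖ < 1) (hb : ‖b‖ < 1) :
    1 - (starRingEnd ℂ) a * b ≠ 0 := by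
  intro h
  have h1 : (starRingEnd ℂ) a * b = 1 := (sub_eq_zero.1 h).symm
  have h2 : ‖(starRingEnd ℂ) a * b‖ = 1 := by rw [h1, norm_one]
  rw [norm_mul, RCLike.norm_conj] at h2
  have h3 : ‖a‖ * ‖b‖ < 1 := by
    nlinarith [norm_nonneg a, norm_nonneg b]
  linarith

section Phi

variable {Φ : ℂ → ℂ} (hd : DifferentiableOn ℂ Φ St) (hi : InjOn Φ St)
    (hm : MapsTo Φ St (ball 0 1))

include hd in
theorem aux_hreg_diff_dslope (t : ℝ) : DifferentiableOn ℂ (dslope Φ (t : ℂ)) St :=
  (Complex.differentiableOn_dslope (aux_hreg_isOpen_St.mem_nhds (aux_hreg_real_mem t))).2 hd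

include hd hi in
theorem aux_hreg_dslope_ne {t : ℂ} (ht : t ∈ St) {z : ℂ} (hz : z ∈ St) : dslope Φ t z ≠ 0 := by
  by_cases h : z = t
  · subst h
    rw [dslope_same]
    exact aux_hreg_deriv_ne_zero_of_injOn aux_hreg_isOpen_St hd hi hz
  · rw [dslope_of_ne _ h, slope_def_field]
    apply div_ne_zero
    · intro h1
      exact h (hi hz ht (sub_eq_zero.1 h1))
    · exact sub_ne_zero.2 h

include hd in
theorem aux_hreg_cont_dslope {a b : ℂ} (ha : a ∈ St) (hb : b ∈ St) :
    ContinuousAt (fun p : ℂ × ℂ => dslope Φ p.2 p.1) (a, b) := by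
  by_cases h : a = b
  · subst h
    have hana : AnalyticAt ℂ Φ a := hd.analyticAt (aux_hreg_isOpen_St.mem_nhds ha)
    have hs : HasStrictDerivAt Φ (deriv Φ a) a := hana.hasStrictDerivAt
    have hs' := hs.hasStrictFDerivAt.isLittleO
    have hcd : ContinuousAt (deriv Φ) a := hana.deriv.continuousAt
    rw [Metric.continuousAt_iff']
    intro ε hε
    have h1 := hs'.def (half_pos hε)
    have h2 : ∀ᶠ p : ℂ × ℂ in 𝓝 (a, a), dist (deriv Φ p.2) (deriv Φ a) < ε :=
      (Metric.continuousAt_iff'.1 (ContinuousAt.comp (x := ((a, a) : ℂ × ℂ)) (g := deriv Φ) (f := Prod.snd)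
        hcd continuousAt_snd)) ε hε
    filter_upwards [h1, h2] with p hp1 hp2
    simp only [dslope_same]
    by_cases hpp : p.1 = p.2
    · rw [hpp, dslope_same]
      exact hp2
    · rw [dslope_of_ne _ hpp, slope_def_field, dist_eq_norm]
      have hne : p.1 - p.2 ≠ 0 := sub_ne_zero.2 hpp
      have hnp : 0 < ‖p.1 - p.2‖ := norm_pos_iff.2 hne
      have e1 : (Φ p.1 - Φ p.2) / (p.1 - p.2) - deriv Φ a
          = (Φ p.1 - Φ p.2 - (p.1 - p.2) * deriv Φ a) / (p.1 - p.2) := by
        field_simp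
      rw [e1, norm_div, div_lt_iff₀ hnp]
      have e2 : ‖Φ p.1 - Φ p.2 - (p.1 - p.2) * deriv Φ a‖ ≤ ε / 2 * ‖p.1 - p.2‖ := by
        simpa using hp1
      have : ε / 2 * ‖p.1 - p.2‖ < ε * ‖p.1 - p.2‖ := by
        apply mul_lt_mul_of_pos_right _ hnp
        linarith
      linarith
  · have hcont : ContinuousAt (fun p : ℂ × ℂ => (Φ p.1 - Φ p.2) / (p.1 - p.2)) (a, b) := by
      have h1 : ContinuousAt Φ a := (hd.differentiableAt (aux_hreg_isOpen_St.mem_nhds ha)).continuousAt
      have h2 : ContinuousAt Φ b := (hd.differentiableAt (aux_hreg_isOpen_St.mem_nhds hb)).continuousAt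
      have h3 : ContinuousAt (fun p : ℂ × ℂ => Φ p.1) (a, b) :=
        ContinuousAt.comp (x := ((a, b) : ℂ × ℂ)) (g := Φ) (f := Prod.fst) h1 continuousAt_fst
      have h4 : ContinuousAt (fun p : ℂ × ℂ => Φ p.2) (a, b) :=
        ContinuousAt.comp (x := ((a, b) : ℂ × ℂ)) (g := Φ) (f := Prod.snd) h2 continuousAt_snd
      exact (h3.sub h4).div (continuousAt_fst.sub continuousAt_snd) (sub_ne_zero.2 h)
    refine hcont.congr ?_
    have hev : ∀ᶠ p : ℂ × ℂ in 𝓝 (a, b), p.1 ≠ p.2 := by
      have : IsOpen {p : ℂ × ℂ | p.1 ≠ p.2} := isOpen_ne_fun continuous_fst continuous_snd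
      exact this.mem_nhds h
    filter_upwards [hev] with p hp
    rw [dslope_of_ne _ hp, slope_def_field]

end Phi

/-- TARGET -/
theorem hreg_props (Φ : ℂ → ℂ) (hd : DifferentiableOn ℂ Φ St) (hi : InjOn Φ St)
    (hm : MapsTo Φ St (ball 0 1)) :
    ContinuousOn (fun p : ℂ × ℝ => hreg Φ p.1 p.2) (St ×ˢ univ) ∧
    (∀ t : ℝ, MVon (fun z => hreg Φ z t) St) ∧
    (∀ t : ℝ, ∀ z ∈ St, z ≠ (t : ℂ) → gD (Φ z) (Φ t) = hreg Φ z t + gS z t) := by
  have hT : dslope (fun x : ℂ => Complex.tanh (x / 2)) 0 = dslope aux_hreg_f 0 := rfl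
  have hΦn : ∀ z ∈ St, ‖Φ z‖ < 1 := fun z hz => by
    have := hm hz
    rwa [mem_ball_zero_iff] at this
  refine ⟨?_, ?_, ?_⟩
  · rintro ⟨z, t⟩ ⟨hz, -⟩
    apply ContinuousAt.continuousWithinAt
    have hzS : z ∈ St := hz
    have htS : (t : ℂ) ∈ St := aux_hreg_real_mem t
    have hcz : ContinuousAt Φ z :=
      (hd.differentiableAt (aux_hreg_isOpen_St.mem_nhds hzS)).continuousAt
    have hct : ContinuousAt Φ (t : ℂ) :=
      (hd.differentiableAt (aux_hreg_isOpen_St.mem_nhds htS)).continuousAt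
    have hofReal : ContinuousAt (fun p : ℂ × ℝ => (p.2 : ℂ)) (z, t) :=
      (Complex.continuous_ofReal.comp continuous_snd).continuousAt
    have h1 : ContinuousAt (fun p : ℂ × ℝ => Φ p.1) (z, t) :=
      ContinuousAt.comp (x := ((z, t) : ℂ × ℝ)) (g := Φ) (f := Prod.fst) hcz continuousAt_fst
    have h2 : ContinuousAt (fun p : ℂ × ℝ => Φ (p.2 : ℂ)) (z, t) :=
      ContinuousAt.comp (x := ((z, t) : ℂ × ℝ)) (g := Φ) (f := fun p : ℂ × ℝ => (p.2 : ℂ)) hct hofReal
    have h3 : ContinuousAt (fun p : ℂ × ℝ => dslope Φ (p.2 : ℂ) p.1) (z, t) :=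
      ContinuousAt.comp (x := ((z, t) : ℂ × ℝ)) (g := fun p : ℂ × ℂ => dslope Φ p.2 p.1)
        (f := fun p : ℂ × ℝ => (p.1, (p.2 : ℂ))) (aux_hreg_cont_dslope hd hzS htS)
        (continuousAt_fst.prodMk hofReal)
    have h4 : ContinuousAt (fun p : ℂ × ℝ => dslope aux_hreg_f 0 (p.1 - p.2)) (z, t) := by
      have h5 : ContinuousAt (dslope aux_hreg_f 0) (z - t) :=
        (aux_hreg_diff_T.differentiableAt
          (aux_hreg_isOpen_S2.mem_nhds (aux_hreg_sub_mem hzS t))).continuousAt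
      exact ContinuousAt.comp (x := ((z, t) : ℂ × ℝ)) (g := dslope aux_hreg_f 0)
        (f := fun p : ℂ × ℝ => p.1 - (p.2 : ℂ)) h5 (continuousAt_fst.sub hofReal)
    have g1 : ContinuousAt (fun p : ℂ × ℝ => Real.log ‖1 - (starRingEnd ℂ) (Φ p.2) * Φ p.1‖) (z, t) := by
      apply ContinuousAt.log
      · apply ContinuousAt.norm
        apply ContinuousAt.sub continuousAt_const
        exact ((Complex.continuous_conj.continuousAt).comp h2).mul h1
      · exact norm_ne_zero_iff.2 (aux_hreg_one_sub_ne (hΦn _ htS) (hΦn _ hzS))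
    have g2 : ContinuousAt (fun p : ℂ × ℝ => Real.log ‖dslope Φ (p.2 : ℂ) p.1‖) (z, t) :=
      ContinuousAt.log h3.norm (norm_ne_zero_iff.2 (aux_hreg_dslope_ne hd hi htS hzS))
    have g3 : ContinuousAt (fun p : ℂ × ℝ => Real.log ‖dslope aux_hreg_f 0 (p.1 - p.2)‖) (z, t) :=
      ContinuousAt.log h4.norm (norm_ne_zero_iff.2 (aux_hreg_T_ne (aux_hreg_sub_mem hzS t)))
    exact (g1.sub g2).add g3
  · intro t z r hr hsub
    have htS : (t : ℂ) ∈ St := aux_hreg_real_mem t
    set F : ℂ → ℂ := fun w => (1 - (starRingEnd ℂ) (Φ t) * Φ w) * (dslope Φ (t : ℂ) w)⁻¹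
      * dslope aux_hreg_f 0 (w - t) with hF
    have hne1 : ∀ w ∈ St, (1 - (starRingEnd ℂ) (Φ t) * Φ w) ≠ 0 := fun w hw =>
      aux_hreg_one_sub_ne (hΦn _ htS) (hΦn _ hw)
    have hne2 : ∀ w ∈ St, dslope Φ (t : ℂ) w ≠ 0 := fun w hw => aux_hreg_dslope_ne hd hi htS hw
    have hne3 : ∀ w ∈ St, dslope aux_hreg_f 0 (w - t) ≠ 0 := fun w hw =>
      aux_hreg_T_ne (aux_hreg_sub_mem hw t)
    have hlog : ∀ w ∈ St, hreg Φ w t = Real.log ‖F w‖ := by
      intro w hw
      rw [hF]
      simp only [norm_mul, norm_inv]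
      rw [Real.log_mul, Real.log_mul, Real.log_inv, hreg, hT]
      · ring
      · exact norm_ne_zero_iff.2 (hne1 w hw)
      · exact inv_ne_zero (norm_ne_zero_iff.2 (hne2 w hw))
      · exact mul_ne_zero (norm_ne_zero_iff.2 (hne1 w hw))
          (inv_ne_zero (norm_ne_zero_iff.2 (hne2 w hw)))
      · exact norm_ne_zero_iff.2 (hne3 w hw)
    have hFd : DifferentiableOn ℂ F St := by
      have d1 : DifferentiableOn ℂ (fun w => 1 - (starRingEnd ℂ) (Φ t) * Φ w) St :=
        (differentiableOn_const _).sub (hd.const_mul _)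
      have d2 : DifferentiableOn ℂ (fun w => (dslope Φ (t : ℂ) w)⁻¹) St :=
        (aux_hreg_diff_dslope hd t).inv hne2
      have d3 : DifferentiableOn ℂ (fun w => dslope aux_hreg_f 0 (w - t)) St := by
        refine aux_hreg_diff_T.comp (g := dslope aux_hreg_f 0) (f := fun w : ℂ => w - t) ?_ ?_
        · exact differentiableOn_id.sub (differentiableOn_const _)
        · intro w hw
          exact aux_hreg_sub_mem hw t
      exact (d1.mul d2).mul d3
    have hFa : AnalyticOnNhd ℂ F (closedBall z |r|) := by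
      rw [abs_of_pos hr]
      exact (hFd.analyticOnNhd aux_hreg_isOpen_St).mono hsub
    have hFne : ∀ u ∈ closedBall z |r|, F u ≠ 0 := by
      rw [abs_of_pos hr]
      intro u hu
      have hu' := hsub hu
      exact mul_ne_zero (mul_ne_zero (hne1 u hu') (inv_ne_zero (hne2 u hu'))) (hne3 u hu')
    have hav := hFa.circleAverage_log_norm_of_ne_zero hFne
    show Real.circleAverage (fun z => hreg Φ z t) z r = hreg Φ z t
    rw [hlog z (hsub (mem_closedBall_self hr.le)), ← hav]
    apply Real.circleAverage_congr_sphere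
    intro w hw
    rw [abs_of_pos hr] at hw
    exact hlog w (hsub (sphere_subset_closedBall hw))
  · intro t z hz hne
    have htS : (t : ℂ) ∈ St := aux_hreg_real_mem t
    have hzt : z - t ≠ 0 := sub_ne_zero.2 hne
    rw [gD, hreg, gS, hT, dslope_of_ne _ hne, slope_def_field, dslope_of_ne _ hzt, slope_def_field,
      aux_hreg_f_zero, sub_zero, sub_zero, norm_div, norm_div, Real.log_div, Real.log_div]
    · have : aux_hreg_f (z - t) = Complex.tanh ((z - t) / 2) := rfl
      rw [this]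
      ring
    · exact norm_ne_zero_iff.2 (aux_hreg_f_ne (aux_hreg_sub_mem hz t) hzt)
    · exact norm_ne_zero_iff.2 hzt
    · apply norm_ne_zero_iff.2
      intro h1
      exact hne (hi hz htS (sub_eq_zero.1 h1))
    · exact norm_ne_zero_iff.2 hzt

theorem t_hreg : S_hreg := fun Φ hd hi hm => hreg_props Φ hd hi hm

end HW714
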