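import Pool.Agent.Helper714_HW.Spec

set_option autoImplicit false
open Set Metric MeasureTheory Complex Filter Topology
open scoped NNReal ENNReal

namespace HW714



/-- the integrand with the parameter projected to the interval is continuous on O times the line -/
theorem aux_int_cont (O : Set ℂ) (k : ℂ → ℝ → ℝ) (a b : ℝ) (hab : a ≤ b)
    (hk : ContinuousOn (fun p : ℂ × ℝ => k p.1 p.2) (O ×ˢ Icc a b)) :
    Continuous (fun p : O × ℝ => k (p.1 : ℂ) (projIcc a b hab p.2 : ℝ)) := by
  have h1 : Continuous (fun p : O × ℝ => (((p.1 : ℂ), ((projIcc a b hab p.2 : Icc a b) : ℝ)) : ℂ × ℝ)) := by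
    fun_prop
  exact hk.comp_continuous h1 (fun p => ⟨p.1.2, (projIcc a b hab p.2).2⟩)

/-- TARGET 1 -/
theorem mv_int (O : Set ℂ) (k : ℂ → ℝ → ℝ) (a b : ℝ) (hO : IsOpen O) (hab : a ≤ b)
    (hk : ContinuousOn (fun p : ℂ × ℝ => k p.1 p.2) (O ×ˢ Icc a b))
    (hmv : ∀ t ∈ Icc a b, MVon (fun z => k z t) O) :
    ContinuousOn (fun z => ∫ t in a..b, k z t) O ∧ MVon (fun z => ∫ t in a..b, k z t) O := by
  have hcont := aux_int_cont O k a b hab hk
  have hcongr : ∀ z : ℂ, ∫ t in a..b, k z t = ∫ t in a..b, k z (projIcc a b hab t : ℝ) := by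
    intro z
    apply intervalIntegral.integral_congr
    intro t ht
    rw [uIcc_of_le hab] at ht
    simp [projIcc_of_mem hab ht]
  constructor
  · rw [continuousOn_iff_continuous_restrict]
    have h2 : Continuous (fun z : O => ∫ t in a..b, k (z : ℂ) (projIcc a b hab t : ℝ)) :=
      intervalIntegral.continuous_parametric_intervalIntegral_of_continuous'
        (f := fun (z : O) (t : ℝ) => k (z : ℂ) (projIcc a b hab t : ℝ)) hcont a b
    refine h2.congr ?_
    intro z
    simp only [Set.restrict_apply]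
    exact (hcongr z).symm
  · intro z r hr hzr
    simp only [Real.circleAverage_def]
    have hmem : ∀ θ : ℝ, circleMap z r θ ∈ O := fun θ =>
      hzr (sphere_subset_closedBall (circleMap_mem_sphere z hr.le θ))
    have hF : Continuous (fun p : ℝ × ℝ => k (circleMap z r p.1) (projIcc a b hab p.2 : ℝ)) := by
      have h3 : Continuous (fun p : ℝ × ℝ => ((⟨circleMap z r p.1, hmem p.1⟩, p.2) : O × ℝ)) := by
        fun_prop
      exact hcont.comp h3
    have hswap : ∫ θ in (0 : ℝ)..2 * Real.pi, ∫ t in a..b, k (circleMap z r θ) (projIcc a b hab t : ℝ)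
        = ∫ t in a..b, ∫ θ in (0 : ℝ)..2 * Real.pi, k (circleMap z r θ) (projIcc a b hab t : ℝ) := by
      apply intervalIntegral_intervalIntegral_swap
      have : IntegrableOn (Function.uncurry fun θ t : ℝ => k (circleMap z r θ) (projIcc a b hab t : ℝ))
          (uIcc 0 (2 * Real.pi) ×ˢ uIcc a b) := by
        apply ContinuousOn.integrableOn_compact (isCompact_uIcc.prod isCompact_uIcc)
        exact hF.continuousOn
      exact this.mono_set (Set.prod_mono uIoc_subset_uIcc uIoc_subset_uIcc)
    calc (2 * Real.pi)⁻¹ • ∫ θ in (0 : ℝ)..2 * Real.pi, ∫ t in a..b, k (circleMap z r θ) t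
        = (2 * Real.pi)⁻¹ • ∫ θ in (0 : ℝ)..2 * Real.pi, ∫ t in a..b,
            k (circleMap z r θ) (projIcc a b hab t : ℝ) := by
          congr 1
          apply intervalIntegral.integral_congr
          intro θ _
          exact hcongr _
      _ = (2 * Real.pi)⁻¹ • ∫ t in a..b, ∫ θ in (0 : ℝ)..2 * Real.pi,
            k (circleMap z r θ) (projIcc a b hab t : ℝ) := by rw [hswap]
      _ = ∫ t in a..b, (2 * Real.pi)⁻¹ • ∫ θ in (0 : ℝ)..2 * Real.pi,
            k (circleMap z r θ) (projIcc a b hab t : ℝ) := by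
          rw [intervalIntegral.integral_smul]
      _ = ∫ t in a..b, k z t := by
          apply intervalIntegral.integral_congr
          intro t ht
          rw [uIcc_of_le hab] at ht
          have := hmv t ht z r hr hzr
          rw [Real.circleAverage_def] at this
          simpa [projIcc_of_mem hab ht] using this

/-- TARGET 2 -/
theorem mv_log (O : Set ℂ) (F : ℂ → ℂ) (hO : IsOpen O) (hF : DifferentiableOn ℂ F O)
    (h0 : ∀ z ∈ O, F z ≠ 0) : MVon (fun z => Real.log ‖F z‖) O := by
  intro z r hr hzr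
  apply AnalyticOnNhd.circleAverage_log_norm_of_ne_zero
  · rw [abs_of_pos hr]
    exact (hF.analyticOnNhd hO).mono hzr
  · rw [abs_of_pos hr]
    exact fun u hu => h0 u (hzr hu)

theorem t_int : S_int := fun O k a b hO hab hk hmv => mv_int O k a b hO hab hk hmv

theorem t_log : S_log := fun O F hO hF h0 => mv_log O F hO hF h0

end HW714
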