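import Pool.Agent.Helper714_HW.Spec

set_option autoImplicit false
open Set Metric MeasureTheory Complex Filter Topology
open scoped NNReal ENNReal

namespace HW714



lemma aux_len_isOpen_St : IsOpen St := by
  unfold St
  exact isOpen_lt (continuous_abs.comp Complex.continuous_im) continuous_const

lemma aux_len_real_mem (t : ℝ) : (t : ℂ) ∈ St := by
  simp [St, Real.pi_pos]

/-- the map of the disc onto the strip -/
noncomputable def aux_len_phi (t : ℝ) (w : ℂ) : ℂ := t + Complex.log ((1 + w) / (1 - w))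

lemma aux_len_re_pos (w : ℂ) (hw : ‖w‖ < 1) : 0 < ((1 + w) / (1 - w)).re := by
  have h1 : (1 - w) ≠ 0 := by
    intro h
    have : w = 1 := by linear_combination -h
    rw [this] at hw; simp at hw
  have h2 : 0 < Complex.normSq (1 - w) := Complex.normSq_pos.2 h1
  rw [Complex.div_re]
  have h3 : Complex.normSq w < 1 := by
    rw [Complex.normSq_eq_norm_sq]
    nlinarith [norm_nonneg w]
  rw [← add_div]
  apply div_pos _ h2
  simp only [Complex.normSq_apply] at h3
  simp only [Complex.add_re, Complex.one_re, Complex.sub_re, Complex.add_im, Complex.one_im, Complex.sub_im]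
  nlinarith

lemma aux_len_slit (w : ℂ) (hw : ‖w‖ < 1) : ((1 + w) / (1 - w)) ∈ Complex.slitPlane :=
  Or.inl (aux_len_re_pos w hw)

lemma aux_len_phi_mem (t : ℝ) (w : ℂ) (hw : ‖w‖ < 1) : aux_len_phi t w ∈ St := by
  have h := aux_len_re_pos w hw
  have := (Complex.abs_arg_lt_pi_div_two_iff (z := (1 + w) / (1 - w))).2 (Or.inl h)
  simp only [aux_len_phi, St, Set.mem_ofPred_eq, Complex.add_im, Complex.ofReal_im, zero_add, Complex.log_im]
  exact this

lemma aux_len_phi_hasDeriv (t : ℝ) (w : ℂ) (hw : ‖w‖ < 1) :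
    HasDerivAt (aux_len_phi t) ((((1 - w) + (1 + w)) / (1 - w) ^ 2) / ((1 + w) / (1 - w))) w := by
  have h1 : (1 - w) ≠ 0 := by
    intro h
    have : w = 1 := by linear_combination -h
    rw [this] at hw; simp at hw
  have hd : HasDerivAt (fun w : ℂ => (1 + w) / (1 - w)) (((1 - w) + (1 + w)) / (1 - w) ^ 2) w := by
    have ha : HasDerivAt (fun w : ℂ => 1 + w) 1 w := (hasDerivAt_id w).const_add 1
    have hb : HasDerivAt (fun w : ℂ => 1 - w) (-1) w := (hasDerivAt_id w).const_sub 1
    exact (ha.div hb h1).congr_deriv (by ring)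
  have := (hd.clog (aux_len_slit w hw)).const_add (t : ℂ)
  exact this

/-- Schwarz-Pick at the real line of the strip -/
lemma aux_len_pick (Φ : ℂ → ℂ) (hd : DifferentiableOn ℂ Φ St)
    (hm : MapsTo Φ St (ball 0 1)) (t : ℝ) : ‖deriv Φ t‖ ≤ (1 - ‖Φ t‖ ^ 2) / 2 := by
  set a : ℂ := Φ t with ha
  have ha1 : ‖a‖ < 1 := by
    have := hm (aux_len_real_mem t)
    simpa using this
  have hphi0 : aux_len_phi t 0 = t := by simp [aux_len_phi]
  have hden : ∀ u : ℂ, ‖u‖ < 1 → 1 - (starRingEnd ℂ) a * u ≠ 0 := by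
    intro u hu h
    have h1 : (starRingEnd ℂ) a * u = 1 := by linear_combination -h
    have h2 : ‖a‖ * ‖u‖ = 1 := by
      have := congrArg norm h1
      simpa using this
    nlinarith [norm_nonneg a, norm_nonneg u]
  set T : ℂ → ℂ := fun u => (u - a) / (1 - (starRingEnd ℂ) a * u) with hT
  have hTd : ∀ u : ℂ, ‖u‖ < 1 → HasDerivAt T ((1 * (1 - (starRingEnd ℂ) a * u) - (u - a) * (-((starRingEnd ℂ) a))) / (1 - (starRingEnd ℂ) a * u) ^ 2) u := by
    intro u hu
    have h1 : HasDerivAt (fun u : ℂ => u - a) 1 u := (hasDerivAt_id u).sub_const a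
    have h2 : HasDerivAt (fun u : ℂ => 1 - (starRingEnd ℂ) a * u) (-((starRingEnd ℂ) a)) u := by
      have := ((hasDerivAt_id u).const_mul ((starRingEnd ℂ) a)).const_sub 1
      simpa using this
    exact h1.div h2 (hden u hu)
  have hTm : ∀ u : ℂ, ‖u‖ < 1 → ‖T u‖ ≤ 1 := by
    intro u hu
    have hne := hden u hu
    rw [hT]; simp only
    rw [norm_div, div_le_one (norm_pos_iff.2 hne)]
    have h3 : ‖u - a‖ ^ 2 ≤ ‖1 - (starRingEnd ℂ) a * u‖ ^ 2 := by
      rw [← Complex.normSq_eq_norm_sq, ← Complex.normSq_eq_norm_sq]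
      have hu2 : Complex.normSq u < 1 := by
        rw [Complex.normSq_eq_norm_sq]; nlinarith [norm_nonneg u]
      have ha2 : Complex.normSq a < 1 := by
        rw [Complex.normSq_eq_norm_sq]; nlinarith [norm_nonneg a]
      simp only [Complex.normSq_apply, Complex.sub_re, Complex.sub_im, Complex.one_re, Complex.one_im,
        Complex.mul_re, Complex.mul_im, Complex.conj_re, Complex.conj_im] at *
      nlinarith [mul_pos (sub_pos.2 hu2) (sub_pos.2 ha2)]
    exact le_of_sq_le_sq h3 (norm_nonneg _) 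
  set F : ℂ → ℂ := fun w => T (Φ (aux_len_phi t w)) with hF
  have hΦd : ∀ z ∈ St, HasDerivAt Φ (deriv Φ z) z := fun z hz =>
    ((hd z hz).differentiableAt (aux_len_isOpen_St.mem_nhds hz)).hasDerivAt
  have hFd : ∀ w : ℂ, ‖w‖ < 1 → DifferentiableAt ℂ F w := by
    intro w hw
    have h1 := aux_len_phi_hasDeriv t w hw
    have h2 := hΦd _ (aux_len_phi_mem t w hw)
    have h3 : ‖Φ (aux_len_phi t w)‖ < 1 := by simpa using hm (aux_len_phi_mem t w hw)
    have h4 := hTd _ h3
    have h5 := h4.comp w (h2.comp w h1)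
    exact h5.differentiableAt
  have hF0 : F 0 = 0 := by
    simp [hF, hphi0, hT, ← ha]
  have hFder : HasDerivAt F ((1 / (1 - (starRingEnd ℂ) a * a)) * (deriv Φ t * 2)) 0 := by
    have h1 := aux_len_phi_hasDeriv t 0 (by simp)
    have h2 := hΦd (aux_len_phi t 0) (aux_len_phi_mem t 0 (by simp))
    have h3 : ‖Φ (aux_len_phi t 0)‖ < 1 := by simpa using hm (aux_len_phi_mem t 0 (by simp))
    have h4 := hTd _ h3
    have h5 := h4.comp (0 : ℂ) (h2.comp (0 : ℂ) h1)
    have hne : 1 - (starRingEnd ℂ) a * a ≠ 0 := hden a ha1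
    refine HasDerivAt.congr_deriv (f := F) h5 ?_
    rw [hphi0, ← ha]
    field_simp
    ring
  have hS : ‖deriv F 0‖ ≤ 1 := by
    apply Complex.norm_deriv_le_one_of_mapsTo_ball (R := 1)
    · intro w hw
      have : ‖w‖ < 1 := by simpa using hw
      exact (hFd w this).differentiableWithinAt
    · intro w hw
      have hw1 : ‖w‖ < 1 := by simpa using hw
      rw [hF0]
      have h3 : ‖Φ (aux_len_phi t w)‖ < 1 := by simpa using hm (aux_len_phi_mem t w hw1)
      simpa using hTm _ h3
    · norm_num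
  rw [hFder.deriv] at hS
  have hnn : ‖1 - (starRingEnd ℂ) a * a‖ = 1 - ‖a‖ ^ 2 := by
    rw [mul_comm, Complex.mul_conj, Complex.normSq_eq_norm_sq]
    rw [← Complex.ofReal_one, ← Complex.ofReal_sub, Complex.norm_real, Real.norm_eq_abs, abs_of_pos]
    nlinarith [norm_nonneg a]
  have hpos : 0 < 1 - ‖a‖ ^ 2 := by nlinarith [norm_nonneg a]
  rw [norm_mul, norm_mul, norm_div, hnn] at hS
  simp only [norm_one, Complex.norm_ofNat] at hS
  rw [one_div, inv_mul_le_iff₀ hpos] at hS
  linarith

/-- TARGET -/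
theorem len (Φ : ℂ → ℂ) (hd : DifferentiableOn ℂ Φ St) (hi : InjOn Φ St)
    (hm : MapsTo Φ St (ball 0 1)) (R : ℝ) (hR : 0 < R) :
    μH[1] ((fun t : ℝ => Φ t) '' Icc (-R) R) ≤
      ENNReal.ofReal (∫ t in (-R)..R, -Real.log ‖Φ t‖) := by
  have hΦd : ∀ z ∈ St, HasDerivAt Φ (deriv Φ z) z := fun z hz =>
    ((hd z hz).differentiableAt (aux_len_isOpen_St.mem_nhds hz)).hasDerivAt
  have hlt : ∀ t : ℝ, ‖Φ t‖ < 1 := fun t => by simpa using hm (aux_len_real_mem t)
  set γ : ℝ → ℂ := fun t => Φ t with hγ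
  have hγd : ∀ t : ℝ, HasDerivAt γ (deriv Φ t) t := fun t =>
    (hΦd t (aux_len_real_mem t)).comp_ofReal
  have hγc : Continuous γ := continuous_iff_continuousAt.2 fun t => (hγd t).continuousAt
  set g : ℝ → ℝ := fun t => (1 - ‖γ t‖ ^ 2) / 2 with hg
  have hgc : Continuous g := by fun_prop
  have hgpos : ∀ t, 0 < g t := fun t => by
    have := hlt t
    simp only [hg, hγ]
    nlinarith [norm_nonneg (Φ t)]
  set s : ℝ → ℝ := fun t => ∫ u in (-R)..t, g u with hs
  have hsd : ∀ t, HasDerivAt s (g t) t := fun t =>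
    intervalIntegral.integral_hasDerivAt_right (hgc.intervalIntegrable _ _)
      (hgc.stronglyMeasurableAtFilter _ _) hgc.continuousAt
  have hsmono : StrictMono s := strictMono_of_hasDerivAt_pos hsd hgpos
  -- the Lipschitz estimate
  have hlip : ∀ t t' : ℝ, t ≤ t' → ‖γ t' - γ t‖ ≤ s t' - s t := by
    intro t t' htt'
    have := image_norm_le_of_norm_deriv_right_le_deriv_boundary
      (f := fun x => γ x - γ t) (f' := fun x => deriv Φ x) (a := t) (b := t')
      (B := fun x => s x - s t) (B' := g)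
      (by fun_prop)
      (fun x _ => ((hγd x).sub_const _).hasDerivWithinAt)
      (by simp)
      (fun x => (hsd x).sub_const _)
      (fun x _ => aux_len_pick Φ hd hm x)
      (right_mem_Icc.2 htt')
    exact this
  have hlip' : ∀ t t' : ℝ, dist (γ t) (γ t') ≤ dist (s t) (s t') := by
    intro t t'
    rcases le_total t t' with h | h
    · have h1 := hlip t t' h
      rw [dist_comm, dist_eq_norm, dist_comm, Real.dist_eq, abs_of_nonneg (sub_nonneg.2 (hsmono.monotone h))]
      exact h1
    · have h1 := hlip t' t h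
      rw [dist_eq_norm, Real.dist_eq, abs_of_nonneg (sub_nonneg.2 (hsmono.monotone h))]
      exact h1
  -- the parametrised curve
  set τ : ℝ → ℝ := Function.invFun s with hτ
  have hτs : ∀ t, τ (s t) = t := fun t => Function.leftInverse_invFun hsmono.injective t
  have hLip : LipschitzOnWith 1 (fun y => γ (τ y)) (s '' Icc (-R) R) := by
    apply LipschitzOnWith.of_dist_le_mul
    rintro _ ⟨t, ht, rfl⟩ _ ⟨t', ht', rfl⟩
    simp only [hτs, NNReal.coe_one, one_mul]
    exact hlip' t t'
  have himg : (fun t : ℝ => Φ t) '' Icc (-R) R = (fun y => γ (τ y)) '' (s '' Icc (-R) R) := by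
    rw [image_image]
    apply image_congr
    intro t _
    simp [hτs, hγ]
  have hsub : s '' Icc (-R) R ⊆ Icc 0 (s R) := by
    rintro _ ⟨t, ht, rfl⟩
    have h0 : s (-R) = 0 := by simp [hs]
    exact ⟨h0 ▸ hsmono.monotone ht.1, hsmono.monotone ht.2⟩
  have h1 : μH[1] ((fun t : ℝ => Φ t) '' Icc (-R) R) ≤ ENNReal.ofReal (s R) := by
    rw [himg]
    refine (hLip.hausdorffMeasure_image_le zero_le_one).trans ?_
    simp only [ENNReal.coe_one, ENNReal.one_rpow, one_mul]
    refine (measure_mono hsub).trans ?_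
    rw [hausdorffMeasure_real, Real.volume_Icc, sub_zero]
  refine h1.trans (ENNReal.ofReal_le_ofReal ?_)
  -- compare the integrals
  have han : AnalyticOnNhd ℝ γ univ := by
    intro t _
    have h2 : AnalyticAt ℂ Φ (t : ℂ) := (hd.analyticOnNhd aux_len_isOpen_St) t (aux_len_real_mem t)
    have h3 : AnalyticAt ℝ Φ (t : ℂ) := h2.restrictScalars
    exact h3.comp (Complex.ofRealCLM.analyticAt t)
  have hint : IntervalIntegrable (fun t => Real.log ‖γ t‖) volume (-R) R :=
    MeromorphicOn.intervalIntegrable_log_norm (fun t _ => (han t (mem_univ t)).meromorphicAt)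
  have hnull : ∀ᵐ t : ℝ, γ t ≠ 0 := by
    have hsub : {t : ℝ | γ t = 0}.Subsingleton := by
      intro t ht t' ht'
      have : (t : ℂ) = t' := hi (aux_len_real_mem t) (aux_len_real_mem t') (by
        simp only [mem_ofPred_eq, hγ] at ht ht'
        rw [ht, ht'])
      exact_mod_cast this
    have := hsub.measure_zero (volume : Measure ℝ)
    rw [ae_iff]
    simpa using this
  rw [hs]
  apply intervalIntegral.integral_mono_ae (by linarith) (hgc.intervalIntegrable _ _) hint.neg
  filter_upwards [hnull] with t ht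
  have hpos : 0 < ‖γ t‖ := norm_pos_iff.2 ht
  have hl := Real.log_le_sub_one_of_pos (pow_pos hpos 2)
  rw [Real.log_pow] at hl
  simp only [hg, Pi.neg_apply]
  push_cast at hl
  linarith

theorem t_len : S_len := fun Φ hd hi hm R hR => len Φ hd hi hm R hR

end HW714
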