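import Pool.Agent.Helper714_HW.Spec

set_option autoImplicit false
open Set Metric MeasureTheory Complex Filter Topology
open scoped NNReal ENNReal

namespace HW714

/-- A ball on which `g` is `K`-Lipschitz. -/
lemma aux_lip_ball (O S : Set ℂ) (g : ℂ → ℂ) (K : ℝ≥0) (hO : IsOpen O)
    (hg : DifferentiableOn ℂ g O) (hSO : S ⊆ O) (hK : ∀ z ∈ S, ‖deriv g z‖ < K) (z : ℂ)
    (hz : z ∈ S) : ∃ r > 0, LipschitzOnWith K g (ball z r) := by
  have hd : ContinuousAt (deriv g) z := by
    have h1 : DifferentiableOn ℂ (deriv g) O := hg.deriv hO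
    exact (h1.continuousOn).continuousAt (hO.mem_nhds (hSO hz))
  have h2 : ∀ᶠ w in 𝓝 z, ‖deriv g w‖ < K := hd.norm.eventually_lt continuousAt_const (hK z hz)
  have h3 : ∀ᶠ w in 𝓝 z, w ∈ O := hO.mem_nhds (hSO hz)
  obtain ⟨r, hr, hb⟩ := Metric.eventually_nhds_iff_ball.1 (h2.and h3)
  refine ⟨r, hr, ?_⟩
  apply Convex.lipschitzOnWith_of_nnnorm_deriv_le (𝕜 := ℂ)
  · intro x hx
    exact hg.differentiableAt (hO.mem_nhds (hb x hx).2)
  · intro x hx
    have := (hb x hx).1
    rw [← NNReal.coe_le_coe]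
    exact this.le
  · exact convex_ball z r

/-- TARGET -/
theorem lip (O S : Set ℂ) (g : ℂ → ℂ) (K : ℝ) (hO : IsOpen O) (hg : DifferentiableOn ℂ g O)
    (hSO : S ⊆ O) (hS : MeasurableSet S) (hK : ∀ z ∈ S, ‖deriv g z‖ < K) :
    μH[1] (g '' S) ≤ ENNReal.ofReal K * μH[1] S := by
  rcases S.eq_empty_or_nonempty with rfl | ⟨z0, hz0⟩
  · simp
  have hK0 : 0 ≤ K := (norm_nonneg _).trans (hK z0 hz0).le
  lift K to ℝ≥0 using hK0
  rw [ENNReal.ofReal_coe_nnreal]
  choose! r hr hL using aux_lip_ball O S g K hO hg hSO hK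
  obtain ⟨T, hTS, hTc, hT⟩ := TopologicalSpace.countable_cover_nhdsWithin
    (s := S) (f := fun z => ball z (r z)) (fun z hz => mem_nhdsWithin_of_mem_nhds
      (ball_mem_nhds z (hr z hz)))
  have hne : T.Nonempty := by
    by_contra hT0
    rw [Set.not_nonempty_iff_eq_empty] at hT0
    subst hT0
    have := hT hz0
    simp at this
  obtain ⟨e, he⟩ := hTc.exists_eq_range hne
  have heT : ∀ n, e n ∈ S := fun n => hTS (he ▸ mem_range_self n)
  -- disjointed pieces
  let B : ℕ → Set ℂ := fun n => S ∩ ball (e n) (r (e n))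
  have hB : ∀ n, MeasurableSet (B n) := fun n => hS.inter measurableSet_ball
  have hcov : S = ⋃ n, disjointed B n := by
    rw [iUnion_disjointed]
    apply Subset.antisymm
    · intro z hz
      have h1 := hT hz
      simp only [mem_iUnion] at h1
      obtain ⟨t, ht, hzt⟩ := h1
      rw [he] at ht
      obtain ⟨n, rfl⟩ := ht
      exact mem_iUnion.2 ⟨n, hz, hzt⟩
    · exact iUnion_subset fun n => inter_subset_left
  have hm : ∀ n, MeasurableSet (disjointed B n) := fun n => MeasurableSet.disjointed hB n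
  have hle : ∀ n, μH[1] (g '' disjointed B n) ≤ (K : ℝ≥0∞) * μH[1] (disjointed B n) := by
    intro n
    have h1 : LipschitzOnWith K g (disjointed B n) :=
      (hL (e n) (heT n)).mono ((disjointed_subset B n).trans inter_subset_right)
    have h2 := h1.hausdorffMeasure_image_le (d := 1) zero_le_one
    simpa using h2
  calc μH[1] (g '' S) = μH[1] (⋃ n, g '' disjointed B n) := by
        rw [← image_iUnion, ← hcov]
    _ ≤ ∑' n, μH[1] (g '' disjointed B n) := measure_iUnion_le _
    _ ≤ ∑' n, (K : ℝ≥0∞) * μH[1] (disjointed B n) := ENNReal.tsum_le_tsum hle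
    _ = (K : ℝ≥0∞) * ∑' n, μH[1] (disjointed B n) := ENNReal.tsum_mul_left
    _ = (K : ℝ≥0∞) * μH[1] (⋃ n, disjointed B n) := by
        rw [measure_iUnion (disjoint_disjointed B) hm]
    _ = (K : ℝ≥0∞) * μH[1] S := by rw [← hcov]

theorem t_lip : S_lip := fun O S g K hO hg hSO hS hK => lip O S g K hO hg hSO hS hK

end HW714
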