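import Pool.Agent.Helper714_HW.Spec

set_option autoImplicit false
open Set Metric MeasureTheory Complex Filter Topology
open scoped NNReal ENNReal

namespace HW714




/-- TARGET -/
theorem mp (O : Set ℂ) (u : ℂ → ℝ) (c : ℝ) (hO : IsOpen O) (hu : ContinuousOn u O)
    (hmv : MVon u O) (hc : IsCompact {z ∈ O | c ≤ u z}) : ∀ z ∈ O, u z < c := by
  by_contra hcon
  push Not at hcon
  obtain ⟨w, hwO, hwc⟩ := hcon
  have hCne : ({z ∈ O | c ≤ u z}).Nonempty := ⟨w, hwO, hwc⟩
  have hCsub : {z ∈ O | c ≤ u z} ⊆ O := fun z hz => hz.1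
  have huC : ContinuousOn u {z ∈ O | c ≤ u z} := hu.mono hCsub
  obtain ⟨z1, hz1, hz1max⟩ := hc.exists_isMaxOn hCne huC
  set M0 := u z1 with hM0
  have hcM0 : c ≤ M0 := hz1.2
  have hle : ∀ z ∈ O, u z ≤ M0 := by
    intro z hz
    by_cases h : c ≤ u z
    · exact hz1max (⟨hz, h⟩ : z ∈ {z ∈ O | c ≤ u z})
    · push Not at h
      linarith
  -- E
  set E : Set ℂ := {z ∈ O | c ≤ u z} ∩ u ⁻¹' {M0} with hE
  have hEc : IsCompact E := by
    have hcl : IsClosed E := by
      exact huC.preimage_isClosed_of_isClosed hc.isClosed isClosed_singleton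
    exact hc.of_isClosed_subset hcl (Set.inter_subset_left)
  have hEne : E.Nonempty := ⟨z1, hz1, rfl⟩
  obtain ⟨z0, hz0, hz0max⟩ := hEc.exists_isMaxOn hEne (Complex.continuous_re.continuousOn)
  have hz0O : z0 ∈ O := hz0.1.1
  have hz0M : u z0 = M0 := hz0.2
  obtain ⟨r, hr, hrsub⟩ := Metric.isOpen_iff.1 hO z0 hz0O
  have hr2 : 0 < r / 2 := by linarith
  have hsub : closedBall z0 (r/2) ⊆ O :=
    (closedBall_subset_ball (by linarith)).trans hrsub
  have hav := hmv z0 (r/2) hr2 hsub
  have hcirc : ∀ t : ℝ, circleMap z0 (r/2) t ∈ O := fun t =>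
    hsub (sphere_subset_closedBall (circleMap_mem_sphere z0 hr2.le t))
  have hcont : Continuous fun t : ℝ => u (circleMap z0 (r/2) t) := by
    rw [continuous_iff_continuousAt]
    intro t
    have h1 : ContinuousAt u (circleMap z0 (r/2) t) :=
      (hu _ (hcirc t)).continuousAt (hO.mem_nhds (hcirc t))
    exact ContinuousAt.comp (f := fun t : ℝ => circleMap z0 (r/2) t) h1
      (continuous_circleMap z0 (r/2)).continuousAt
  have key : u (circleMap z0 (r/2) 0) = M0 := by
    by_contra hne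
    have hlt : u (circleMap z0 (r/2) 0) < M0 := lt_of_le_of_ne (hle _ (hcirc 0)) hne
    have hint : (∫ t in (0:ℝ)..(2*Real.pi), u (circleMap z0 (r/2) t)) < ∫ _t in (0:ℝ)..(2*Real.pi), M0 := by
      apply intervalIntegral.integral_lt_integral_of_continuousOn_of_le_of_exists_lt
        (by positivity) hcont.continuousOn continuousOn_const
      · intro t _
        exact hle _ (hcirc t)
      · exact ⟨0, ⟨le_refl _, by positivity⟩, hlt⟩
    rw [intervalIntegral.integral_const] at hint
    have hav' : (2 * Real.pi)⁻¹ * (∫ t in (0:ℝ)..(2*Real.pi), u (circleMap z0 (r/2) t)) = M0 := by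
      rw [← hz0M, ← hav, Real.circleAverage_def, smul_eq_mul]
    have hpi : (0:ℝ) < 2 * Real.pi := by positivity
    have : (∫ t in (0:ℝ)..(2*Real.pi), u (circleMap z0 (r/2) t)) = (2 * Real.pi) * M0 := by
      rw [← hav']; field_simp
    rw [this] at hint
    simp at hint
  have hmem : circleMap z0 (r/2) 0 ∈ E := by
    refine ⟨⟨hcirc 0, ?_⟩, key⟩
    rw [key]; exact hcM0
  have h2 : (circleMap z0 (r/2) 0).re ≤ z0.re := hz0max hmem
  have h3 : (circleMap z0 (r/2) 0).re = z0.re + r/2 := by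
    simp [circleMap]
  linarith

theorem t_mp : S_mp := fun O u c hO hu hmv hc => mp O u c hO hu hmv hc

end HW714
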