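import Pool.Agent.Helper714_HW.Spec
/- JOB opening maps (owner helper714, MP_0a9e96_an, Hayman-Wu constant).
Replace the sorry of the TARGET theorem. Keep the statement, the definitions and the namespace HW714 unchanged; add auxiliary lemmas (please prefix their names with aux_open_ ).
No axioms, no native_decide. Mathlib only (or starting-tree modules: then say which).

Proof in words:
With e = exp(iφ) (0 < φ < π, as α(π+φ) <= 2π, α>1), Mo φ w = (e - w)(1 - conj e conj w)/|1 - e w|^2, numerator N(w) with Re N = cos φ (1+|w|^2) - 2 Re w, Im N = sin φ (1 - |w|^2); pole only at w = conj e = exp(-iφ), zero only at w = e; neither is in UU φ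
(|e| = 1 and Re e = cos φ). Claim: for w in UU φ, -φ < arg (Mo φ w) < π. If |w|<1: Im > 0. If |w| >= 1 and Re w < cos φ: Im N <= 0, and sin φ * Re N + cos φ * Im N = 2 sin φ (cos φ - Re w) > 0, i.e. Im (e^{iφ} N) > 0 with Im N <= 0, so arg N in (-φ, 0]
(write N = ρ e^{iθ}, θ in (-π,0]; sin(θ+φ) > 0 forces θ > -φ, because θ + φ in (-π, φ], φ<π). Mo φ is injective off its pole (difference formula: Mo φ a - Mo φ b = (e^2-1)(a-b)/((1-e a)(1-e b))).
f(w) = (Mo φ w)^α = exp(α log(Mo φ w)): holomorphic on UU φ (Mo φ w in slitPlane), injective since |f| = |.|^α and α arg in (-αφ, απ), an interval of length α(π+φ) <= 2π. f w <> exp(-iαφ) mod 2π on UU φ for the same reason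
(απ <= 2π - αφ), so 1 - exp(iαφ) f w <> 0 and Mo (αφ) (f w) is holomorphic and injective. |w| = 1: Im N = 0, Re N = 2(cos φ - Re w) > 0 so Mo φ w > 0 and f w > 0 real.
zz φ α t = Mo φ (t exp(iπ/α)): Im(t exp(iπ/α)) > 0 so it is in the disc (|e - p|^2 - |1 - e p|^2 = -4 sin φ Im p), Mo φ of it is t exp(iπ/α) (involution), arg = π/α, f = t^α exp(iπ) real.
|Mo χ p| = 1 iff Im p = 0 for 0<χ<π, p not the pole; χ = αφ, and αφ <= 2π - απ < π. Mo φ 0 = e, e^α = exp(iαφ), Mo (αφ) of it is 0.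
-/

set_option autoImplicit false
open Set Metric MeasureTheory Complex Filter Topology
open scoped NNReal ENNReal

namespace HW714







theorem aux_open_re (φ : ℝ) (z : ℂ) :
    (Mo φ z).re = (Real.cos φ * (1 + (z.re ^ 2 + z.im ^ 2)) - 2 * z.re) /
      Complex.normSq (1 - Complex.exp (φ * Complex.I) * z) := by
  unfold Mo
  rw [Complex.div_re, ← add_div]
  congr 1
  simp only [Complex.sub_re, Complex.sub_im, Complex.mul_re, Complex.mul_im,
    Complex.exp_ofReal_mul_I_re, Complex.exp_ofReal_mul_I_im, Complex.one_re, Complex.one_im]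
  linear_combination (-z.re) * Real.sin_sq_add_cos_sq φ

theorem aux_open_im (φ : ℝ) (z : ℂ) :
    (Mo φ z).im = (Real.sin φ * (1 - (z.re ^ 2 + z.im ^ 2))) /
      Complex.normSq (1 - Complex.exp (φ * Complex.I) * z) := by
  unfold Mo
  rw [Complex.div_im, ← sub_div]
  congr 1
  simp only [Complex.sub_re, Complex.sub_im, Complex.mul_re, Complex.mul_im,
    Complex.exp_ofReal_mul_I_re, Complex.exp_ofReal_mul_I_im, Complex.one_re, Complex.one_im]
  linear_combination (z.im) * Real.sin_sq_add_cos_sq φ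

theorem aux_open_den_ne (φ : ℝ) (z : ℂ) (h : ¬ (z.re = Real.cos φ ∧ z.im = - Real.sin φ)) :
    1 - Complex.exp (φ * Complex.I) * z ≠ 0 := by
  intro h0
  apply h
  have hr := congrArg Complex.re h0
  have hi := congrArg Complex.im h0
  simp only [Complex.sub_re, Complex.sub_im, Complex.mul_re, Complex.mul_im,
    Complex.exp_ofReal_mul_I_re, Complex.exp_ofReal_mul_I_im, Complex.one_re, Complex.one_im,
    Complex.zero_re, Complex.zero_im] at hr hi
  constructor
  · linear_combination (-Real.cos φ) * hr - Real.sin φ * hi - z.re * Real.sin_sq_add_cos_sq φ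
  · linear_combination (Real.sin φ) * hr - Real.cos φ * hi - z.im * Real.sin_sq_add_cos_sq φ

theorem aux_open_arg (φ : ℝ) (h0 : 0 < φ) (h1 : φ < Real.pi) (M : ℂ)
    (h : 0 < M.im ∨ 0 < Real.sin φ * M.re + Real.cos φ * M.im) :
    M ≠ 0 ∧ -φ < M.arg ∧ M.arg < Real.pi := by
  have hM : M ≠ 0 := by
    rintro rfl
    simp at h
  have hn : 0 < ‖M‖ := norm_pos_iff.mpr hM
  refine ⟨hM, ?_⟩
  have hre : ‖M‖ * Real.cos M.arg = M.re := Complex.norm_mul_cos_arg M
  have him : ‖M‖ * Real.sin M.arg = M.im := Complex.norm_mul_sin_arg M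
  have hl := Complex.neg_pi_lt_arg M
  have hu := Complex.arg_le_pi M
  by_cases hi : 0 < M.im
  · have hs : 0 < Real.sin M.arg := by
      by_contra hc
      push Not at hc
      nlinarith
    have h3 : 0 < M.arg := by
      by_contra hc
      push Not at hc
      have := Real.sin_nonpos_of_nonpos_of_neg_pi_le hc hl.le
      linarith
    refine ⟨by linarith, lt_of_le_of_ne hu ?_⟩
    intro h4
    rw [h4, Real.sin_pi] at hs
    exact lt_irrefl _ hs
  · have h' : 0 < Real.sin φ * M.re + Real.cos φ * M.im := h.resolve_left hi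
    have h5 : 0 < Real.sin (M.arg + φ) := by
      rw [Real.sin_add]
      have : Real.sin φ * M.re + Real.cos φ * M.im =
          ‖M‖ * (Real.sin M.arg * Real.cos φ + Real.cos M.arg * Real.sin φ) := by
        rw [← hre, ← him]; ring
      rw [this] at h'
      exact (pos_iff_pos_of_mul_pos h').mp hn
    have h6 : M.arg ≤ 0 := by
      by_contra hc
      push Not at hc
      have hs : 0 ≤ Real.sin M.arg := Real.sin_nonneg_of_nonneg_of_le_pi hc.le hu
      have h7 : Real.sin M.arg = 0 := by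
        push Not at hi
        nlinarith
      have h8 : M.arg = Real.pi := by
        by_contra h9
        have := Real.sin_pos_of_pos_of_lt_pi hc (lt_of_le_of_ne hu h9)
        linarith
      rw [h8, add_comm, Real.sin_add_pi] at h5
      have := Real.sin_pos_of_pos_of_lt_pi h0 h1
      linarith
    refine ⟨?_, lt_of_le_of_lt h6 Real.pi_pos⟩
    by_contra hc
    push Not at hc
    have := Real.sin_nonpos_of_nonpos_of_neg_pi_le (x := M.arg + φ) (by linarith) (by linarith)
    linarith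

theorem aux_open_norm (z : ℂ) : ‖z‖ ^ 2 = z.re ^ 2 + z.im ^ 2 := by
  rw [← Complex.normSq_eq_norm_sq, Complex.normSq_apply]; ring

theorem aux_open_not_pole (φ : ℝ) (w : ℂ) (hw : w ∈ UU φ) :
    1 - Complex.exp (φ * Complex.I) * w ≠ 0 := by
  apply aux_open_den_ne
  rintro ⟨hr, hi⟩
  have hn := aux_open_norm w
  rw [hr, hi] at hn
  rcases hw with h | h
  · have h2 : ‖w‖ ^ 2 = 1 := by
      rw [hn]; linear_combination Real.sin_sq_add_cos_sq φ
    have h3 : 0 ≤ ‖w‖ := norm_nonneg w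
    nlinarith
  · linarith

theorem aux_open_Mo_arg (φ : ℝ) (h0 : 0 < φ) (h1 : φ < Real.pi) (w : ℂ) (hw : w ∈ UU φ) :
    Mo φ w ≠ 0 ∧ -φ < (Mo φ w).arg ∧ (Mo φ w).arg < Real.pi := by
  apply aux_open_arg φ h0 h1
  have hD : 0 < Complex.normSq (1 - Complex.exp (φ * Complex.I) * w) :=
    Complex.normSq_pos.mpr (aux_open_not_pole φ w hw)
  have hs : 0 < Real.sin φ := Real.sin_pos_of_pos_of_lt_pi h0 h1
  have hn := aux_open_norm w
  rcases hw with h | h
  · left
    rw [aux_open_im, ← hn]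
    apply div_pos _ hD
    have h3 : 0 ≤ ‖w‖ := norm_nonneg w
    apply mul_pos hs
    nlinarith
  · right
    rw [aux_open_re, aux_open_im]
    have : Real.sin φ * ((Real.cos φ * (1 + (w.re ^ 2 + w.im ^ 2)) - 2 * w.re) /
        Complex.normSq (1 - Complex.exp (φ * Complex.I) * w)) +
        Real.cos φ * ((Real.sin φ * (1 - (w.re ^ 2 + w.im ^ 2))) /
        Complex.normSq (1 - Complex.exp (φ * Complex.I) * w)) =
        (2 * Real.sin φ * (Real.cos φ - w.re)) /
        Complex.normSq (1 - Complex.exp (φ * Complex.I) * w) := by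
      ring
    rw [this]
    apply div_pos _ hD
    have : 0 < Real.cos φ - w.re := by linarith
    positivity

theorem aux_open_Mo_inj (φ : ℝ) (h0 : 0 < φ) (h1 : φ < Real.pi) (a b : ℂ)
    (ha : 1 - Complex.exp (φ * Complex.I) * a ≠ 0) (hb : 1 - Complex.exp (φ * Complex.I) * b ≠ 0)
    (hab : Mo φ a = Mo φ b) : a = b := by
  unfold Mo at hab
  rw [div_eq_div_iff ha hb] at hab
  have hs : 0 < Real.sin φ := Real.sin_pos_of_pos_of_lt_pi h0 h1
  have h3 : (Complex.exp (φ * Complex.I) - 1) * (Complex.exp (φ * Complex.I) + 1) * (a - b) = 0 := by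
    linear_combination hab
  have hne1 : Complex.exp (φ * Complex.I) - 1 ≠ 0 := by
    intro h
    have := congrArg Complex.im h
    simp only [Complex.sub_im, Complex.exp_ofReal_mul_I_im, Complex.one_im, Complex.zero_im] at this
    linarith
  have hne2 : Complex.exp (φ * Complex.I) + 1 ≠ 0 := by
    intro h
    have := congrArg Complex.im h
    simp only [Complex.add_im, Complex.exp_ofReal_mul_I_im, Complex.one_im, Complex.zero_im] at this
    linarith
  have h4 : a - b = 0 := by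
    rcases mul_eq_zero.mp h3 with h | h
    · exact absurd h (mul_ne_zero hne1 hne2)
    · exact h
  exact sub_eq_zero.mp h4

theorem aux_open_Mo_diff (φ : ℝ) (w : ℂ) (hw : 1 - Complex.exp (φ * Complex.I) * w ≠ 0) :
    DifferentiableAt ℂ (Mo φ) w := by
  have e1 : DifferentiableAt ℂ (fun z : ℂ => Complex.exp (φ * Complex.I) - z) w := by fun_prop
  have e2 : DifferentiableAt ℂ (fun z : ℂ => 1 - Complex.exp (φ * Complex.I) * z) w := by fun_prop
  exact e1.fun_div e2 hw

/-- the norm of `Mo`, compared with `1` -/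
theorem aux_open_normSq (φ : ℝ) (p : ℂ) :
    Complex.normSq (Complex.exp (φ * Complex.I) - p) =
      Complex.normSq (1 - Complex.exp (φ * Complex.I) * p) - 4 * Real.sin φ * p.im := by
  simp only [Complex.normSq_apply, Complex.sub_re, Complex.sub_im, Complex.mul_re, Complex.mul_im,
    Complex.exp_ofReal_mul_I_re, Complex.exp_ofReal_mul_I_im, Complex.one_re, Complex.one_im]
  linear_combination (1 - p.re ^ 2 - p.im ^ 2) * Real.sin_sq_add_cos_sq φ

theorem aux_open_Mo_norm (φ : ℝ) (p : ℂ) (hp : 1 - Complex.exp (φ * Complex.I) * p ≠ 0) :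
    ‖Mo φ p‖ ^ 2 * Complex.normSq (1 - Complex.exp (φ * Complex.I) * p) =
      Complex.normSq (1 - Complex.exp (φ * Complex.I) * p) - 4 * Real.sin φ * p.im := by
  rw [← aux_open_normSq]
  unfold Mo
  rw [norm_div, div_pow, ← Complex.normSq_eq_norm_sq, ← Complex.normSq_eq_norm_sq]
  have : Complex.normSq (1 - Complex.exp (φ * Complex.I) * p) ≠ 0 := by
    simpa using hp
  field_simp

theorem aux_open_Mo_norm_eq_one (φ : ℝ) (h0 : 0 < φ) (h1 : φ < Real.pi) (p : ℂ)
    (hp : 1 - Complex.exp (φ * Complex.I) * p ≠ 0) :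
    ‖Mo φ p‖ = 1 ↔ p.im = 0 := by
  have hs : 0 < Real.sin φ := Real.sin_pos_of_pos_of_lt_pi h0 h1
  have hD : 0 < Complex.normSq (1 - Complex.exp (φ * Complex.I) * p) :=
    Complex.normSq_pos.mpr hp
  have h := aux_open_Mo_norm φ p hp
  constructor
  · intro h2
    rw [h2] at h
    have h3 : Real.sin φ * p.im = 0 := by linarith
    rcases mul_eq_zero.mp h3 with h4 | h4
    · exact absurd h4 hs.ne'
    · exact h4
  · intro h2
    rw [h2] at h
    have h3 : ‖Mo φ p‖ ^ 2 = 1 := by
      have : (‖Mo φ p‖ ^ 2 - 1) * Complex.normSq (1 - Complex.exp (φ * Complex.I) * p) = 0 := by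
        linear_combination h
      rcases mul_eq_zero.mp this with h4 | h4
      · linarith
      · exact absurd h4 hD.ne'
    have h4 : 0 ≤ ‖Mo φ p‖ := norm_nonneg _
    nlinarith

theorem aux_open_Mo_norm_lt_one (φ : ℝ) (h0 : 0 < φ) (h1 : φ < Real.pi) (p : ℂ)
    (hp : 0 < p.im) :
    1 - Complex.exp (φ * Complex.I) * p ≠ 0 ∧ ‖Mo φ p‖ < 1 := by
  have hs : 0 < Real.sin φ := Real.sin_pos_of_pos_of_lt_pi h0 h1
  have hne : 1 - Complex.exp (φ * Complex.I) * p ≠ 0 := by
    apply aux_open_den_ne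
    rintro ⟨_, h⟩
    linarith
  refine ⟨hne, ?_⟩
  have hD : 0 < Complex.normSq (1 - Complex.exp (φ * Complex.I) * p) :=
    Complex.normSq_pos.mpr hne
  have h := aux_open_Mo_norm φ p hne
  have h2 : 0 < Real.sin φ * p.im := mul_pos hs hp
  by_contra hc
  push Not at hc
  have h3 : 1 ≤ ‖Mo φ p‖ ^ 2 := by nlinarith
  nlinarith

theorem aux_open_Mo_invol (φ : ℝ) (h0 : 0 < φ) (h1 : φ < Real.pi) (p : ℂ)
    (hp : 1 - Complex.exp (φ * Complex.I) * p ≠ 0) : Mo φ (Mo φ p) = p := by
  have hs : 0 < Real.sin φ := Real.sin_pos_of_pos_of_lt_pi h0 h1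
  have hne : (1 - Complex.exp (φ * Complex.I) * Complex.exp (φ * Complex.I)) ≠ 0 := by
    apply aux_open_den_ne
    rintro ⟨_, h⟩
    rw [Complex.exp_ofReal_mul_I_im] at h
    linarith
  unfold Mo
  have h3 : Complex.exp (φ * Complex.I) - (Complex.exp (φ * Complex.I) - p) /
      (1 - Complex.exp (φ * Complex.I) * p) =
      (1 - Complex.exp (φ * Complex.I) * Complex.exp (φ * Complex.I)) * p /
      (1 - Complex.exp (φ * Complex.I) * p) := by
    field_simp
    ring
  have h4 : 1 - Complex.exp (φ * Complex.I) * ((Complex.exp (φ * Complex.I) - p) /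
      (1 - Complex.exp (φ * Complex.I) * p)) =
      (1 - Complex.exp (φ * Complex.I) * Complex.exp (φ * Complex.I)) /
      (1 - Complex.exp (φ * Complex.I) * p) := by
    field_simp
    ring
  rw [h3, h4, div_div_div_cancel_right₀ hp]
  exact mul_div_cancel_left₀ p hne

/-- `cpow` written as `exp` of `log` has controlled argument -/
theorem aux_open_cpow (M : ℂ) (hM : M ≠ 0) (α : ℝ) :
    M ^ (α : ℂ) = Complex.exp (((α * Real.log ‖M‖ : ℝ) : ℂ) + ((α * M.arg : ℝ) : ℂ) * Complex.I) := by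
  rw [Complex.cpow_def_of_ne_zero hM]
  congr 1
  apply Complex.ext
  · simp [Complex.log_re, Complex.log_im]; ring
  · simp [Complex.log_re, Complex.log_im]; ring

theorem aux_open_cpow_im (M : ℂ) (hM : M ≠ 0) (α : ℝ) :
    (M ^ (α : ℂ)).im = Real.exp (α * Real.log ‖M‖) * Real.sin (α * M.arg) := by
  rw [aux_open_cpow M hM α, Complex.exp_im]
  simp

/-- TARGET -/
theorem opening (φ α : ℝ) (h0 : 0 < φ) (h1 : 1 < α) (h2 : α * (Real.pi + φ) ≤ 2 * Real.pi) :
    DifferentiableOn ℂ (fun w => Mo φ w ^ (α : ℂ)) (UU φ) ∧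
    InjOn (fun w => Mo φ w ^ (α : ℂ)) (UU φ) ∧
    (∀ w ∈ UU φ, ‖w‖ = 1 → (Mo φ w ^ (α : ℂ)).im = 0) ∧
    (∀ t : ℝ, 0 < t → zz φ α t ∈ ball (0 : ℂ) 1 ∧ (Mo φ (zz φ α t) ^ (α : ℂ)).im = 0) ∧
    (∀ s t : ℝ, 0 < s → 0 < t → zz φ α s = zz φ α t → s = t) ∧
    DifferentiableOn ℂ (fun w => Mo (α * φ) (Mo φ w ^ (α : ℂ))) (UU φ) ∧
    InjOn (fun w => Mo (α * φ) (Mo φ w ^ (α : ℂ))) (UU φ) ∧
    Mo (α * φ) (Mo φ 0 ^ (α : ℂ)) = 0 ∧
    (∀ w ∈ UU φ, ‖Mo (α * φ) (Mo φ w ^ (α : ℂ))‖ = 1 ↔ (Mo φ w ^ (α : ℂ)).im = 0) := by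
  have hpi := Real.pi_pos
  have hα0 : 0 < α := by linarith
  have h1' : φ < Real.pi := by
    by_contra hc
    push Not at hc
    nlinarith
  have hχ0 : 0 < α * φ := by positivity
  have hχ1 : α * φ < Real.pi := by nlinarith
  have hnp : ∀ w ∈ UU φ, 1 - Complex.exp (φ * Complex.I) * w ≠ 0 := aux_open_not_pole φ
  have hMa := aux_open_Mo_arg φ h0 h1'
  have hd : ∀ w ∈ UU φ, DifferentiableAt ℂ (fun w => Mo φ w ^ (α : ℂ)) w := by
    intro w hw
    obtain ⟨hne, hl, hu⟩ := hMa w hw
    apply DifferentiableAt.cpow (aux_open_Mo_diff φ w (hnp w hw)) (differentiableAt_const _)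
    rw [Complex.mem_slitPlane_iff_arg]
    exact ⟨hu.ne, hne⟩
  have hinj : ∀ a ∈ UU φ, ∀ b ∈ UU φ, Mo φ a ^ (α : ℂ) = Mo φ b ^ (α : ℂ) → a = b := by
    intro a ha b hb hab
    obtain ⟨hane, hal, hau⟩ := hMa a ha
    obtain ⟨hbne, hbl, hbu⟩ := hMa b hb
    rw [aux_open_cpow _ hane, aux_open_cpow _ hbne, Complex.exp_eq_exp_iff_exists_int] at hab
    obtain ⟨n, hn⟩ := hab
    have hre : α * Real.log ‖Mo φ a‖ = α * Real.log ‖Mo φ b‖ := by
      have := congrArg Complex.re hn
      simpa [-mul_eq_mul_left_iff] using this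
    have him : α * (Mo φ a).arg = α * (Mo φ b).arg + n * (2 * Real.pi) := by
      have := congrArg Complex.im hn
      simpa [-mul_eq_mul_left_iff] using this
    have hn0 : n = 0 := by
      have e1 : (n : ℝ) * (2 * Real.pi) < 1 * (2 * Real.pi) := by nlinarith
      have e2 : (-1) * (2 * Real.pi) < (n : ℝ) * (2 * Real.pi) := by nlinarith
      have e3 : (n : ℝ) < 1 := lt_of_mul_lt_mul_right e1 (by positivity)
      have e4 : (-1 : ℝ) < n := lt_of_mul_lt_mul_right e2 (by positivity)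
      have e5 : n < 1 := by exact_mod_cast e3
      have e6 : -1 < n := by exact_mod_cast e4
      omega
    rw [hn0] at him
    have harg : (Mo φ a).arg = (Mo φ b).arg := by
      have : α * (Mo φ a).arg = α * (Mo φ b).arg := by simpa [-mul_eq_mul_left_iff] using him
      exact mul_left_cancel₀ hα0.ne' this
    have hlog : Real.log ‖Mo φ a‖ = Real.log ‖Mo φ b‖ := mul_left_cancel₀ hα0.ne' hre
    have hnorm : ‖Mo φ a‖ = ‖Mo φ b‖ :=
      Real.log_injOn_pos (Set.mem_Ioi.mpr (norm_pos_iff.mpr hane))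
        (Set.mem_Ioi.mpr (norm_pos_iff.mpr hbne)) hlog
    exact aux_open_Mo_inj φ h0 h1' a b (hnp a ha) (hnp b hb) (Complex.ext_norm_arg hnorm harg)
  have hnp2 : ∀ w ∈ UU φ,
      1 - Complex.exp (((α * φ : ℝ) : ℂ) * Complex.I) * (Mo φ w ^ (α : ℂ)) ≠ 0 := by
    intro w hw hc
    obtain ⟨hne, hl, hu⟩ := hMa w hw
    rw [aux_open_cpow _ hne, ← Complex.exp_add] at hc
    have hc1 := (sub_eq_zero.mp hc).symm
    rw [Complex.exp_eq_one_iff] at hc1
    obtain ⟨n, hn⟩ := hc1
    have him : α * φ + α * (Mo φ w).arg = n * (2 * Real.pi) := by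
      have := congrArg Complex.im hn
      simpa [-mul_eq_mul_left_iff] using this
    have e1 : (n : ℝ) * (2 * Real.pi) < 1 * (2 * Real.pi) := by nlinarith
    have e2 : 0 * (2 * Real.pi) < (n : ℝ) * (2 * Real.pi) := by nlinarith
    have e3 : (n : ℝ) < 1 := lt_of_mul_lt_mul_right e1 (by positivity)
    have e4 : (0 : ℝ) < n := lt_of_mul_lt_mul_right e2 (by positivity)
    have e5 : n < 1 := by exact_mod_cast e3
    have e6 : 0 < n := by exact_mod_cast e4
    omega
  have hpi_α : 0 < Real.pi / α := by positivity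
  have hpi_α2 : Real.pi / α < Real.pi := by
    rw [div_lt_iff₀ hα0]; nlinarith
  have hsinα : 0 < Real.sin (Real.pi / α) := Real.sin_pos_of_pos_of_lt_pi hpi_α hpi_α2
  have hpim : ∀ t : ℝ, 0 < t →
      0 < ((t : ℂ) * Complex.exp ((Real.pi / α : ℝ) * Complex.I)).im := by
    intro t ht
    rw [Complex.im_ofReal_mul, Complex.exp_ofReal_mul_I_im]
    positivity
  refine ⟨fun w hw => (hd w hw).differentiableWithinAt, fun a ha b hb hab => hinj a ha b hb hab,
    ?_, ?_, ?_, ?_, ?_, ?_, ?_⟩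
  · intro w hw hw1
    obtain ⟨hne, hl, hu⟩ := hMa w hw
    have hre : w.re < Real.cos φ := by
      rcases hw with h | h
      · linarith
      · exact h
    have hn := aux_open_norm w
    rw [hw1] at hn
    have hD : 0 < Complex.normSq (1 - Complex.exp (φ * Complex.I) * w) :=
      Complex.normSq_pos.mpr (hnp w hw)
    have harg : (Mo φ w).arg = 0 := by
      rw [Complex.arg_eq_zero_iff]
      constructor
      · rw [aux_open_re, ← hn]
        apply div_nonneg _ hD.le
        linarith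
      · rw [aux_open_im, ← hn]
        simp
    rw [aux_open_cpow_im _ hne, harg]
    simp
  · intro t ht
    obtain ⟨hne, hlt⟩ := aux_open_Mo_norm_lt_one φ h0 h1' _ (hpim t ht)
    refine ⟨by simpa [zz, mem_ball_zero_iff] using hlt, ?_⟩
    unfold zz
    rw [aux_open_Mo_invol φ h0 h1' _ hne]
    have hp0 : ((t : ℂ) * Complex.exp ((Real.pi / α : ℝ) * Complex.I)) ≠ 0 := by
      intro h
      have := hpim t ht
      rw [h] at this
      simp at this
    rw [aux_open_cpow_im _ hp0]
    have harg : ((t : ℂ) * Complex.exp ((Real.pi / α : ℝ) * Complex.I)).arg = Real.pi / α := by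
      rw [Complex.exp_mul_I]
      exact Complex.arg_mul_cos_add_sin_mul_I ht ⟨by linarith, hpi_α2.le⟩
    rw [harg, mul_div_cancel₀ _ hα0.ne']
    simp
  · intro s t hs ht hst
    obtain ⟨hnes, _⟩ := aux_open_Mo_norm_lt_one φ h0 h1' _ (hpim s hs)
    obtain ⟨hnet, _⟩ := aux_open_Mo_norm_lt_one φ h0 h1' _ (hpim t ht)
    have h := aux_open_Mo_inj φ h0 h1' _ _ hnes hnet hst
    have h2 := mul_right_cancel₀ (Complex.exp_ne_zero _) h
    exact_mod_cast h2
  · intro w hw
    have e1 : DifferentiableAt ℂ (Mo (α * φ)) (Mo φ w ^ (α : ℂ)) :=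
      aux_open_Mo_diff (α * φ) _ (hnp2 w hw)
    exact (DifferentiableAt.comp w e1 (hd w hw)).differentiableWithinAt
  · intro a ha b hb hab
    exact hinj a ha b hb (aux_open_Mo_inj (α * φ) hχ0 hχ1 _ _ (hnp2 a ha) (hnp2 b hb) hab)
  · have e0 : Mo φ 0 = Complex.exp (φ * Complex.I) := by
      unfold Mo; simp
    rw [e0, aux_open_cpow _ (Complex.exp_ne_zero _)]
    have e1 : ‖Complex.exp (φ * Complex.I)‖ = 1 := Complex.norm_exp_ofReal_mul_I φ
    have e2 : (Complex.exp (φ * Complex.I)).arg = φ := by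
      rw [Complex.arg_exp_mul_I]
      exact (toIocMod_eq_self _).mpr ⟨by linarith, by linarith⟩
    rw [e1, e2]
    unfold Mo
    simp
  · intro w hw
    exact aux_open_Mo_norm_eq_one (α * φ) hχ0 hχ1 _ (hnp2 w hw)

theorem t_open : S_open := fun φ α h0 h1 h2 => opening φ α h0 h1 h2

end HW714
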