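import Pool.Agent.Helper714_HW.Spec
import Pool.Agent.Helper714_HW.JHreg

set_option autoImplicit false
open Set Metric MeasureTheory Complex Filter Topology
open scoped NNReal ENNReal

namespace HW714



/-- holomorphic logarithm on a ball -/
lemma aux_root_log (q : ℂ → ℂ) (R : ℝ) (hR : 0 < R) (hq : DifferentiableOn ℂ q (ball 0 R))
    (hq0 : ∀ z ∈ ball (0 : ℂ) R, q z ≠ 0) :
    ∃ L : ℂ → ℂ, DifferentiableOn ℂ L (ball 0 R) ∧ ∀ z ∈ ball (0 : ℂ) R, q z = Complex.exp (L z) := by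
  have hd : DifferentiableOn ℂ (fun z => deriv q z / q z) (ball 0 R) :=
    (hq.deriv isOpen_ball).div hq hq0
  obtain ⟨F, hF0, hF⟩ := hd.isExactOn_ball.with_val_at 0 (Complex.log (q 0))
  have h0 : (0 : ℂ) ∈ ball (0 : ℂ) R := mem_ball_self hR
  refine ⟨F, fun z hz => (hF z hz).differentiableAt.differentiableWithinAt, ?_⟩
  -- q * exp (-F) is constant
  have hder : ∀ z ∈ ball (0 : ℂ) R, HasDerivAt (fun z => q z * Complex.exp (-F z)) 0 z := by
    intro z hz
    have h1 : HasDerivAt q (deriv q z) z := (hq.differentiableAt (isOpen_ball.mem_nhds hz)).hasDerivAt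
    have h2 := h1.mul (hF z hz).neg.cexp
    have h3 := hq0 z hz
    have h4 : deriv q z * Complex.exp (-F z) + q z * (Complex.exp (-F z) * -(deriv q z / q z)) = 0 := by
      field_simp
      ring
    rw [← h4]
    exact h2
  have hconst : ∀ z ∈ ball (0 : ℂ) R, q z * Complex.exp (-F z) = q 0 * Complex.exp (-F 0) := by
    intro z hz
    have hdiff : DifferentiableOn ℂ (fun z => q z * Complex.exp (-F z)) (ball 0 R) :=
      fun z hz => (hder z hz).differentiableAt.differentiableWithinAt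
    refine (convex_ball (0 : ℂ) R).is_const_of_fderivWithin_eq_zero (𝕜 := ℂ) hdiff ?_ hz h0
    intro x hx
    rw [fderivWithin_of_isOpen isOpen_ball hx]
    ext
    simp [(hder x hx).deriv]
  intro z hz
  have h := hconst z hz
  rw [hF0, Complex.exp_neg, Complex.exp_neg, Complex.exp_log (hq0 0 h0),
    mul_inv_cancel₀ (hq0 0 h0)] at h
  have hne := Complex.exp_ne_zero (F z)
  field_simp at h
  exact h

/-- TARGET -/
theorem root (G : ℂ → ℂ) (r : ℝ) (hG : Cls G) (hr0 : 0 < r) (hr1 : r < 1) :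
    ∃ (L : ℂ → ℂ) (C : ℝ), DifferentiableOn ℂ L (ball 0 1) ∧
      (∀ z ∈ ball (0 : ℂ) 1, ‖L z‖ ≤ C) ∧
      ∀ z ∈ ball (0 : ℂ) 1, G ((r : ℂ) * z) = z * Complex.exp (L z) := by
  obtain ⟨hGd, hGi, hG0⟩ := hG
  have h0 : (0 : ℂ) ∈ ball (0 : ℂ) 1 := mem_ball_self one_pos
  have hgd : DifferentiableOn ℂ (dslope G 0) (ball 0 1) :=
    (differentiableOn_dslope (isOpen_ball.mem_nhds h0)).2 hGd
  have hg0 : ∀ z ∈ ball (0 : ℂ) 1, dslope G 0 z ≠ 0 := by
    intro z hz
    by_cases h : z = 0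
    · rw [h, dslope_same]
      exact aux_hreg_deriv_ne_zero_of_injOn isOpen_ball hGd hGi h0
    · rw [dslope_of_ne _ h, slope_def_field, sub_zero]
      refine div_ne_zero (sub_ne_zero.2 fun h' => h (hGi hz h0 h')) h
  have hr' : (1 : ℝ) < 1 / r := by rw [lt_div_iff₀ hr0]; linarith
  have hmaps : ∀ z ∈ ball (0 : ℂ) (1 / r), (r : ℂ) * z ∈ ball (0 : ℂ) 1 := by
    intro z hz
    rw [mem_ball_zero_iff] at hz ⊢
    rw [norm_mul, norm_real, Real.norm_of_nonneg hr0.le]
    rw [lt_div_iff₀ hr0] at hz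
    linarith
  have hrc : (r : ℂ) ≠ 0 := by exact_mod_cast hr0.ne'
  obtain ⟨L, hL, hqL⟩ := aux_root_log (fun z => (r : ℂ) * dslope G 0 ((r : ℂ) * z)) (1 / r)
    (by positivity)
    (by
      apply DifferentiableOn.const_mul
      exact hgd.comp (by fun_prop) hmaps)
    (fun z hz => mul_ne_zero hrc (hg0 _ (hmaps z hz)))
  obtain ⟨C, hC⟩ := (isCompact_closedBall (0 : ℂ) 1).exists_bound_of_continuousOn
    (hL.continuousOn.mono (closedBall_subset_ball hr'))
  refine ⟨L, C, hL.mono (ball_subset_ball hr'.le), fun z hz => hC z (ball_subset_closedBall hz), ?_⟩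
  intro z hz
  have hz' : z ∈ ball (0 : ℂ) (1 / r) := ball_subset_ball hr'.le hz
  rw [← hqL z hz']
  by_cases h : z = 0
  · rw [h]; simp [hG0]
  · rw [dslope_of_ne _ (mul_ne_zero hrc h), slope_def_field, hG0, sub_zero, sub_zero]
    field_simp

theorem t_root : S_root := fun G r hG hr0 hr1 => root G r hG hr0 hr1

end HW714
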