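import Pool.Agent.Helper714_HW.Spec

set_option autoImplicit false
open Set Metric MeasureTheory Complex Filter Topology
open scoped NNReal ENNReal

namespace HW714



/-- given: Riemann mapping theorem (starting tree: Pool.Agent.W538.JQ.rmt : W363.JQ.S_rmt, same statement) -/
def S_rmt : Prop := ∀ (W : Set ℂ) (z₀ : ℂ), IsOpen W → IsConnected W → Bornology.IsBounded W →
  IsConnected Wᶜ → z₀ ∈ W → ∃ ψ χ : ℂ → ℂ, DifferentiableOn ℂ ψ W ∧
    DifferentiableOn ℂ χ (ball 0 1) ∧ ψ z₀ = 0 ∧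
    (∀ z ∈ W, ψ z ∈ ball (0 : ℂ) 1 ∧ χ (ψ z) = z) ∧
    (∀ w ∈ ball (0 : ℂ) 1, χ w ∈ W ∧ ψ (χ w) = w)

/-- conj ∘ f ∘ conj is holomorphic on a conj-symmetric open set -/
lemma aux_sym_conj_diff (f : ℂ → ℂ) (W : Set ℂ) (hW : IsOpen W)
    (hs : ∀ z ∈ W, (starRingEnd ℂ) z ∈ W) (hf : DifferentiableOn ℂ f W) :
    DifferentiableOn ℂ (fun z => (starRingEnd ℂ) (f ((starRingEnd ℂ) z))) W := by
  intro z hz
  have h1 : DifferentiableAt ℂ f ((starRingEnd ℂ) z) :=
    hf.differentiableAt (hW.mem_nhds (hs z hz))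
  have h2 := (differentiableAt_conj_conj_iff (f := f) (x := z)).2 h1
  exact h2.differentiableWithinAt

/-- real part of exp on the strip -/
lemma aux_sym_exp_re (z : ℂ) (hz : z ∈ St) : 0 < (exp z).re := by
  rw [exp_re]
  apply mul_pos (Real.exp_pos _)
  have h := abs_lt.1 (show |z.im| < Real.pi / 2 from hz)
  exact Real.cos_pos_of_mem_Ioo ⟨by linarith [h.1], h.2⟩

lemma aux_sym_ne (e : ℂ) (he : 0 < e.re) : e + 1 ≠ 0 := by
  intro h
  have : (e + 1).re = 0 := by rw [h]; simp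
  simp at this
  linarith

lemma aux_sym_cayley_mem (e : ℂ) (he : 0 < e.re) : (e - 1) / (e + 1) ∈ ball (0 : ℂ) 1 := by
  rw [mem_ball_zero_iff, norm_div, div_lt_one (norm_pos_iff.2 (aux_sym_ne e he))]
  have h : ‖e - 1‖ ^ 2 < ‖e + 1‖ ^ 2 := by
    rw [← normSq_eq_norm_sq, ← normSq_eq_norm_sq, normSq_apply, normSq_apply]
    simp
    nlinarith
  exact lt_of_pow_lt_pow_left₀ 2 (norm_nonneg _) h

lemma aux_sym_cayley_inv (e : ℂ) (he : 0 < e.re) :
    (1 + (e - 1) / (e + 1)) / (1 - (e - 1) / (e + 1)) = e := by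
  have h1 := aux_sym_ne e he
  have h2 : 1 - (e - 1) / (e + 1) ≠ 0 := by
    rw [sub_ne_zero]
    intro h
    have h3 : e + 1 = e - 1 := by
      field_simp at h
      exact h
    have h4 : (2 : ℂ) = 0 := by linear_combination h3
    norm_num at h4
  rw [div_eq_iff h2]
  field_simp
  ring

lemma aux_sym_one_sub_ne (u : ℂ) (hu : u ∈ ball (0 : ℂ) 1) : 1 - u ≠ 0 := by
  rw [sub_ne_zero]
  rintro rfl
  simp at hu

lemma aux_sym_q_re (u : ℂ) (hu : u ∈ ball (0 : ℂ) 1) : 0 < ((1 + u) / (1 - u)).re := by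
  have h1 := aux_sym_one_sub_ne u hu
  have hpos : 0 < normSq (1 - u) := normSq_pos.2 h1
  have h2 : ((1 + u) / (1 - u)).re = (1 - normSq u) / normSq (1 - u) := by
    rw [div_re]
    rw [← add_div]
    congr 1
    simp [normSq_apply]
    ring
  rw [h2]
  apply div_pos _ hpos
  rw [mem_ball_zero_iff] at hu
  rw [normSq_eq_norm_sq]
  nlinarith [norm_nonneg u]

lemma aux_sym_q_inv (u : ℂ) (hu : u ∈ ball (0 : ℂ) 1) :
    ((1 + u) / (1 - u) - 1) / ((1 + u) / (1 - u) + 1) = u := by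
  have h1 := aux_sym_one_sub_ne u hu
  have h3 : (1 + u) / (1 - u) + 1 = 2 / (1 - u) := by field_simp; ring
  have h4 : (1 + u) / (1 - u) - 1 = 2 * u / (1 - u) := by field_simp; ring
  rw [h3, h4]
  field_simp

/-- TARGET -/
theorem sym (hR : S_rmt) (U : Set ℂ) (x : ℝ) (hU : IsOpen U) (hUc : IsConnected U)
    (hUb : Bornology.IsBounded U) (hUcc : IsConnected Uᶜ)
    (hs : ∀ z ∈ U, (starRingEnd ℂ) z ∈ U) (hx : (x : ℂ) ∈ U) :
    ∃ Θ Θi : ℂ → ℂ, DifferentiableOn ℂ Θ St ∧ DifferentiableOn ℂ Θi U ∧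
      (∀ z ∈ St, Θ z ∈ U ∧ Θi (Θ z) = z) ∧ (∀ w ∈ U, Θi w ∈ St ∧ Θ (Θi w) = w) ∧
      (∀ z ∈ St, Θ ((starRingEnd ℂ) z) = (starRingEnd ℂ) (Θ z)) := by
  obtain ⟨ψ, χ, hψd, hχd, hψ0, hψ, hχ⟩ := hR U x hU hUc hUb hUcc hx
  have hBs : ∀ z ∈ ball (0 : ℂ) 1, (starRingEnd ℂ) z ∈ ball (0 : ℂ) 1 := by
    intro z hz
    rw [mem_ball_zero_iff] at hz ⊢
    rwa [norm_conj]
  have hχ0 : χ 0 = x := by rw [← hψ0]; exact (hψ x hx).2
  -- the two maps
  set b : ℂ → ℂ := fun w => (starRingEnd ℂ) (ψ ((starRingEnd ℂ) (χ w))) with hb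
  set b' : ℂ → ℂ := fun w => ψ ((starRingEnd ℂ) (χ ((starRingEnd ℂ) w))) with hb'
  have hbm : ∀ w ∈ ball (0 : ℂ) 1, b w ∈ ball (0 : ℂ) 1 := by
    intro w hw
    exact hBs _ (hψ _ (hs _ (hχ w hw).1)).1
  have hbm' : ∀ w ∈ ball (0 : ℂ) 1, b' w ∈ ball (0 : ℂ) 1 := by
    intro w hw
    exact (hψ _ (hs _ (hχ _ (hBs w hw)).1)).1
  have hbb : ∀ w ∈ ball (0 : ℂ) 1, b' (b w) = w := by
    intro w hw
    simp only [hb, hb', Complex.conj_conj]
    rw [(hψ _ (hs _ (hχ w hw).1)).2, Complex.conj_conj, (hχ w hw).2]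
  have hb0 : b 0 = 0 := by
    simp only [hb, hχ0, conj_ofReal, hψ0, map_zero]
  have hb0' : b' 0 = 0 := by
    simp only [hb', map_zero, hχ0, conj_ofReal, hψ0]
  have hbd : DifferentiableOn ℂ b (ball 0 1) := by
    have h1 := aux_sym_conj_diff ψ U hU hs hψd
    exact h1.comp hχd (fun w hw => (hχ w hw).1)
  have hbd' : DifferentiableOn ℂ b' (ball 0 1) := by
    have h1 := aux_sym_conj_diff χ (ball 0 1) isOpen_ball hBs hχd
    exact hψd.comp h1 (fun w hw => hs _ (hχ _ (hBs w hw)).1)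
  have hnorm : ∀ w ∈ ball (0 : ℂ) 1, ‖b w‖ = ‖w‖ := by
    intro w hw
    apply le_antisymm
    · exact norm_le_norm_of_mapsTo_ball hbd
        (fun z hz => ball_subset_closedBall (hbm z hz)) hb0 (mem_ball_zero_iff.1 hw)
    · have h := norm_le_norm_of_mapsTo_ball hbd'
        (fun z hz => ball_subset_closedBall (hbm' z hz)) hb0' (mem_ball_zero_iff.1 (hbm w hw))
      rwa [hbb w hw] at h
  obtain ⟨c, hc1, hc⟩ : ∃ c : ℂ, ‖c‖ = 1 ∧ ∀ w ∈ ball (0 : ℂ) 1, b w = c * w := by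
    have hhalf : (1 / 2 : ℂ) ∈ ball (0 : ℂ) 1 := by
      rw [mem_ball_zero_iff]; norm_num
    obtain ⟨C, hC1, hC⟩ := affine_of_mapsTo_ball_of_exists_norm_dslope_eq_div' (R₂ := 1) hbd
      (fun z hz => by rw [hb0]; exact ball_subset_closedBall (hbm z hz))
      ⟨1 / 2, hhalf, by
        rw [dslope_of_ne _ (by norm_num), slope_def_field, hb0, sub_zero, sub_zero, norm_div,
          hnorm _ hhalf]
        norm_num⟩
    refine ⟨C, by rw [hC1]; norm_num, ?_⟩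
    intro w hw
    have h := hC hw
    simp only [hb0, sub_zero, zero_add, smul_eq_mul] at h
    rw [h, mul_comm]
  -- choose a
  obtain ⟨a, ha⟩ : ∃ a : ℂ, a ^ 2 = (starRingEnd ℂ) c :=
    IsSepClosed.exists_pow_nat_eq _ 2
  have ha1 : ‖a‖ = 1 := by
    have h : ‖a‖ ^ 2 = 1 := by rw [← norm_pow, ha, norm_conj, hc1]
    nlinarith [norm_nonneg a]
  have ha0 : a ≠ 0 := by
    intro h; rw [h] at ha1; simp at ha1
  have haa : a * (starRingEnd ℂ) a = 1 := by
    rw [mul_conj, normSq_eq_norm_sq, ha1]; norm_num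
  have hca : (starRingEnd ℂ) (c * a) = a := by
    rw [map_mul, ← ha, pow_two, mul_assoc, haa, mul_one]
  have ham : ∀ w ∈ ball (0 : ℂ) 1, a * w ∈ ball (0 : ℂ) 1 := by
    intro w hw
    rw [mem_ball_zero_iff] at hw ⊢
    rw [norm_mul, ha1, one_mul]; exact hw
  have ham' : ∀ w ∈ ball (0 : ℂ) 1, a⁻¹ * w ∈ ball (0 : ℂ) 1 := by
    intro w hw
    rw [mem_ball_zero_iff] at hw ⊢
    rw [norm_mul, norm_inv, ha1, inv_one, one_mul]; exact hw
  have hsymχ : ∀ w ∈ ball (0 : ℂ) 1, (starRingEnd ℂ) (χ (a * w)) = χ (a * (starRingEnd ℂ) w) := by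
    intro w hw
    have h1 : (starRingEnd ℂ) (ψ ((starRingEnd ℂ) (χ (a * w)))) = c * (a * w) := hc _ (ham w hw)
    have h2 : ψ ((starRingEnd ℂ) (χ (a * w))) = a * (starRingEnd ℂ) w := by
      have h3 := congrArg (starRingEnd ℂ) h1
      rw [Complex.conj_conj, ← mul_assoc, map_mul, hca] at h3
      exact h3
    have h4 := (hψ _ (hs _ (hχ _ (ham w hw)).1)).2
    rw [h2] at h4
    exact h4.symm
  refine ⟨fun z => χ (a * ((exp z - 1) / (exp z + 1))),
    fun w => log ((1 + a⁻¹ * ψ w) / (1 - a⁻¹ * ψ w)), ?_, ?_, ?_, ?_, ?_⟩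
  · refine hχd.comp ?_ (fun z hz => ham _ (aux_sym_cayley_mem _ (aux_sym_exp_re z hz)))
    intro z hz
    have h1 := aux_sym_ne _ (aux_sym_exp_re z hz)
    apply DifferentiableAt.differentiableWithinAt
    fun_prop (disch := assumption)
  · intro w hw
    have hu := ham' _ (hψ w hw).1
    have h1 := aux_sym_one_sub_ne _ hu
    have h2 := aux_sym_q_re _ hu
    have h3 : DifferentiableAt ℂ ψ w := hψd.differentiableAt (hU.mem_nhds hw)
    apply DifferentiableAt.differentiableWithinAt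
    apply DifferentiableAt.clog
    · fun_prop (disch := assumption)
    · exact Or.inl h2
  · intro z hz
    have he := aux_sym_exp_re z hz
    have hm := aux_sym_cayley_mem _ he
    refine ⟨(hχ _ (ham _ hm)).1, ?_⟩
    simp only []
    rw [(hχ _ (ham _ hm)).2, inv_mul_cancel_left₀ ha0, aux_sym_cayley_inv _ he]
    have h := abs_lt.1 (show |z.im| < Real.pi / 2 from hz)
    exact log_exp (by linarith [h.1, Real.pi_pos]) (by linarith [h.2, Real.pi_pos])
  · intro w hw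
    have hu := ham' _ (hψ w hw).1
    have h1 := aux_sym_one_sub_ne _ hu
    have h2 := aux_sym_q_re _ hu
    refine ⟨?_, ?_⟩
    · show |(log _).im| < Real.pi / 2
      rw [log_im]
      exact abs_arg_lt_pi_div_two_iff.2 (Or.inl h2)
    · simp only []
      have h3 : (1 + a⁻¹ * ψ w) / (1 - a⁻¹ * ψ w) ≠ 0 := by
        intro h; rw [h] at h2; simp at h2
      rw [exp_log h3, aux_sym_q_inv _ hu, mul_inv_cancel_left₀ ha0]
      exact (hψ w hw).2
  · intro z hz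
    have he := aux_sym_exp_re z hz
    have hm := aux_sym_cayley_mem _ he
    simp only []
    rw [hsymχ _ hm]
    congr 2
    rw [exp_conj, map_div₀, map_sub, map_add, map_one]

theorem t_sym (hR : S_rmt) : S_sym := fun U x hU hUc hUb hUcc hs hx => sym hR U x hU hUc hUb hUcc hs hx

end HW714
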