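import Pool.Agent.Helper714_HW.Struct

/-!
# Hayman-Wu constant: tools for the lower bound
-/

set_option autoImplicit false
open Set Metric MeasureTheory Complex Filter Topology
open scoped NNReal ENNReal

namespace HW714

lemma meas_pre {F : ℂ → ℂ} {O : Set ℂ} (hO : MeasurableSet O) (hF : ContinuousOn F O) {B : Set ℂ}
    (hB : MeasurableSet B) : MeasurableSet {z ∈ O | F z ∈ B} := by
  have h1 : {z ∈ O | F z ∈ B} = (fun z : O => (z : ℂ)) '' ((fun z : O => F z) ⁻¹' B) := by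
    ext z
    constructor
    · rintro ⟨h1, h2⟩
      exact ⟨⟨z, h1⟩, h2, rfl⟩
    · rintro ⟨⟨w, hw⟩, h2, rfl⟩
      exact ⟨hw, h2⟩
  rw [h1]
  have h2 : Measurable (fun z : O => F z) := (continuousOn_iff_continuous_restrict.1 hF).measurable
  exact MeasurableSet.subtype_image hO (h2 hB)

lemma hm_ge {A : Set ℂ} (hA : IsPreconnected A) {p q : ℂ} (hp : p ∈ A) (hq : q ∈ A) :
    ENNReal.ofReal (dist p q) ≤ μH[1] A := by
  have h1 : LipschitzWith 1 (fun z : ℂ => dist p z) := LipschitzWith.dist_right p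
  have h2 := h1.hausdorffMeasure_image_le (d := 1) (by norm_num) A
  rw [ENNReal.coe_one, ENNReal.one_rpow, one_mul] at h2
  refine le_trans ?_ h2
  have h3 : IsPreconnected ((fun z : ℂ => dist p z) '' A) :=
    hA.image _ h1.continuous.continuousOn
  have h4 : Icc 0 (dist p q) ⊆ (fun z : ℂ => dist p z) '' A :=
    h3.Icc_subset ⟨p, hp, dist_self p⟩ ⟨q, hq, rfl⟩
  calc ENNReal.ofReal (dist p q) = μH[1] (Icc 0 (dist p q)) := by
        rw [hausdorffMeasure_real, Real.volume_Icc, sub_zero]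
    _ ≤ _ := measure_mono h4

/-- the root transform -/
noncomputable def GN (L : ℂ → ℂ) (N : ℕ) (z : ℂ) : ℂ := z * Complex.exp (L (z ^ N) / N)

section root

variable {G L : ℂ → ℂ} {r C : ℝ} {N : ℕ}

lemma pow_mem_ball {z : ℂ} (hz : z ∈ ball (0 : ℂ) 1) (hN : N ≠ 0) : z ^ N ∈ ball (0 : ℂ) 1 := by
  rw [mem_ball_zero_iff] at *
  rw [norm_pow]
  exact pow_lt_one₀ (norm_nonneg z) hz hN

lemma mul_mem_ball' {z : ℂ} (hz : z ∈ ball (0 : ℂ) 1) (hr0 : 0 < r) (hr1 : r < 1) :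
    (r : ℂ) * z ∈ ball (0 : ℂ) 1 := by
  rw [mem_ball_zero_iff] at *
  rw [norm_mul, Complex.norm_real, Real.norm_of_nonneg hr0.le]
  nlinarith [norm_nonneg z]

lemma GN_pow (hL : ∀ z ∈ ball (0 : ℂ) 1, G ((r : ℂ) * z) = z * Complex.exp (L z)) (hN : N ≠ 0)
    {z : ℂ} (hz : z ∈ ball (0 : ℂ) 1) : GN L N z ^ N = G ((r : ℂ) * z ^ N) := by
  have hN' : (N : ℂ) ≠ 0 := by exact_mod_cast hN
  rw [hL _ (pow_mem_ball hz hN), GN, mul_pow, ← Complex.exp_nat_mul, mul_div_cancel₀ _ hN']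

lemma GN_diff (hLd : DifferentiableOn ℂ L (ball 0 1)) (hN : N ≠ 0) :
    DifferentiableOn ℂ (GN L N) (ball 0 1) := by
  unfold GN
  apply differentiableOn_id.mul
  apply DifferentiableOn.cexp
  apply DifferentiableOn.div_const
  exact hLd.comp (differentiable_id.pow N).differentiableOn (fun z hz => pow_mem_ball hz hN)

lemma GN_inj (hG : Cls G) (hr0 : 0 < r) (hr1 : r < 1)
    (hL : ∀ z ∈ ball (0 : ℂ) 1, G ((r : ℂ) * z) = z * Complex.exp (L z)) (hN : N ≠ 0) :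
    InjOn (GN L N) (ball 0 1) := by
  intro z hz w hw h
  have h1 : G ((r : ℂ) * z ^ N) = G ((r : ℂ) * w ^ N) := by
    rw [← GN_pow hL hN hz, ← GN_pow hL hN hw, h]
  have h2 := hG.2.1 (mul_mem_ball' (pow_mem_ball hz hN) hr0 hr1)
    (mul_mem_ball' (pow_mem_ball hw hN) hr0 hr1) h1
  have h3 : z ^ N = w ^ N := mul_left_cancel₀ (by exact_mod_cast hr0.ne') h2
  unfold GN at h
  rw [h3] at h
  exact mul_right_cancel₀ (Complex.exp_ne_zero _) h

lemma GN_zero : GN L N 0 = 0 := by simp [GN]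

lemma GN_close (hC : ∀ z ∈ ball (0 : ℂ) 1, ‖L z‖ ≤ C) (hN : N ≠ 0) (hCN : C ≤ N)
    {z : ℂ} (hz : z ∈ ball (0 : ℂ) 1) : ‖GN L N z - z‖ ≤ 2 * C / N := by
  have hN0 : (0 : ℝ) < N := by exact_mod_cast Nat.pos_of_ne_zero hN
  have h1 : GN L N z - z = z * (Complex.exp (L (z ^ N) / N) - 1) := by
    unfold GN
    ring
  have h2 : ‖L (z ^ N) / N‖ ≤ C / N := by
    rw [norm_div, Complex.norm_natCast]
    exact div_le_div_of_nonneg_right (hC _ (pow_mem_ball hz hN)) hN0.le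
  have h3 : ‖L (z ^ N) / N‖ ≤ 1 := h2.trans (by rw [div_le_one hN0]; exact hCN)
  have h4 := Complex.norm_exp_sub_one_le h3
  have hz' : ‖z‖ < 1 := by simpa using hz
  rw [h1, norm_mul]
  calc ‖z‖ * ‖Complex.exp (L (z ^ N) / N) - 1‖
      ≤ 1 * (2 * ‖L (z ^ N) / N‖) := by
        apply mul_le_mul hz'.le h4 (norm_nonneg _) zero_le_one
    _ ≤ 2 * C / N := by
        rw [one_mul, mul_div_assoc]
        linarith

lemma GN_norm (hL : ∀ z ∈ ball (0 : ℂ) 1, G ((r : ℂ) * z) = z * Complex.exp (L z)) (hN : N ≠ 0)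
    {z : ℂ} (hz : z ∈ ball (0 : ℂ) 1) : ‖GN L N z‖ = 1 ↔ ‖G ((r : ℂ) * z ^ N)‖ = 1 := by
  rw [← GN_pow hL hN hz, norm_pow]
  constructor
  · intro h
    rw [h, one_pow]
  · intro h
    exact (pow_eq_one_iff_of_nonneg (norm_nonneg _) hN).1 h

end root

/-- solving w = g u for a map close to the identity -/
lemma solve_near {g : ℂ → ℂ} {w : ℂ} {δ ε : ℝ} (hδ : 0 < δ) (hε : 4 * ε < δ)
    (hsub : closedBall w δ ⊆ ball 0 1) (hg : DifferentiableOn ℂ g (ball 0 1))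
    (hc : ∀ z ∈ ball (0 : ℂ) 1, ‖g z - z‖ ≤ ε) : ∃ u ∈ closedBall w δ, g u = w := by
  have hw : w ∈ ball (0 : ℂ) 1 := hsub (mem_closedBall_self hδ.le)
  have hε0 : 0 ≤ ε := (norm_nonneg _).trans (hc w hw)
  have h1 : DiffContOnCl ℂ g (ball w δ) := by
    apply DifferentiableOn.diffContOnCl
    rw [closure_ball _ hδ.ne']
    exact hg.mono hsub
  have h2 : ∀ z ∈ sphere w δ, δ - 2 * ε ≤ ‖g z - g w‖ := by
    intro z hz
    have hz1 : z ∈ ball (0 : ℂ) 1 := hsub (sphere_subset_closedBall hz)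
    have h3 := hc z hz1
    have h4 := hc w hw
    have h5 : ‖z - w‖ = δ := by simpa [dist_eq_norm] using hz
    have h6 : z - w = (g z - g w) - (g z - z) + (g w - w) := by ring
    have h7 : ‖z - w‖ ≤ ‖g z - g w‖ + ‖g z - z‖ + ‖g w - w‖ := by
      rw [h6]
      exact (norm_add_le _ _).trans (add_le_add_left (norm_sub_le _ _) _)
    linarith
  have h3 : ∃ᶠ z in 𝓝 w, g z ≠ g w := by
    intro hcon
    have h4 : ∀ᶠ z in 𝓝 w, g z = g w := by
      filter_upwards [hcon] with z hz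
      exact not_not.1 hz
    have h5 : AnalyticOnNhd ℂ g (ball 0 1) := hg.analyticOnNhd isOpen_ball
    have h6 : EqOn g (fun _ => g w) (ball 0 1) :=
      h5.eqOn_of_preconnected_of_eventuallyEq analyticOnNhd_const
        (convex_ball (0 : ℂ) 1).isPreconnected hw h4
    have hz : w + (δ : ℂ) ∈ sphere w δ := by
      simp [abs_of_pos hδ]
    have h7 := h2 _ hz
    rw [h6 (hsub (sphere_subset_closedBall hz))] at h7
    simp at h7
    linarith
  have h4 := h1.ball_subset_image_closedBall hδ h2 h3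
  have h5 : w ∈ ball (g w) ((δ - 2 * ε) / 2) := by
    rw [mem_ball, dist_comm, dist_eq_norm]
    have := hc w hw
    linarith
  obtain ⟨u, hu, h6⟩ := h4 h5
  exact ⟨u, hu, h6⟩

end HW714
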