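import Pool.Agent.Helper714_HW.Low1

/-!
# Hayman-Wu constant: one sector of the root transform
-/

set_option autoImplicit false
open Set Metric MeasureTheory Complex Filter Topology
open scoped NNReal ENNReal

namespace HW714

/-- an N-th root with argument in a prescribed interval -/
lemma exists_root {v : ℂ} (hv : v ≠ 0) {N : ℕ} (hN : N ≠ 0) {a : ℝ} (ha : -Real.pi ≤ a)
    (ha2 : a + 2 * Real.pi / N ≤ Real.pi) :
    ∃ u : ℂ, u ^ N = v ∧ u.arg ∈ Ioc a (a + 2 * Real.pi / N) ∧ u ≠ 0 := by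
  have hN0 : (0 : ℝ) < N := by exact_mod_cast Nat.pos_of_ne_zero hN
  have hNc : (N : ℂ) ≠ 0 := by exact_mod_cast hN
  obtain ⟨m, hm, -⟩ := existsUnique_add_zsmul_mem_Ioc (by positivity : (0 : ℝ) < 2 * Real.pi)
    v.arg (N * a)
  simp only [zsmul_eq_mul] at hm
  set θ : ℝ := (v.arg + m * (2 * Real.pi)) / N with hθ
  have h1 : a < θ := by
    rw [hθ, lt_div_iff₀ hN0]
    linarith [hm.1]
  have h2 : θ ≤ a + 2 * Real.pi / N := by
    rw [hθ, div_le_iff₀ hN0, add_mul, div_mul_cancel₀ _ hN0.ne']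
    linarith [hm.2]
  have h3 : θ ∈ Ioc (-Real.pi) Real.pi := ⟨by linarith, by linarith⟩
  have hρ : 0 < ‖v‖ ^ (1 / (N : ℝ)) := by
    have : 0 < ‖v‖ := norm_pos_iff.2 hv
    positivity
  refine ⟨((‖v‖ ^ (1 / (N : ℝ)) : ℝ) : ℂ) * Complex.exp (θ * Complex.I), ?_, ?_, ?_⟩
  · rw [mul_pow, ← Complex.ofReal_pow, ← Real.rpow_natCast, ← Real.rpow_mul (norm_nonneg v),
      one_div, inv_mul_cancel₀ hN0.ne', Real.rpow_one, ← Complex.exp_nat_mul]
    have h4 : (N : ℂ) * (θ * Complex.I) = v.arg * Complex.I + m * (2 * Real.pi * Complex.I) := by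
      rw [hθ]
      push_cast
      field_simp
    rw [h4, Complex.exp_add, Complex.exp_int_mul_two_pi_mul_I, mul_one]
    exact Complex.norm_mul_exp_arg_mul_I v
  · rw [Complex.arg_real_mul _ hρ, Complex.arg_exp_mul_I,
      (toIocMod_eq_self Real.two_pi_pos).2 ⟨h3.1, by linarith [h3.2]⟩]
    exact ⟨h1, h2⟩
  · apply mul_ne_zero
    · exact_mod_cast hρ.ne'
    · exact Complex.exp_ne_zero _

/-- one sector -/
lemma sector (h_lip : S_lip) {G L h k : ℂ → ℂ} {r η ψ a : ℝ} {N : ℕ} (hN : N ≠ 0)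
    (hG : Cls G) (hr0 : 0 < r) (hr1 : r < 1) (hη : 0 < η)
    (hLd : DifferentiableOn ℂ L (ball 0 1))
    (hL : ∀ z ∈ ball (0 : ℂ) 1, G ((r : ℂ) * z) = z * Complex.exp (L z))
    (hd : DifferentiableOn ℂ h (ball 0 1)) (hm : MapsTo h (ball 0 1) (ball 0 1))
    (hk : ∀ z ∈ ball (0 : ℂ) 1, k (h z) = z)
    (hY : ∀ u ∈ ball (0 : ℂ) 1, ψ ≤ |u.arg| → k u ∈ ball (0 : ℂ) 1 ∧ h (k u) = u ∧
        ‖deriv h (k u)‖ ≤ 1 + η)
    (ha : -Real.pi ≤ a) (ha2 : a + 2 * Real.pi / N ≤ Real.pi)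
    (hψ : ∀ θ ∈ Ioc a (a + 2 * Real.pi / N), ψ ≤ |θ|) :
    μH[1] {z ∈ ball (0 : ℂ) 1 | ‖G ((r : ℂ) * z)‖ = 1} ≤
      ENNReal.ofReal (N * (1 + 2 * η)) *
        μH[1] {z ∈ ball (0 : ℂ) 1 | (h z).arg ∈ Ioc a (a + 2 * Real.pi / N) ∧
          ‖GN L N (h z)‖ = 1} := by
  have hN0 : (0 : ℝ) < N := by exact_mod_cast Nat.pos_of_ne_zero hN
  set S : Set ℂ := {z ∈ ball (0 : ℂ) 1 | (h z).arg ∈ Ioc a (a + 2 * Real.pi / N) ∧
          ‖GN L N (h z)‖ = 1} with hS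
  have hSb : S ⊆ ball 0 1 := fun z hz => hz.1
  have hGNc : ContinuousOn (GN L N) (ball 0 1) := (GN_diff hLd hN).continuousOn
  have hSm : MeasurableSet S := by
    have h1 : MeasurableSet {z ∈ ball (0 : ℂ) 1 | h z ∈ {u : ℂ | u.arg ∈ Ioc a (a + 2 * Real.pi / N)}} :=
      meas_pre isOpen_ball.measurableSet hd.continuousOn (Complex.measurable_arg measurableSet_Ioc)
    have h2 : MeasurableSet {z ∈ ball (0 : ℂ) 1 | (fun z => GN L N (h z)) z ∈ sphere (0 : ℂ) 1} :=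
      meas_pre isOpen_ball.measurableSet (hGNc.comp hd.continuousOn hm)
        isClosed_sphere.measurableSet
    have h3 : S = {z ∈ ball (0 : ℂ) 1 | h z ∈ {u : ℂ | u.arg ∈ Ioc a (a + 2 * Real.pi / N)}} ∩
        {z ∈ ball (0 : ℂ) 1 | (fun z => GN L N (h z)) z ∈ sphere (0 : ℂ) 1} := by
      ext z
      simp only [hS, mem_setOf_eq, mem_inter_iff, mem_sphere_iff_norm, sub_zero]
      tauto
    rw [h3]
    exact h1.inter h2
  have hq : DifferentiableOn ℂ (fun z => h z ^ N) (ball 0 1) := hd.pow N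
  have hder : ∀ z ∈ S, ‖deriv (fun z => h z ^ N) z‖ < N * (1 + 2 * η) := by
    rintro z ⟨hz, harg, hnorm⟩
    have h1 := (hd.differentiableAt (isOpen_ball.mem_nhds hz)).hasDerivAt
    have h2 : HasDerivAt (fun z => h z ^ N) (N * h z ^ (N - 1) * deriv h z) z := h1.pow N
    rw [h2.deriv]
    have h3 : ‖h z‖ < 1 := by simpa using hm hz
    have h4 := (hY (h z) (hm hz) (hψ _ harg)).2.2
    rw [hk z hz] at h4
    rw [norm_mul, norm_mul, norm_pow, Complex.norm_natCast]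
    have h5 : ‖h z‖ ^ (N - 1) ≤ 1 := pow_le_one₀ (norm_nonneg _) h3.le
    have h6 : (N : ℝ) * ‖h z‖ ^ (N - 1) * ‖deriv h z‖ ≤ N * (1 + η) := by
      rw [mul_assoc]
      apply mul_le_mul_of_nonneg_left _ hN0.le
      calc ‖h z‖ ^ (N - 1) * ‖deriv h z‖ ≤ 1 * (1 + η) :=
            mul_le_mul h5 h4 (norm_nonneg _) zero_le_one
        _ = 1 + η := one_mul _
    refine lt_of_le_of_lt h6 ?_
    apply mul_lt_mul_of_pos_left _ hN0
    linarith
  have h7 := h_lip (ball 0 1) S (fun z => h z ^ N) (N * (1 + 2 * η)) isOpen_ball hq hSb hSm hder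
  refine (measure_mono ?_).trans h7
  rintro v ⟨hv, hv1⟩
  have hv0 : v ≠ 0 := by
    rintro rfl
    rw [mul_zero, hG.2.2, norm_zero] at hv1
    exact zero_ne_one hv1
  obtain ⟨u, hu, harg, hu0⟩ := exists_root hv0 hN ha ha2
  have hub : u ∈ ball (0 : ℂ) 1 := by
    rw [mem_ball_zero_iff]
    by_contra hcon
    have h8 : 1 ≤ ‖u‖ ^ N := one_le_pow₀ (not_lt.1 hcon)
    rw [← norm_pow, hu] at h8
    have h9 : ‖v‖ < 1 := by simpa using hv
    linarith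
  obtain ⟨hku, hhk, -⟩ := hY u hub (hψ _ harg)
  refine ⟨k u, ⟨hku, ?_, ?_⟩, ?_⟩
  · rw [hhk]
    exact harg
  · rw [hhk, GN_norm hL hN hub, hu]
    exact hv1
  · show h (k u) ^ N = v
    rw [hhk, hu]

end HW714
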