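import Pool.Agent.Helper714_HW.Low2
import Pool.Agent.Helper714_HW.JOpen
import Pool.Agent.Helper714_HW.JClose
import Pool.Agent.Helper714_HW.JChord
import Pool.Agent.Helper714_HW.JRoot
import Pool.Agent.Helper714_HW.JLip

/-!
# Hayman-Wu constant: the step of the lower bound
-/

set_option autoImplicit false
open Set Metric MeasureTheory Complex Filter Topology
open scoped NNReal ENNReal

namespace HW714

lemma dilate (P : ℂ → Prop) {r : ℝ} (hr0 : 0 < r) (hr1 : r < 1) :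
    μH[1] {z ∈ ball (0 : ℂ) r | P z} ≤ μH[1] {z ∈ ball (0 : ℂ) 1 | P ((r : ℂ) * z)} := by
  have himg : {z ∈ ball (0 : ℂ) r | P z} ⊆
      (fun z : ℂ => (r : ℂ) * z) '' {z ∈ ball (0 : ℂ) 1 | P ((r : ℂ) * z)} := by
    rintro z ⟨hz, him⟩
    have hz' : ‖z‖ < r := by simpa using hz
    have hrc : (r : ℂ) ≠ 0 := by exact_mod_cast hr0.ne'
    refine ⟨z / r, ⟨?_, ?_⟩, ?_⟩
    · rw [mem_ball_zero_iff, norm_div, Complex.norm_real, Real.norm_of_nonneg hr0.le,
        div_lt_one hr0]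
      exact hz'
    · show P ((r : ℂ) * (z / r))
      rw [mul_div_cancel₀ _ hrc]
      exact him
    · show (r : ℂ) * (z / r) = z
      rw [mul_div_cancel₀ _ hrc]
  have hlip : LipschitzWith 1 (fun z : ℂ => (r : ℂ) * z) := by
    apply LipschitzWith.of_dist_le_mul
    intro z w
    rw [NNReal.coe_one, one_mul, dist_eq_norm, dist_eq_norm, ← mul_sub, norm_mul,
      Complex.norm_real, Real.norm_of_nonneg hr0.le]
    nlinarith [norm_nonneg (z - w)]
  have h2 := hlip.hausdorffMeasure_image_le (d := 1) (by norm_num)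
    {z ∈ ball (0 : ℂ) 1 | P ((r : ℂ) * z)}
  rw [ENNReal.coe_one, ENNReal.one_rpow, one_mul] at h2
  exact (measure_mono himg).trans h2

lemma exhaust (P : ℂ → Prop) {y : ℝ≥0∞} (hy : y < μH[1] {z ∈ ball (0 : ℂ) 1 | P z}) :
    ∃ r : ℝ, 0 < r ∧ r < 1 ∧ y < μH[1] {z ∈ ball (0 : ℂ) 1 | P ((r : ℂ) * z)} := by
  have hmono : Monotone (fun n : ℕ => {z ∈ ball (0 : ℂ) ((n + 1 : ℝ) / (n + 2)) | P z}) := by
    intro n m hnm z hz
    refine ⟨?_, hz.2⟩
    apply ball_subset_ball _ hz.1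
    have : (n : ℝ) ≤ m := by exact_mod_cast hnm
    rw [div_le_div_iff₀ (by positivity) (by positivity)]
    nlinarith
  have hun : {z ∈ ball (0 : ℂ) 1 | P z} =
      ⋃ n : ℕ, {z ∈ ball (0 : ℂ) ((n + 1 : ℝ) / (n + 2)) | P z} := by
    ext z
    simp only [mem_iUnion]
    constructor
    · rintro ⟨hz, him⟩
      have hz' : ‖z‖ < 1 := by simpa using hz
      obtain ⟨n, hn⟩ := exists_nat_gt (1 / (1 - ‖z‖))
      refine ⟨n, ?_, him⟩
      rw [mem_ball_zero_iff, lt_div_iff₀ (by positivity)]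
      have h1 : 0 < 1 - ‖z‖ := by linarith
      rw [div_lt_iff₀ h1] at hn
      nlinarith [norm_nonneg z]
    · rintro ⟨n, hz, him⟩
      refine ⟨?_, him⟩
      apply ball_subset_ball _ hz
      rw [div_le_one (by positivity)]
      linarith
  rw [hun, hmono.measure_iUnion] at hy
  obtain ⟨n, hn⟩ := lt_iSup_iff.1 hy
  have hr0 : (0 : ℝ) < (n + 1 : ℝ) / (n + 2) := by positivity
  have hr1 : ((n : ℝ) + 1) / (n + 2) < 1 := by
    rw [div_lt_one (by positivity)]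
    linarith
  exact ⟨_, hr0, hr1, lt_of_lt_of_le hn (dilate P hr0 hr1)⟩

lemma zz_im {α s : ℝ} (hα : 1 < α) (hs : 0 < s) :
    0 < ((s : ℂ) * Complex.exp ((Real.pi / α : ℝ) * Complex.I)).im := by
  rw [Complex.im_ofReal_mul, Complex.exp_ofReal_mul_I_im]
  have h1 : 0 < Real.pi / α := div_pos Real.pi_pos (by linarith)
  have h2 : Real.pi / α < Real.pi := by
    rw [div_lt_iff₀ (by linarith)]
    nlinarith [Real.pi_pos]
  exact mul_pos hs (Real.sin_pos_of_pos_of_lt_pi h1 h2)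

lemma zz_cont {φ α : ℝ} (h0 : 0 < φ) (h1 : φ < Real.pi) (hα : 1 < α) :
    ContinuousOn (fun s : ℝ => zz φ α s) (Ioi 0) := by
  intro s hs
  have hne := (aux_open_Mo_norm_lt_one φ h0 h1 _ (zz_im hα hs)).1
  have h2 := (aux_open_Mo_diff φ _ hne).continuousAt
  have h3 : ContinuousAt (fun s : ℝ => (s : ℂ) * Complex.exp ((Real.pi / α : ℝ) * Complex.I)) s :=
    (Complex.continuous_ofReal.mul continuous_const).continuousAt
  have h4 := ContinuousAt.comp (g := Mo φ)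
    (f := fun s : ℝ => (s : ℂ) * Complex.exp ((Real.pi / α : ℝ) * Complex.I)) h2 h3
  exact h4.continuousWithinAt

/-- the numbers of the step -/
lemma step_numbers {x η q : ℝ} (hx : 0 ≤ x) (hη : 0 < η) (hq : 0 ≤ q) (hq1 : q ≤ 1) {n : ℕ}
    {N m : ℕ} {δ S : ℝ} (hN : (0 : ℝ) < N) (hδ0 : 0 < δ) (hδ : δ ≤ η / (8 * (x + 1)))
    (hδ2 : 2 * n * (2 * δ) ≤ η / 2)
    (hNx : 8 * x / η ≤ N) (hm : q - 2 / N ≤ 2 * m / N) :
    S + q * x - η ≤ (S - 2 * n * (2 * δ)) + 2 * m * (x / (N * (1 + 2 * δ))) := by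
  have h1 : 0 < 1 + 2 * δ := by linarith
  have h2 : 2 * (m : ℝ) * (x / (N * (1 + 2 * δ))) = (2 * m / N) * (x / (1 + 2 * δ)) := by
    field_simp
  rw [h2]
  have h3 : 0 ≤ x / (1 + 2 * δ) := by positivity
  have h4 : (q - 2 / N) * (x / (1 + 2 * δ)) ≤ (2 * m / N) * (x / (1 + 2 * δ)) :=
    mul_le_mul_of_nonneg_right hm h3
  have h5 : x * (1 - 2 * δ) ≤ x / (1 + 2 * δ) := by
    rw [le_div_iff₀ h1]
    nlinarith [mul_nonneg hx (mul_pos hδ0 hδ0).le]
  have h6 : x / (1 + 2 * δ) ≤ x := by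
    rw [div_le_iff₀ h1]
    nlinarith
  have h7 : 2 / (N : ℝ) * (x / (1 + 2 * δ)) ≤ η / 4 := by
    calc 2 / (N : ℝ) * (x / (1 + 2 * δ)) ≤ 2 / N * x := by
          apply mul_le_mul_of_nonneg_left h6
          positivity
      _ ≤ η / 4 := by
          rw [div_mul_eq_mul_div, div_le_iff₀ hN]
          rw [div_le_iff₀ hη] at hNx
          linarith
  have h8 : 2 * δ * x ≤ η / 4 := by
    have h9 : δ * (8 * (x + 1)) ≤ η := by
      rwa [le_div_iff₀ (by positivity)] at hδ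
    nlinarith
  have h10 : q * (x * (1 - 2 * δ)) ≤ q * (x / (1 + 2 * δ)) := mul_le_mul_of_nonneg_left h5 hq
  have h11 : q * (2 * δ * x) ≤ 1 * (2 * δ * x) :=
    mul_le_mul_of_nonneg_right hq1 (by positivity)
  nlinarith

end HW714
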