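import Pool.Agent.Helper714_HW.Low3

/-!
# Hayman-Wu constant: the step of the lower bound
-/

set_option autoImplicit false
open Set Metric MeasureTheory Complex Filter Topology
open scoped NNReal ENNReal

namespace HW714

/-- disjoint measurable pieces -/
lemma sum_le_measure {ι : Type} (F : Finset ι) {A : ι → Set ℂ} {T : Set ℂ}
    (hm : ∀ i ∈ F, MeasurableSet (A i)) (hd : ∀ i ∈ F, ∀ j ∈ F, i ≠ j → Disjoint (A i) (A j))
    (hT : ∀ i ∈ F, A i ⊆ T) : ∑ i ∈ F, μH[1] (A i) ≤ μH[1] T := by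
  rw [← measure_biUnion_finset (fun i hi j hj hij => hd i hi j hj hij) hm]
  exact measure_mono (iUnion₂_subset hT)

lemma ofReal_sum_le' (F : Finset ℕ) (f : ℕ → ℝ) :
    ENNReal.ofReal (∑ i ∈ F, f i) ≤ ∑ i ∈ F, ENNReal.ofReal (f i) := by
  classical
  induction F using Finset.induction_on with
  | empty => simp
  | insert a s ha ih =>
    rw [Finset.sum_insert ha, Finset.sum_insert ha]
    exact ENNReal.ofReal_add_le.trans (add_le_add le_rfl ih)

theorem step (h_root : S_root) (h_close : S_close) (h_open : S_open) (h_lip : S_lip) :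
    S_step := by
  intro G φ ψ α x η n t hG h0 h1 h2 hα hα2 hx hxE hη ht0 htm
  have hpi := Real.pi_pos
  have hφπ : φ < Real.pi := by linarith
  -- step 0: the dilation
  obtain ⟨r, hr0, hr1, hE⟩ := exhaust (fun z => ‖G z‖ = 1) hxE
  set E : Set ℂ := {z ∈ ball (0 : ℂ) 1 | ‖G ((r : ℂ) * z)‖ = 1} with hEdef
  -- step 1: the logarithm
  obtain ⟨L, C, hLd, hC, hL⟩ := h_root G r hG hr0 hr1
  have hC0 : 0 ≤ C := (norm_nonneg _).trans (hC 0 (mem_ball_self one_pos))
  -- step 2: the opening map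
  obtain ⟨o1, o2, o3, o4, o5, -, -, -, -⟩ := h_open φ α h0 hα hα2
  -- the arc
  have hmono : ∀ j ≤ n, ∀ i ≤ j, t i ≤ t j := by
    intro j
    induction j with
    | zero => intro _ i hi; rw [Nat.le_zero.1 hi]
    | succ j ih =>
      intro hj i hi
      rcases Nat.lt_or_ge i (j + 1) with h | h
      · exact (ih (by omega) i (by omega)).trans (htm j (by omega)).le
      · rw [le_antisymm hi h]
  set K0 : Set ℂ := (fun s : ℝ => zz φ α s) '' Icc (t 0) (t n) with hK0
  have hIcc : Icc (t 0) (t n) ⊆ Ioi 0 := fun s hs => lt_of_lt_of_le (ht0 0 (Nat.zero_le n)) hs.1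
  have hzc := zz_cont h0 hφπ hα
  have hK0c : IsCompact K0 := isCompact_Icc.image_of_continuousOn (hzc.mono hIcc)
  have hK0b : K0 ⊆ ball 0 1 := by
    rintro _ ⟨s, hs, rfl⟩
    exact (o4 s (hIcc hs)).1
  obtain ⟨δ₀, hδ₀, hδ₀s⟩ := hK0c.exists_cthickening_subset_open isOpen_ball hK0b
  -- the small parameter
  set δ : ℝ := min δ₀ (min (η / (8 * (x + 1))) (η / (8 * (n + 1)))) with hδdef
  have hδ : 0 < δ := by
    rw [hδdef]
    apply lt_min hδ₀ (lt_min _ _) <;> positivity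
  have hδ1 : δ ≤ δ₀ := min_le_left _ _
  have hδ2 : δ ≤ η / (8 * (x + 1)) := (min_le_right _ _).trans (min_le_left _ _)
  have hδ3 : δ ≤ η / (8 * (n + 1)) := (min_le_right _ _).trans (min_le_right _ _)
  have hδ4 : 2 * (n : ℝ) * (2 * δ) ≤ η / 2 := by
    rw [le_div_iff₀ (by positivity)] at hδ3
    nlinarith
  set K : Set ℂ := cthickening δ K0 with hK
  have hKc : IsCompact K := hK0c.cthickening
  have hKb : K ⊆ ball 0 1 := (cthickening_mono hδ1 _).trans hδ₀s
  obtain ⟨h, k, c1, c2, c3, c4, ⟨c, hc, c5⟩, c6, c7⟩ :=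
    h_close φ ψ K δ h0 h1 h2 hKc hKb hδ
  -- step 3: N
  obtain ⟨N, hN⟩ := exists_nat_gt (max (max 1 C) (max (2 * C / c) (max (8 * C / δ)
    (8 * x / η))))
  have hN1 : (1 : ℝ) < N := lt_of_le_of_lt ((le_max_left _ _).trans (le_max_left _ _)) hN
  have hN2 : C < N := lt_of_le_of_lt ((le_max_right _ _).trans (le_max_left _ _)) hN
  have hN3 : 2 * C / c < N := lt_of_le_of_lt ((le_max_left _ _).trans (le_max_right _ _)) hN
  have hN4 : 8 * C / δ < N := lt_of_le_of_lt
    (((le_max_left _ _).trans (le_max_right _ _)).trans (le_max_right _ _)) hN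
  have hN5 : 8 * x / η < N := lt_of_le_of_lt
    (((le_max_right _ _).trans (le_max_right _ _)).trans (le_max_right _ _)) hN
  have hN0 : (0 : ℝ) < N := by linarith
  have hNne : N ≠ 0 := by
    rintro rfl
    simp at hN0
  have hg1 : DifferentiableOn ℂ (GN L N) (ball 0 1) := GN_diff hLd hNne
  have hg2 : InjOn (GN L N) (ball 0 1) := GN_inj hG hr0 hr1 hL hNne
  have hg3 : ∀ z ∈ ball (0 : ℂ) 1, ‖GN L N z - z‖ ≤ 2 * C / N := fun z hz =>
    GN_close hC hNne hN2.le hz
  have hsm : 2 * C / N < c := by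
    rw [div_lt_iff₀ hc] at hN3
    rw [div_lt_iff₀ hN0]
    linarith
  have hsm2 : 4 * (2 * C / N) < δ := by
    rw [div_lt_iff₀ hδ] at hN4
    rw [← mul_div_assoc, div_lt_iff₀ hN0]
    linarith
  -- the map F
  set F : ℂ → ℂ := fun z => GN L N (h z) with hF
  have hFd : DifferentiableOn ℂ F (ball 0 1) := hg1.comp c1 c2
  have hhi : InjOn h (ball 0 1) := by
    intro z hz w hw hzw
    rw [← c4 z hz, ← c4 w hw, hzw]
  have hFi : InjOn F (ball 0 1) := fun z hz w hw hzw => hhi hz hw (hg2 (c2 hz) (c2 hw) hzw)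
  have hFU : MapsTo F (ball 0 1) (UU φ) := by
    intro z hz
    have h3 := hg3 (h z) (c2 hz)
    show ‖GN L N (h z)‖ < 1 ∨ (GN L N (h z)).re < Real.cos φ
    by_cases hre : Real.cos φ - c ≤ (h z).re
    · left
      have h4 := c5 z hz hre
      have h5 : ‖GN L N (h z)‖ ≤ ‖h z‖ + ‖GN L N (h z) - h z‖ := by
        have := norm_add_le (h z) (GN L N (h z) - h z)
        simpa using this
      linarith
    · right
      have h4 := (abs_le.1 (Complex.abs_re_le_norm (GN L N (h z) - h z))).2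
      rw [Complex.sub_re] at h4
      linarith [not_le.1 hre]
  refine ⟨F, hFd, hFi, ?_, hFU, ?_⟩
  · show GN L N (h 0) = 0
    rw [c3, GN_zero]
  -- the target set
  set T : Set ℂ := {z ∈ ball (0 : ℂ) 1 | (Mo φ (F z) ^ (α : ℂ)).im = 0} with hT
  -- points over the arc
  have hsolve : ∀ s ∈ Icc (t 0) (t n), ∃ z ∈ ball (0 : ℂ) 1, F z = zz φ α s ∧
      ‖z - zz φ α s‖ ≤ 2 * δ := by
    intro s hs
    have hw : zz φ α s ∈ K0 := ⟨s, hs, rfl⟩
    have hsub : closedBall (zz φ α s) δ ⊆ K := closedBall_subset_cthickening hw δ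
    obtain ⟨u, hu, hgu⟩ := solve_near hδ hsm2 (hsub.trans hKb) hg1 hg3
    obtain ⟨k1, k2, k3⟩ := c7 u (hsub hu)
    refine ⟨k u, k1, ?_, ?_⟩
    · show GN L N (h (k u)) = _
      rw [k2, hgu]
    · have h4 : ‖u - zz φ α s‖ ≤ δ := by simpa [dist_eq_norm] using hu
      have h5 : k u - zz φ α s = (k u - u) + (u - zz φ α s) := by ring
      rw [h5]
      exact (norm_add_le _ _).trans (by linarith)
  obtain ⟨g, g1, g2, g3⟩ := exists_inverse isOpen_ball hFd hFi
  -- the old pieces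
  set A : ℕ → Set ℂ := fun j => {z ∈ ball (0 : ℂ) 1 | F z ∈
    ((fun s : ℝ => zz φ α s) '' Icc (t j) (t (j + 1))) \ {zz φ α (t (j + 1))}} with hA
  have hIj : ∀ j < n, Icc (t j) (t (j + 1)) ⊆ Icc (t 0) (t n) := by
    intro j hj s hs
    exact ⟨(hmono j hj.le 0 (Nat.zero_le j)).trans hs.1, hs.2.trans (hmono n le_rfl (j + 1) hj)⟩
  have hAm : ∀ j < n, MeasurableSet (A j) := by
    intro j hj
    apply meas_pre isOpen_ball.measurableSet hFd.continuousOn
    apply MeasurableSet.diff _ (measurableSet_singleton _)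
    exact (isCompact_Icc.image_of_continuousOn
      (hzc.mono ((hIj j hj).trans hIcc))).isClosed.measurableSet
  have hAlow : ∀ j < n, ENNReal.ofReal (‖zz φ α (t (j + 1)) - zz φ α (t j)‖ - 2 * (2 * δ)) ≤
      μH[1] (A j) := by
    intro j hj
    have hjm := htm j hj
    obtain ⟨p, p1, p2, p3⟩ := hsolve (t j) (hIj j hj ⟨le_rfl, hjm.le⟩)
    obtain ⟨q, q1, q2, q3⟩ := hsolve (t (j + 1)) (hIj j hj ⟨hjm.le, le_rfl⟩)
    set B : Set ℂ := g '' ((fun s : ℝ => zz φ α s) '' Icc (t j) (t (j + 1))) with hB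
    have hsubF : (fun s : ℝ => zz φ α s) '' Icc (t j) (t (j + 1)) ⊆ F '' ball 0 1 := by
      rintro _ ⟨s, hs, rfl⟩
      obtain ⟨z, z1, z2, -⟩ := hsolve s (hIj j hj hs)
      exact ⟨z, z1, z2⟩
    have hBc : IsPreconnected B := by
      apply IsPreconnected.image
      · exact isPreconnected_Icc.image _ (hzc.mono ((hIj j hj).trans hIcc))
      · exact g1.continuousOn.mono hsubF
    have hpB : p ∈ B := ⟨zz φ α (t j), ⟨t j, ⟨le_rfl, hjm.le⟩, rfl⟩, by rw [← p2]; exact g2 p p1⟩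
    have hqB : q ∈ B := ⟨zz φ α (t (j + 1)), ⟨t (j + 1), ⟨hjm.le, le_rfl⟩, rfl⟩, by
      rw [← q2]; exact g2 q q1⟩
    have hBA : B ⊆ A j ∪ {q} := by
      rintro _ ⟨w, hw, rfl⟩
      obtain ⟨w1, w2⟩ := g3 w (hsubF hw)
      by_cases hwq : w = zz φ α (t (j + 1))
      · right
        rw [hwq, ← q2]
        exact g2 q q1
      · left
        refine ⟨w1, ?_⟩
        rw [w2]
        exact ⟨hw, hwq⟩
    have hd1 := hm_ge hBc hpB hqB
    have hnoatom : μH[1] ({q} : Set ℂ) = 0 := by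
      have := Measure.nullSingletonClass_hausdorff ℂ (one_pos : (0 : ℝ) < 1)
      exact measure_singleton q
    have hle : μH[1] B ≤ μH[1] (A j) := by
      calc μH[1] B ≤ μH[1] (A j ∪ {q}) := measure_mono hBA
        _ ≤ μH[1] (A j) + μH[1] {q} := measure_union_le _ _
        _ = μH[1] (A j) := by rw [hnoatom, add_zero]
    refine le_trans (ENNReal.ofReal_le_ofReal ?_) (hd1.trans hle)
    rw [dist_eq_norm]
    have h4 : zz φ α (t (j + 1)) - zz φ α (t j) =
        (p - zz φ α (t j)) - (q - zz φ α (t (j + 1))) - (p - q) := by ring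
    have h5 : ‖zz φ α (t (j + 1)) - zz φ α (t j)‖ ≤
        ‖p - zz φ α (t j)‖ + ‖q - zz φ α (t (j + 1))‖ + ‖p - q‖ := by
      rw [h4]
      exact (norm_sub_le _ _).trans (add_le_add_left (norm_sub_le _ _) _)
    linarith
  have hAT : ∀ j < n, A j ⊆ T := by
    rintro j hj z ⟨hz, ⟨s, hs, hsz⟩, -⟩
    refine ⟨hz, ?_⟩
    rw [← hsz]
    exact (o4 s (hIcc (hIj j hj hs))).2
  have hAd : ∀ i < n, ∀ j < n, i < j → Disjoint (A i) (A j) := by
    intro i hi j hj hij
    rw [Set.disjoint_left]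
    rintro z ⟨hz, ⟨s, hs, hsz⟩, hne⟩ ⟨-, ⟨s', hs', hsz'⟩, hne'⟩
    have h4 : s = s' := o5 s s' (hIcc (hIj i hi hs)) (hIcc (hIj j hj hs')) (hsz.trans hsz'.symm)
    have h5 : t (i + 1) ≤ t j := hmono j hj.le (i + 1) hij
    have h6 : s = t (i + 1) := le_antisymm hs.2 (by rw [h4]; exact h5.trans hs'.1)
    apply hne
    rw [mem_singleton_iff, ← hsz, h6]
  -- the number of sectors
  obtain ⟨m, hm1, hm2⟩ : ∃ m : ℕ, (m : ℝ) * (2 * Real.pi / N) ≤ Real.pi - ψ ∧
      Real.pi - ψ < ((m : ℝ) + 1) * (2 * Real.pi / N) := by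
    have hp : 0 < 2 * Real.pi / N := by positivity
    refine ⟨⌊(Real.pi - ψ) / (2 * Real.pi / N)⌋₊, ?_, ?_⟩
    · rw [← le_div_iff₀ hp]
      exact Nat.floor_le (by apply div_nonneg _ hp.le; linarith)
    · rw [← div_lt_iff₀ hp]
      exact Nat.lt_floor_add_one _
  set p : ℝ := 2 * Real.pi / N with hp
  have hp0 : 0 < p := by positivity
  set Sp : ℕ → Set ℂ := fun j => {z ∈ ball (0 : ℂ) 1 | (h z).arg ∈ Ioc (ψ + j * p) (ψ + j * p + p) ∧
    ‖GN L N (h z)‖ = 1} with hSp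
  set Sm : ℕ → Set ℂ := fun j => {z ∈ ball (0 : ℂ) 1 |
    (h z).arg ∈ Ioc (-ψ - (j + 1) * p) (-ψ - (j + 1) * p + p) ∧ ‖GN L N (h z)‖ = 1} with hSm
  have hmeas : ∀ a b : ℝ, MeasurableSet {z ∈ ball (0 : ℂ) 1 | (h z).arg ∈ Ioc a b ∧
      ‖GN L N (h z)‖ = 1} := by
    intro a b
    have h1' : MeasurableSet {z ∈ ball (0 : ℂ) 1 | h z ∈ {u : ℂ | u.arg ∈ Ioc a b}} :=
      meas_pre isOpen_ball.measurableSet c1.continuousOn (Complex.measurable_arg measurableSet_Ioc)
    have h2' : MeasurableSet {z ∈ ball (0 : ℂ) 1 | F z ∈ sphere (0 : ℂ) 1} :=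
      meas_pre isOpen_ball.measurableSet hFd.continuousOn isClosed_sphere.measurableSet
    have h3' : {z ∈ ball (0 : ℂ) 1 | (h z).arg ∈ Ioc a b ∧ ‖GN L N (h z)‖ = 1} =
        {z ∈ ball (0 : ℂ) 1 | h z ∈ {u : ℂ | u.arg ∈ Ioc a b}} ∩
        {z ∈ ball (0 : ℂ) 1 | F z ∈ sphere (0 : ℂ) 1} := by
      ext z
      constructor
      · rintro ⟨a1, a2, a3⟩
        exact ⟨⟨a1, a2⟩, a1, by simpa [hF] using a3⟩
      · rintro ⟨⟨a1, a2⟩, -, a3⟩
        exact ⟨a1, a2, by simpa [hF] using a3⟩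
    rw [h3']
    exact h1'.inter h2'
  have hnewT : ∀ a b : ℝ, {z ∈ ball (0 : ℂ) 1 | (h z).arg ∈ Ioc a b ∧
      ‖GN L N (h z)‖ = 1} ⊆ T := by
    rintro a b z ⟨hz, -, h3'⟩
    exact ⟨hz, o3 (F z) (hFU hz) h3'⟩
  have hE' : ∀ a : ℝ, -Real.pi ≤ a → a + p ≤ Real.pi → (∀ θ ∈ Ioc a (a + p), ψ ≤ |θ|) →
      ENNReal.ofReal (x / (N * (1 + 2 * δ))) ≤
        μH[1] {z ∈ ball (0 : ℂ) 1 | (h z).arg ∈ Ioc a (a + p) ∧ ‖GN L N (h z)‖ = 1} := by
    intro a ha1 ha2 ha3
    have h4 := sector h_lip hNne hG hr0 hr1 hδ hLd hL c1 c2 c4 c6 ha1 ha2 ha3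
    have h5 : 0 < (N : ℝ) * (1 + 2 * δ) := by positivity
    rw [ENNReal.ofReal_div_of_pos h5]
    apply ENNReal.div_le_of_le_mul'
    exact hE.le.trans h4
  have hSpl : ∀ j < m, ENNReal.ofReal (x / (N * (1 + 2 * δ))) ≤ μH[1] (Sp j) := by
    intro j hj
    have hj' : (j : ℝ) + 1 ≤ m := by exact_mod_cast hj
    apply hE'
    · have : 0 ≤ (j : ℝ) * p := by positivity
      linarith
    · nlinarith
    · intro θ hθ
      have h4 : 0 ≤ (j : ℝ) * p := by positivity
      exact le_trans (by linarith [hθ.1]) (le_abs_self θ)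
  have hSml : ∀ j < m, ENNReal.ofReal (x / (N * (1 + 2 * δ))) ≤ μH[1] (Sm j) := by
    intro j hj
    have hj' : (j : ℝ) + 1 ≤ m := by exact_mod_cast hj
    have h4 : 0 ≤ (j : ℝ) * p := by positivity
    apply hE'
    · nlinarith
    · nlinarith
    · intro θ hθ
      have h5 : θ ≤ -ψ := by nlinarith [hθ.2]
      exact le_trans (by linarith) (neg_le_abs θ)
  -- disjointness
  have hIocd : ∀ a b a' b' : ℝ, b ≤ a' → Disjoint {z ∈ ball (0 : ℂ) 1 | (h z).arg ∈ Ioc a b ∧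
      ‖GN L N (h z)‖ = 1} {z ∈ ball (0 : ℂ) 1 | (h z).arg ∈ Ioc a' b' ∧
      ‖GN L N (h z)‖ = 1} := by
    intro a b a' b' hba
    rw [Set.disjoint_left]
    rintro z ⟨-, h4, -⟩ ⟨-, h5, -⟩
    linarith [h4.2, h5.1]
  have hSpd : ∀ i j : ℕ, i < j → Disjoint (Sp i) (Sp j) := by
    intro i j hij
    apply hIocd
    have : (i : ℝ) + 1 ≤ j := by exact_mod_cast hij
    nlinarith
  have hSmd : ∀ i j : ℕ, i < j → Disjoint (Sm i) (Sm j) := by
    intro i j hij
    apply (hIocd _ _ _ _ _).symm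
    have : (i : ℝ) + 1 ≤ j := by exact_mod_cast hij
    nlinarith
  have hSpm : ∀ i j : ℕ, Disjoint (Sm i) (Sp j) := by
    intro i j
    apply hIocd
    have h4 : 0 ≤ (i : ℝ) * p := by positivity
    have h5 : 0 ≤ (j : ℝ) * p := by positivity
    nlinarith
  have hAS : ∀ j < n, ∀ a b : ℝ, Disjoint (A j) {z ∈ ball (0 : ℂ) 1 | (h z).arg ∈ Ioc a b ∧
      ‖GN L N (h z)‖ = 1} := by
    intro j hj a b
    rw [Set.disjoint_left]
    rintro z ⟨hz, ⟨s, hs, hsz⟩, -⟩ ⟨-, -, h5⟩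
    have h6 := hK0b ⟨s, hIj j hj hs, hsz⟩
    rw [mem_ball_zero_iff] at h6
    have h7 : ‖F z‖ = 1 := h5
    linarith
  -- all pieces together
  have lt_of_ne : ∀ i j : ℕ, i ≠ j → i < j ∨ j < i := fun i j h => Nat.lt_or_gt_of_ne h
  set TA : Set ℂ := ⋃ j ∈ Finset.range n, A j with hTA
  set TP : Set ℂ := ⋃ j ∈ Finset.range m, Sp j with hTP
  set TM : Set ℂ := ⋃ j ∈ Finset.range m, Sm j with hTM
  have e1 : ∑ j ∈ Finset.range n, μH[1] (A j) ≤ μH[1] TA := by
    apply sum_le_measure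
    · intro j hj
      exact hAm j (Finset.mem_range.1 hj)
    · intro i hi j hj hij
      rcases lt_of_ne i j hij with h4 | h4
      · exact hAd i (Finset.mem_range.1 hi) j (Finset.mem_range.1 hj) h4
      · exact (hAd j (Finset.mem_range.1 hj) i (Finset.mem_range.1 hi) h4).symm
    · intro j hj
      exact subset_biUnion_of_mem (u := fun j => A j) hj
  have e2 : ∑ j ∈ Finset.range m, μH[1] (Sp j) ≤ μH[1] TP := by
    apply sum_le_measure
    · intro j hj
      exact hmeas _ _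
    · intro i hi j hj hij
      rcases lt_of_ne i j hij with h4 | h4
      · exact hSpd i j h4
      · exact (hSpd j i h4).symm
    · intro j hj
      exact subset_biUnion_of_mem (u := fun j => Sp j) hj
  have e3 : ∑ j ∈ Finset.range m, μH[1] (Sm j) ≤ μH[1] TM := by
    apply sum_le_measure
    · intro j hj
      exact hmeas _ _
    · intro i hi j hj hij
      rcases lt_of_ne i j hij with h4 | h4
      · exact hSmd i j h4
      · exact (hSmd j i h4).symm
    · intro j hj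
      exact subset_biUnion_of_mem (u := fun j => Sm j) hj
  have mA : MeasurableSet TA := Finset.measurableSet_biUnion _ (fun j hj =>
    hAm j (Finset.mem_range.1 hj))
  have mP : MeasurableSet TP := Finset.measurableSet_biUnion _ (fun j _ => hmeas _ _)
  have mM : MeasurableSet TM := Finset.measurableSet_biUnion _ (fun j _ => hmeas _ _)
  have d1 : Disjoint TA TP := by
    rw [hTA, hTP, Set.disjoint_iUnion₂_left]
    intro i hi
    rw [Set.disjoint_iUnion₂_right]
    intro j hj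
    exact hAS i (Finset.mem_range.1 hi) _ _
  have d2 : Disjoint (TA ∪ TP) TM := by
    rw [Set.disjoint_union_left]
    constructor
    · rw [hTA, hTM, Set.disjoint_iUnion₂_left]
      intro i hi
      rw [Set.disjoint_iUnion₂_right]
      intro j hj
      exact hAS i (Finset.mem_range.1 hi) _ _
    · rw [hTP, hTM, Set.disjoint_iUnion₂_left]
      intro i hi
      rw [Set.disjoint_iUnion₂_right]
      intro j hj
      exact (hSpm j i).symm
  have hun : μH[1] TA + μH[1] TP + μH[1] TM ≤ μH[1] T := by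
    rw [← measure_union d1 mP, ← measure_union d2 mM]
    apply measure_mono
    apply union_subset (union_subset _ _) _
    · exact iUnion₂_subset (fun j hj => hAT j (Finset.mem_range.1 hj))
    · exact iUnion₂_subset (fun j _ => hnewT _ _)
    · exact iUnion₂_subset (fun j _ => hnewT _ _)
  -- numbers
  set y : ℝ := x / (N * (1 + 2 * δ)) with hy
  have hy0 : 0 ≤ y := by positivity
  set S : ℝ := ∑ j ∈ Finset.range n, ‖zz φ α (t (j + 1)) - zz φ α (t j)‖ with hS
  have f1 : ENNReal.ofReal (S - 2 * n * (2 * δ)) ≤ ∑ j ∈ Finset.range n, μH[1] (A j) := by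
    have f2 : S - 2 * n * (2 * δ) =
        ∑ j ∈ Finset.range n, (‖zz φ α (t (j + 1)) - zz φ α (t j)‖ - 2 * (2 * δ)) := by
      rw [Finset.sum_sub_distrib, Finset.sum_const, Finset.card_range, nsmul_eq_mul]
      ring
    rw [f2]
    refine (ofReal_sum_le' _ _).trans ?_
    exact Finset.sum_le_sum (fun j hj => hAlow j (Finset.mem_range.1 hj))
  have f3 : ENNReal.ofReal (m * y) ≤ ∑ j ∈ Finset.range m, μH[1] (Sp j) := by
    calc ENNReal.ofReal (m * y) = ∑ j ∈ Finset.range m, ENNReal.ofReal y := by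
          rw [Finset.sum_const, Finset.card_range, nsmul_eq_mul, ENNReal.ofReal_mul (by positivity),
            ENNReal.ofReal_natCast]
      _ ≤ _ := Finset.sum_le_sum (fun j hj => hSpl j (Finset.mem_range.1 hj))
  have f4 : ENNReal.ofReal (m * y) ≤ ∑ j ∈ Finset.range m, μH[1] (Sm j) := by
    calc ENNReal.ofReal (m * y) = ∑ j ∈ Finset.range m, ENNReal.ofReal y := by
          rw [Finset.sum_const, Finset.card_range, nsmul_eq_mul, ENNReal.ofReal_mul (by positivity),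
            ENNReal.ofReal_natCast]
      _ ≤ _ := Finset.sum_le_sum (fun j hj => hSml j (Finset.mem_range.1 hj))
  have hq0 : 0 ≤ 1 - ψ / Real.pi := by
    rw [sub_nonneg, div_le_one hpi]
    linarith
  have hq1 : 1 - ψ / Real.pi ≤ 1 := by
    have : 0 ≤ ψ / Real.pi := div_nonneg (by linarith) hpi.le
    linarith
  have hmN : (1 - ψ / Real.pi) - 2 / N ≤ 2 * m / N := by
    have h4 : (Real.pi - ψ) * N < (m + 1) * (2 * Real.pi) := by
      rw [hp, ← mul_div_assoc, lt_div_iff₀ hN0] at hm2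
      exact hm2
    have h5 : (1 - ψ / Real.pi) - 2 / N = ((Real.pi - ψ) * N - 2 * Real.pi) / (Real.pi * N) := by
      field_simp
    rw [h5, div_le_div_iff₀ (by positivity) hN0]
    nlinarith [mul_pos hpi hN0]
  have hnum := step_numbers (n := n) (N := N) (m := m) (S := S) hx hη hq0 hq1 hN0 hδ hδ2 hδ4
    hN5.le hmN
  calc ENNReal.ofReal (S + (1 - ψ / Real.pi) * x - η)
      ≤ ENNReal.ofReal ((S - 2 * n * (2 * δ)) + 2 * m * y) := ENNReal.ofReal_le_ofReal hnum
    _ = ENNReal.ofReal ((S - 2 * n * (2 * δ)) + (m * y + m * y)) := by congr 1; ring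
    _ ≤ ENNReal.ofReal (S - 2 * n * (2 * δ)) + ENNReal.ofReal (m * y + m * y) :=
        ENNReal.ofReal_add_le
    _ ≤ ENNReal.ofReal (S - 2 * n * (2 * δ)) + (ENNReal.ofReal (m * y) + ENNReal.ofReal (m * y)) :=
        add_le_add le_rfl ENNReal.ofReal_add_le
    _ ≤ μH[1] TA + (μH[1] TP + μH[1] TM) :=
        add_le_add (f1.trans e1) (add_le_add (f3.trans e2) (f4.trans e3))
    _ = μH[1] TA + μH[1] TP + μH[1] TM := (add_assoc _ _ _).symm
    _ ≤ μH[1] T := hun

end HW714
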