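import Pool.Agent.Helper714_HW.Low4

/-!
# Hayman-Wu constant: the lower bound
-/

set_option autoImplicit false
open Set Metric MeasureTheory Complex Filter Topology
open scoped NNReal ENNReal

namespace HW714

lemma start_pos : ENNReal.ofReal 0 < μH[1] {z ∈ ball (0 : ℂ) 1 | ‖(2 : ℂ) * z‖ = 1} := by
  set A : Set ℂ := (fun θ : ℝ => (1 / 2 : ℂ) * Complex.exp (θ * Complex.I)) '' Icc 0 Real.pi with hA
  have h1 : IsPreconnected A := by
    apply isPreconnected_Icc.image
    have : Continuous (fun θ : ℝ => (1 / 2 : ℂ) * Complex.exp (θ * Complex.I)) := by fun_prop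
    exact this.continuousOn
  have h2 : (1 / 2 : ℂ) ∈ A := ⟨0, ⟨le_rfl, Real.pi_pos.le⟩, by simp⟩
  have h3 : (-1 / 2 : ℂ) ∈ A := ⟨Real.pi, ⟨Real.pi_pos.le, le_rfl⟩, by
    show (1 / 2 : ℂ) * Complex.exp (Real.pi * Complex.I) = -1 / 2
    rw [Complex.exp_pi_mul_I]; ring⟩
  have h4 := hm_ge h1 h2 h3
  have h5 : A ⊆ {z ∈ ball (0 : ℂ) 1 | ‖(2 : ℂ) * z‖ = 1} := by
    rintro _ ⟨θ, -, rfl⟩
    have h6 : ‖(1 / 2 : ℂ) * Complex.exp (θ * Complex.I)‖ = 1 / 2 := by
      rw [norm_mul, Complex.norm_exp_ofReal_mul_I]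
      norm_num
    refine ⟨?_, ?_⟩
    · rw [mem_ball_zero_iff, h6]
      norm_num
    · show ‖(2 : ℂ) * ((1 / 2 : ℂ) * Complex.exp (θ * Complex.I))‖ = 1
      rw [norm_mul, h6]
      norm_num
  refine lt_of_lt_of_le ?_ (h4.trans (measure_mono h5))
  rw [ENNReal.ofReal_zero, ENNReal.ofReal_pos, dist_pos]
  norm_num

theorem lower (h_open : S_open) (h_chord : S_chord) (h_step : S_step) : S_lower := by
  intro C hC
  by_cases hCtop : C = ⊤
  · rw [hCtop]
    exact le_top
  have hpi := Real.pi_pos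
  -- the real form
  have key : ∀ ε : ℝ, 0 < ε → ε < Real.pi → Real.pi * (Real.pi - ε) ≤ C.toReal := by
    intro ε hε hεπ
    obtain ⟨α, hα1, hα2, n, t, ht0, htm, hev⟩ := h_chord ε hε
    -- choose φ
    have hlim : ∀ᶠ φ in 𝓝[>] (0 : ℝ), 0 < φ ∧ φ < Real.pi / 4 ∧
        α * (Real.pi + φ) ≤ 2 * Real.pi := by
      have e1 : ∀ᶠ φ in 𝓝[>] (0 : ℝ), 0 < φ := eventually_mem_nhdsWithin
      have e2 : ∀ᶠ φ in 𝓝[>] (0 : ℝ), φ < Real.pi / 4 :=
        (eventually_lt_nhds (by positivity)).filter_mono nhdsWithin_le_nhds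
      have e3 : ∀ᶠ φ in 𝓝[>] (0 : ℝ), φ < 2 * Real.pi / α - Real.pi := by
        apply (eventually_lt_nhds _).filter_mono nhdsWithin_le_nhds
        rw [sub_pos, lt_div_iff₀ (by linarith)]
        nlinarith
      filter_upwards [e1, e2, e3] with φ a1 a2 a3
      refine ⟨a1, a2, ?_⟩
      have h1 : Real.pi + φ ≤ 2 * Real.pi / α := by linarith
      rw [le_div_iff₀ (by linarith)] at h1
      linarith
    obtain ⟨φ, hφS, hφ0, hφ1, hφ2⟩ := (hev.and hlim).exists
    obtain ⟨o1, o2, -, -, -, o6, o7, o8, o9⟩ := h_open φ α hφ0 hα1 hφ2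
    set S : ℝ := ∑ j ∈ Finset.range n, ‖zz φ α (t (j + 1)) - zz φ α (t j)‖ with hS
    have hSpos : 0 < S := lt_of_lt_of_le (mul_pos (by linarith) hφ0) hφS
    set X : Set ℝ := {x | 0 ≤ x ∧ ∃ G : ℂ → ℂ, Cls G ∧
      ENNReal.ofReal x < μH[1] {z ∈ ball (0 : ℂ) 1 | ‖G z‖ = 1}} with hX
    have hX0 : (0 : ℝ) ∈ X := by
      refine ⟨le_rfl, fun z => 2 * z, ⟨?_, ?_, ?_⟩, start_pos⟩
      · exact (differentiable_id.const_mul (2 : ℂ)).differentiableOn
      · intro z _ w _ h
        exact mul_left_cancel₀ two_ne_zero h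
      · simp
    -- the two consequences of the step
    have hA : ∀ x ∈ X, ∀ ψ : ℝ, φ < ψ → ψ < Real.pi / 2 → ∀ η : ℝ, 0 < η →
        S + (1 - ψ / Real.pi) * x - η ≤ C.toReal ∧
        ∀ y : ℝ, 0 ≤ y → y < S + (1 - ψ / Real.pi) * x - η → y ∈ X := by
      rintro x ⟨hx0, G, hG, hxG⟩ ψ hψ1 hψ2 η hη
      obtain ⟨F, f1, f2, f3, f4, f5⟩ := h_step G φ ψ α x η n t hG hφ0 hψ1 hψ2 hα1 hφ2 hx0 hxG hη
        ht0 htm
      constructor
      · have h1 := hC (fun z => Mo φ (F z) ^ (α : ℂ)) (o1.comp f1 f4)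
          (fun z hz w hw h => f2 hz hw (o2 (f4 hz) (f4 hw) h))
        have h2 := f5.trans h1
        by_cases hneg : S + (1 - ψ / Real.pi) * x - η ≤ 0
        · exact hneg.trans ENNReal.toReal_nonneg
        · have h3 := ENNReal.toReal_mono hCtop h2
          rwa [ENNReal.toReal_ofReal (not_le.1 hneg).le] at h3
      · intro y hy0 hy
        refine ⟨hy0, fun z => Mo (α * φ) (Mo φ (F z) ^ (α : ℂ)), ⟨?_, ?_, ?_⟩, ?_⟩
        · exact DifferentiableOn.comp (g := fun w => Mo (α * φ) (Mo φ w ^ (α : ℂ))) o6 f1 f4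
        · exact fun z hz w hw h => f2 hz hw (o7 (f4 hz) (f4 hw) h)
        · show Mo (α * φ) (Mo φ (F 0) ^ (α : ℂ)) = 0
          rw [f3]
          exact o8
        · have h1 : {z ∈ ball (0 : ℂ) 1 | ‖Mo (α * φ) (Mo φ (F z) ^ (α : ℂ))‖ = 1} =
              {z ∈ ball (0 : ℂ) 1 | (Mo φ (F z) ^ (α : ℂ)).im = 0} := by
            ext z
            constructor
            · rintro ⟨hz, h⟩
              exact ⟨hz, (o9 (F z) (f4 hz)).1 h⟩
            · rintro ⟨hz, h⟩
              exact ⟨hz, (o9 (F z) (f4 hz)).2 h⟩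
          rw [h1]
          refine lt_of_lt_of_le ?_ f5
          rw [ENNReal.ofReal_lt_ofReal_iff_of_nonneg hy0]
          exact hy
    have hφπ : 0 < 1 - φ / Real.pi := by
      rw [sub_pos, div_lt_one hpi]
      linarith
    -- limit ψ → φ, η → 0
    have hlimψ : ∀ x : ℝ, 0 ≤ x → ∀ δ > 0, ∃ ψ η : ℝ, φ < ψ ∧ ψ < Real.pi / 2 ∧ 0 < η ∧
        S + (1 - φ / Real.pi) * x - δ < S + (1 - ψ / Real.pi) * x - η := by
      intro x hx δ hδ
      set κ : ℝ := min (Real.pi / 4) (δ / (2 * (x + 1))) with hκ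
      have hκ0 : 0 < κ := by
        rw [hκ]
        apply lt_min <;> positivity
      have hκ1 : κ ≤ Real.pi / 4 := min_le_left _ _
      have hκ2 : κ ≤ δ / (2 * (x + 1)) := min_le_right _ _
      refine ⟨φ + κ, δ / 4, by linarith, by linarith, by positivity, ?_⟩
      have h1 : (φ + κ) / Real.pi = φ / Real.pi + κ / Real.pi := add_div _ _ _
      have h2 : κ / Real.pi * x ≤ δ / 2 := by
        have h3 : κ / Real.pi ≤ κ := by
          apply div_le_self hκ0.le
          linarith [Real.pi_gt_three]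
        have h4 : κ * (2 * (x + 1)) ≤ δ := by
          rwa [le_div_iff₀ (by positivity)] at hκ2
        calc κ / Real.pi * x ≤ κ * x := mul_le_mul_of_nonneg_right h3 hx
          _ ≤ δ / 2 := by nlinarith
      rw [h1]
      nlinarith
    have hA1 : ∀ x ∈ X, S + (1 - φ / Real.pi) * x ≤ C.toReal := by
      intro x hx
      apply le_of_forall_pos_lt_add
      intro δ hδ
      obtain ⟨ψ, η, a1, a2, a3, a4⟩ := hlimψ x hx.1 δ hδ
      have := (hA x hx ψ a1 a2 η a3).1
      linarith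
    have hA2 : ∀ x ∈ X, ∀ y : ℝ, 0 ≤ y → y < S + (1 - φ / Real.pi) * x → y ∈ X := by
      intro x hx y hy0 hy
      obtain ⟨ψ, η, a1, a2, a3, a4⟩ := hlimψ x hx.1 (S + (1 - φ / Real.pi) * x - y)
        (by linarith)
      exact (hA x hx ψ a1 a2 η a3).2 y hy0 (by linarith)
    have hbdd : BddAbove X := by
      refine ⟨C.toReal / (1 - φ / Real.pi), ?_⟩
      intro x hx
      rw [le_div_iff₀ hφπ]
      have := hA1 x hx
      linarith
    set s : ℝ := sSup X with hs
    have hs0 : 0 ≤ s := le_csSup hbdd hX0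
    have h1 : ∀ x ∈ X, S + (1 - φ / Real.pi) * x ≤ s := by
      intro x hx
      apply le_of_forall_lt
      intro y hy
      have hpos : 0 < S + (1 - φ / Real.pi) * x := by
        have := mul_nonneg hφπ.le hx.1
        linarith
      -- a point of X above y
      set y' : ℝ := (max y 0 + (S + (1 - φ / Real.pi) * x)) / 2 with hy'
      have hmax : max y 0 < S + (1 - φ / Real.pi) * x := max_lt hy hpos
      have h2 : y' ∈ X := by
        apply hA2 x hx
        · have := le_max_right y 0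
          linarith
        · linarith
      have h3 : y' ≤ s := le_csSup hbdd h2
      have h4 := le_max_left y 0
      linarith
    have h2 : S + (1 - φ / Real.pi) * s ≤ s := by
      have h3 : s ≤ (s - S) / (1 - φ / Real.pi) := by
        apply csSup_le ⟨0, hX0⟩
        intro x hx
        rw [le_div_iff₀ hφπ]
        have := h1 x hx
        linarith
      rw [le_div_iff₀ hφπ] at h3
      linarith
    have h3 : S + (1 - φ / Real.pi) * s ≤ C.toReal := by
      have h4 : s ≤ (C.toReal - S) / (1 - φ / Real.pi) := by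
        apply csSup_le ⟨0, hX0⟩
        intro x hx
        rw [le_div_iff₀ hφπ]
        have := hA1 x hx
        linarith
      rw [le_div_iff₀ hφπ] at h4
      linarith
    have h4 : S ≤ φ / Real.pi * s := by linarith
    have h5 : S * Real.pi ≤ φ * s := by
      rw [div_mul_eq_mul_div, le_div_iff₀ hpi] at h4
      exact h4
    have h6 : Real.pi * S ≤ C.toReal * φ := by
      have h7 : (S + (1 - φ / Real.pi) * s) * φ ≤ C.toReal * φ :=
        mul_le_mul_of_nonneg_right h3 hφ0.le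
      have h8 : φ / Real.pi * (φ * s) ≥ φ / Real.pi * (S * Real.pi) :=
        mul_le_mul_of_nonneg_left h5 (by positivity)
      have h9 : φ / Real.pi * (S * Real.pi) = S * φ := by field_simp
      have h10 : (S + (1 - φ / Real.pi) * s) * φ = S * φ + φ * s - φ / Real.pi * (φ * s) := by ring
      -- use (1 - φ/π) (φ s) ≥ (1 - φ/π) S π
      have h11 : (1 - φ / Real.pi) * (S * Real.pi) ≤ (1 - φ / Real.pi) * (φ * s) :=
        mul_le_mul_of_nonneg_left h5 hφπ.le
      have h12 : (1 - φ / Real.pi) * (S * Real.pi) = S * Real.pi - S * φ := by field_simp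
      linarith
    have h7 : Real.pi * ((Real.pi - ε) * φ) ≤ C.toReal * φ :=
      (mul_le_mul_of_nonneg_left hφS hpi.le).trans h6
    have h8 : (Real.pi * (Real.pi - ε)) * φ ≤ C.toReal * φ := by linarith
    exact le_of_mul_le_mul_right h8 hφ0
  have hfin : Real.pi ^ 2 ≤ C.toReal := by
    apply le_of_forall_pos_le_add
    intro δ hδ
    set ε : ℝ := min (1 : ℝ) (δ / Real.pi) with hε
    have hε0 : 0 < ε := lt_min one_pos (by positivity)
    have hε1 : ε ≤ 1 := min_le_left _ _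
    have hε2 : ε ≤ δ / Real.pi := min_le_right _ _
    have h1 := key ε hε0 (by linarith [Real.pi_gt_three])
    have h2 : ε * Real.pi ≤ δ := by rwa [le_div_iff₀ hpi] at hε2
    nlinarith
  rw [← ENNReal.ofReal_toReal hCtop]
  exact ENNReal.ofReal_le_ofReal hfin

theorem t_step : S_step := step t_root t_close t_open t_lip

theorem t_lower : S_lower := lower t_open t_chord t_step

end HW714
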