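import Pool.Agent.Helper714_HW.Defs

set_option autoImplicit false
open Set Metric MeasureTheory Complex Filter Topology
open scoped NNReal ENNReal

namespace HW714

/-! ## Part A -/

/-- A1 maximum principle -/
def S_mp : Prop := ∀ (O : Set ℂ) (u : ℂ → ℝ) (c : ℝ), IsOpen O → ContinuousOn u O → MVon u O →
  IsCompact {z ∈ O | c ≤ u z} → ∀ z ∈ O, u z < c

/-- A2 kernel of the strip -/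
def S_gS : Prop := ∀ z ∈ St, (∀ t : ℝ, 0 ≤ gS z t) ∧ ∀ R : ℝ, 0 ≤ R →
  IntervalIntegrable (fun t => gS z t) volume (-R) R ∧
    ∫ t in (-R)..R, gS z t ≤ Real.pi ^ 2 / 2

/-- A3 regular part -/
def S_hreg : Prop := ∀ Φ : ℂ → ℂ, DifferentiableOn ℂ Φ St → InjOn Φ St →
  MapsTo Φ St (ball 0 1) →
  ContinuousOn (fun p : ℂ × ℝ => hreg Φ p.1 p.2) (St ×ˢ univ) ∧
  (∀ t : ℝ, MVon (fun z => hreg Φ z t) St) ∧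
  (∀ t : ℝ, ∀ z ∈ St, z ≠ (t : ℂ) → gD (Φ z) (Φ t) = hreg Φ z t + gS z t)

/-- A3b integrals of families with the mean value property -/
def S_int : Prop := ∀ (O : Set ℂ) (k : ℂ → ℝ → ℝ) (a b : ℝ), IsOpen O → a ≤ b →
  ContinuousOn (fun p : ℂ × ℝ => k p.1 p.2) (O ×ˢ Icc a b) →
  (∀ t ∈ Icc a b, MVon (fun z => k z t) O) →
  ContinuousOn (fun z => ∫ t in a..b, k z t) O ∧ MVon (fun z => ∫ t in a..b, k z t) O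

/-- A3c logarithms of moduli -/
def S_log : Prop := ∀ (O : Set ℂ) (F : ℂ → ℂ), IsOpen O → DifferentiableOn ℂ F O →
  (∀ z ∈ O, F z ≠ 0) → MVon (fun z => Real.log ‖F z‖) O

/-- A4 the core inequality -/
def S_core : Prop := ∀ (ι : Type) (F : Finset ι) (Φ : ι → ℂ → ℂ),
  (∀ i ∈ F, DifferentiableOn ℂ (Φ i) St) → (∀ i ∈ F, InjOn (Φ i) St) →
  (∀ i ∈ F, MapsTo (Φ i) St (ball 0 1)) →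
  (∀ i ∈ F, ∀ j ∈ F, i ≠ j → ∀ z ∈ St, ∀ w ∈ St, Φ i z ≠ Φ j w) →
  (∀ i ∈ F, ∀ ρ : ℝ, ρ < 1 →
    IsCompact {z ∈ St | ‖Φ i z‖ ≤ ρ ∧ ‖Φ i ((starRingEnd ℂ) z)‖ ≤ ρ}) →
  ∀ R : ℝ, 0 < R → ∑ i ∈ F, ∫ t in (-R)..R, -Real.log ‖Φ i t‖ ≤ Real.pi ^ 2

/-- A5 length -/
def S_len : Prop := ∀ Φ : ℂ → ℂ, DifferentiableOn ℂ Φ St → InjOn Φ St →
  MapsTo Φ St (ball 0 1) → ∀ R : ℝ, 0 < R →
  μH[1] ((fun t : ℝ => Φ t) '' Icc (-R) R) ≤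
    ENNReal.ofReal (∫ t in (-R)..R, -Real.log ‖Φ t‖)

/-- A6 complements of components -/
def S_cc : Prop := ∀ (Ω : Set ℂ) (x : ℂ), IsOpen Ω → Bornology.IsBounded Ω → IsConnected Ωᶜ →
  IsConnected (connectedComponentIn (Ω ∩ (starRingEnd ℂ) ⁻¹' Ω) x)ᶜ

/-- A7 symmetric Riemann map of the strip -/
def S_sym : Prop := ∀ (U : Set ℂ) (x : ℝ), IsOpen U → IsConnected U → Bornology.IsBounded U →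
  IsConnected Uᶜ → (∀ z ∈ U, (starRingEnd ℂ) z ∈ U) → (x : ℂ) ∈ U →
  ∃ Θ Θi : ℂ → ℂ, DifferentiableOn ℂ Θ St ∧ DifferentiableOn ℂ Θi U ∧
    (∀ z ∈ St, Θ z ∈ U ∧ Θi (Θ z) = z) ∧ (∀ w ∈ U, Θi w ∈ St ∧ Θ (Θi w) = w) ∧
    (∀ z ∈ St, Θ ((starRingEnd ℂ) z) = (starRingEnd ℂ) (Θ z))

/-- A7b structure -/
def S_struct : Prop := ∀ f : ℂ → ℂ, DifferentiableOn ℂ f (ball 0 1) → InjOn f (ball 0 1) →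
  Bornology.IsBounded (f '' ball 0 1) → ∀ x : ℝ, (x : ℂ) ∈ f '' ball 0 1 →
  ∃ Φ : ℂ → ℂ, DifferentiableOn ℂ Φ St ∧ InjOn Φ St ∧ MapsTo Φ St (ball 0 1) ∧
    (∀ z ∈ St, f (Φ z) ∈ Comp f x) ∧
    (∀ z ∈ ball (0 : ℂ) 1, (f z).im = 0 → f z ∈ Comp f x → ∃ t : ℝ, Φ t = z) ∧
    (∀ ρ : ℝ, ρ < 1 → IsCompact {z ∈ St | ‖Φ z‖ ≤ ρ ∧ ‖Φ ((starRingEnd ℂ) z)‖ ≤ ρ})

/-- A8 the upper bound for bounded maps -/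
def S_upper : Prop := ∀ f : ℂ → ℂ, DifferentiableOn ℂ f (ball 0 1) → InjOn f (ball 0 1) →
  Bornology.IsBounded (f '' ball 0 1) →
  μH[1] {z ∈ ball (0 : ℂ) 1 | (f z).im = 0} ≤ ENNReal.ofReal (Real.pi ^ 2)

/-! ## Part B -/

/-- B1 root transform data -/
def S_root : Prop := ∀ (G : ℂ → ℂ) (r : ℝ), Cls G → 0 < r → r < 1 →
  ∃ (L : ℂ → ℂ) (C : ℝ), DifferentiableOn ℂ L (ball 0 1) ∧
    (∀ z ∈ ball (0 : ℂ) 1, ‖L z‖ ≤ C) ∧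
    ∀ z ∈ ball (0 : ℂ) 1, G ((r : ℂ) * z) = z * Complex.exp (L z)

/-- B2 closing maps -/
def S_close : Prop := ∀ (φ ψ : ℝ) (K : Set ℂ) (η : ℝ), 0 < φ → φ < ψ → ψ < Real.pi / 2 →
  IsCompact K → K ⊆ ball 0 1 → 0 < η →
  ∃ h k : ℂ → ℂ, DifferentiableOn ℂ h (ball 0 1) ∧ MapsTo h (ball 0 1) (ball 0 1) ∧ h 0 = 0 ∧
    (∀ z ∈ ball (0 : ℂ) 1, k (h z) = z) ∧
    (∃ c > 0, ∀ z ∈ ball (0 : ℂ) 1, Real.cos φ - c ≤ (h z).re → ‖h z‖ ≤ 1 - c) ∧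
    (∀ u ∈ ball (0 : ℂ) 1, ψ ≤ |u.arg| → k u ∈ ball (0 : ℂ) 1 ∧ h (k u) = u ∧
      ‖deriv h (k u)‖ ≤ 1 + η) ∧
    (∀ z ∈ K, k z ∈ ball (0 : ℂ) 1 ∧ h (k z) = z ∧ ‖k z - z‖ ≤ η)

/-- B3 opening maps -/
def S_open : Prop := ∀ φ α : ℝ, 0 < φ → 1 < α → α * (Real.pi + φ) ≤ 2 * Real.pi →
  DifferentiableOn ℂ (fun w => Mo φ w ^ (α : ℂ)) (UU φ) ∧
  InjOn (fun w => Mo φ w ^ (α : ℂ)) (UU φ) ∧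
  (∀ w ∈ UU φ, ‖w‖ = 1 → (Mo φ w ^ (α : ℂ)).im = 0) ∧
  (∀ t : ℝ, 0 < t → zz φ α t ∈ ball (0 : ℂ) 1 ∧ (Mo φ (zz φ α t) ^ (α : ℂ)).im = 0) ∧
  (∀ s t : ℝ, 0 < s → 0 < t → zz φ α s = zz φ α t → s = t) ∧
  DifferentiableOn ℂ (fun w => Mo (α * φ) (Mo φ w ^ (α : ℂ))) (UU φ) ∧
  InjOn (fun w => Mo (α * φ) (Mo φ w ^ (α : ℂ))) (UU φ) ∧
  Mo (α * φ) (Mo φ 0 ^ (α : ℂ)) = 0 ∧
  (∀ w ∈ UU φ, ‖Mo (α * φ) (Mo φ w ^ (α : ℂ))‖ = 1 ↔ (Mo φ w ^ (α : ℂ)).im = 0)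

/-- B4 chords -/
def S_chord : Prop := ∀ ε : ℝ, 0 < ε → ∃ α : ℝ, 1 < α ∧ α < 2 ∧ ∃ (n : ℕ) (t : ℕ → ℝ),
  (∀ j ≤ n, 0 < t j) ∧ (∀ j < n, t j < t (j + 1)) ∧
  ∀ᶠ φ in 𝓝[>] (0 : ℝ), (Real.pi - ε) * φ ≤
    ∑ j ∈ Finset.range n, ‖zz φ α (t (j + 1)) - zz φ α (t j)‖

/-- B5a local Lipschitz bound for lengths -/
def S_lip : Prop := ∀ (O S : Set ℂ) (g : ℂ → ℂ) (K : ℝ), IsOpen O → DifferentiableOn ℂ g O →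
  S ⊆ O → MeasurableSet S → (∀ z ∈ S, ‖deriv g z‖ < K) →
  μH[1] (g '' S) ≤ ENNReal.ofReal K * μH[1] S

/-- B5 the step -/
def S_step : Prop := ∀ (G : ℂ → ℂ) (φ ψ α x η : ℝ) (n : ℕ) (t : ℕ → ℝ), Cls G →
  0 < φ → φ < ψ → ψ < Real.pi / 2 → 1 < α → α * (Real.pi + φ) ≤ 2 * Real.pi →
  0 ≤ x → ENNReal.ofReal x < μH[1] {z ∈ ball (0 : ℂ) 1 | ‖G z‖ = 1} → 0 < η →
  (∀ j ≤ n, 0 < t j) → (∀ j < n, t j < t (j + 1)) →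
  ∃ F : ℂ → ℂ, DifferentiableOn ℂ F (ball 0 1) ∧ InjOn F (ball 0 1) ∧ F 0 = 0 ∧
    MapsTo F (ball 0 1) (UU φ) ∧
    ENNReal.ofReal (∑ j ∈ Finset.range n, ‖zz φ α (t (j + 1)) - zz φ α (t j)‖
      + (1 - ψ / Real.pi) * x - η) ≤
    μH[1] {z ∈ ball (0 : ℂ) 1 | (Mo φ (F z) ^ (α : ℂ)).im = 0}

/-- B6 the lower bound -/
def S_lower : Prop := ∀ C : ℝ≥0∞,
  (∀ f : ℂ → ℂ, DifferentiableOn ℂ f (ball (0 : ℂ) 1) → InjOn f (ball (0 : ℂ) 1) →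
    μH[1] {z ∈ ball (0 : ℂ) 1 | (f z).im = 0} ≤ C) →
  ENNReal.ofReal (Real.pi ^ 2) ≤ C

end HW714
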