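import Pool.Agent.Helper714_HW.Core
import Pool.Agent.Helper714_HW.JHreg
import Pool.Agent.W538.JQ.Rmt
import Pool.Agent.Y405.LW.Compl

/-!
# Hayman-Wu constant: the components and their symmetric parametrisations
-/

set_option autoImplicit false
open Set Metric MeasureTheory Complex Filter Topology
open scoped NNReal ENNReal

namespace HW714

lemma isOpen_image_of_inj {f : ℂ → ℂ} {O : Set ℂ} (hO : IsOpen O) (hd : DifferentiableOn ℂ f O)
    (hi : InjOn f O) {V : Set ℂ} (hV : IsOpen V) (hVO : V ⊆ O) : IsOpen (f '' V) := by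
  rw [isOpen_iff_mem_nhds]
  rintro _ ⟨s, hs, rfl⟩
  have h1 := nhds_le_map hO hd hi (hVO hs)
  exact h1 (image_mem_map (hV.mem_nhds hs))

/-- the inverse function of an injective holomorphic function -/
lemma exists_inverse {f : ℂ → ℂ} {O : Set ℂ} (hO : IsOpen O) (hd : DifferentiableOn ℂ f O)
    (hi : InjOn f O) : ∃ g : ℂ → ℂ, DifferentiableOn ℂ g (f '' O) ∧
      (∀ z ∈ O, g (f z) = z) ∧ ∀ w ∈ f '' O, g w ∈ O ∧ f (g w) = w := by
  classical
  refine ⟨Function.invFunOn f O, ?_, ?_, ?_⟩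
  · rintro _ ⟨s, hs, rfl⟩
    have hg : ∀ z ∈ O, Function.invFunOn f O (f z) = z := fun z hz => hi.leftInvOn_invFunOn hz
    have hopen := isOpen_image_of_inj hO hd hi hO le_rfl
    have hcont : ContinuousAt (Function.invFunOn f O) (f s) := by
      rw [ContinuousAt, hg s hs]
      intro N hN
      have h1 : N ∩ O ∈ 𝓝 s := inter_mem hN (hO.mem_nhds hs)
      have h2 : f '' (N ∩ O) ∈ 𝓝 (f s) := nhds_le_map hO hd hi hs (image_mem_map h1)
      rw [mem_map]
      filter_upwards [h2]
      rintro _ ⟨z, hz, rfl⟩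
      rw [mem_preimage, hg z hz.2]
      exact hz.1
    have hder : HasDerivAt f (deriv f s) (Function.invFunOn f O (f s)) := by
      rw [hg s hs]
      exact (hd.differentiableAt (hO.mem_nhds hs)).hasDerivAt
    have hne : deriv f s ≠ 0 := aux_hreg_deriv_ne_zero_of_injOn hO hd hi hs
    have hev : ∀ᶠ y in 𝓝 (f s), f (Function.invFunOn f O y) = y := by
      filter_upwards [hopen.mem_nhds ⟨s, hs, rfl⟩]
      rintro _ ⟨z, hz, rfl⟩
      rw [hg z hz]
    exact (HasDerivAt.of_local_left_inverse hcont hder hne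
      hev).differentiableAt.differentiableWithinAt
  · exact fun z hz => hi.leftInvOn_invFunOn hz
  · rintro w hw
    exact ⟨Function.invFunOn_mem hw, Function.invFunOn_eq hw⟩

theorem struct (h_cc : S_cc) (h_sym : S_sym) : S_struct := by
  intro f hf hi hb x hx
  set Ω : Set ℂ := f '' ball 0 1 with hΩ
  have hΩo : IsOpen Ω := isOpen_image_of_inj isOpen_ball hf hi isOpen_ball le_rfl
  have hΩc : IsConnected Ωᶜ := Y405LW.s_compl f hf hi hb
  set W : Set ℂ := Ω ∩ (starRingEnd ℂ) ⁻¹' Ω with hW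
  have hWo : IsOpen W := hΩo.inter (hΩo.preimage Complex.continuous_conj)
  set U : Set ℂ := connectedComponentIn W (x : ℂ) with hU
  have hxW : (x : ℂ) ∈ W := ⟨hx, by simpa using hx⟩
  have hxU : (x : ℂ) ∈ U := mem_connectedComponentIn hxW
  have hUo : IsOpen U := hWo.connectedComponentIn
  have hUc : IsConnected U := isConnected_connectedComponentIn_iff.2 hxW
  have hUW : U ⊆ W := connectedComponentIn_subset _ _
  have hUb : Bornology.IsBounded U := hb.subset (hUW.trans inter_subset_left)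
  have hUcc : IsConnected Uᶜ := h_cc Ω x hΩo hb hΩc
  have hWs : ∀ z ∈ W, (starRingEnd ℂ) z ∈ W := by
    rintro z ⟨h1, h2⟩
    exact ⟨h2, by simpa using h1⟩
  have hUs : ∀ z ∈ U, (starRingEnd ℂ) z ∈ U := by
    have h1 : IsPreconnected ((starRingEnd ℂ) '' U) :=
      hUc.isPreconnected.image _ Complex.continuous_conj.continuousOn
    have h2 : (x : ℂ) ∈ (starRingEnd ℂ) '' U := ⟨x, hxU, by simp⟩
    have h3 : (starRingEnd ℂ) '' U ⊆ W := by
      rintro _ ⟨z, hz, rfl⟩
      exact hWs z (hUW hz)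
    have h4 := h1.subset_connectedComponentIn h2 h3
    intro z hz
    exact h4 ⟨z, hz, rfl⟩
  obtain ⟨Θ, Θi, t1, t2, t3, t4, t5⟩ := h_sym U x hUo hUc hUb hUcc hUs hxU
  obtain ⟨g, g1, g2, g3⟩ := exists_inverse isOpen_ball hf hi
  have hΘΩ : ∀ z ∈ St, Θ z ∈ Ω := fun z hz => (hUW (t3 z hz).1).1
  refine ⟨fun z => g (Θ z), ?_, ?_, ?_, ?_, ?_, ?_⟩
  · exact g1.comp t1 (fun z hz => hΘΩ z hz)
  · intro z hz w hw h
    have h1 : f (g (Θ z)) = f (g (Θ w)) := congrArg f h
    rw [(g3 _ (hΘΩ z hz)).2, (g3 _ (hΘΩ w hw)).2] at h1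
    have h2 := congrArg Θi h1
    rwa [(t3 z hz).2, (t3 w hw).2] at h2
  · intro z hz
    exact (g3 _ (hΘΩ z hz)).1
  · intro z hz
    show f (g (Θ z)) ∈ Comp f x
    rw [(g3 _ (hΘΩ z hz)).2]
    exact (t3 z hz).1
  · intro z hz him hzU
    have hzU' : f z ∈ U := hzU
    have h1 := t4 _ hzU'
    -- the preimage is fixed by conjugation
    have h2 : (starRingEnd ℂ) (f z) = f z := Complex.conj_eq_iff_im.2 him
    have h3 : Θ ((starRingEnd ℂ) (Θi (f z))) = f z := by
      rw [t5 _ h1.1, h1.2, h2]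
    have h4 : (starRingEnd ℂ) (Θi (f z)) = Θi (f z) := by
      have := (t3 _ (conj_mem_St h1.1)).2
      rw [h3] at this
      exact this.symm
    have h5 : (Θi (f z)).im = 0 := Complex.conj_eq_iff_im.1 h4
    refine ⟨(Θi (f z)).re, ?_⟩
    have h6 : (((Θi (f z)).re : ℝ) : ℂ) = Θi (f z) := by
      apply Complex.ext <;> simp [h5]
    show g (Θ _) = z
    rw [h6, h1.2]
    exact g2 z hz
  · intro ρ hρ
    -- the compact set Q
    set Q : Set ℂ := f '' closedBall 0 ρ with hQ
    have hsub : closedBall (0 : ℂ) ρ ⊆ ball 0 1 := closedBall_subset_ball hρ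
    have hQc : IsCompact Q := (isCompact_closedBall 0 ρ).image_of_continuousOn
      (hf.continuousOn.mono hsub)
    have hQΩ : Q ⊆ Ω := image_mono hsub
    set Q' : Set ℂ := Q ∩ (starRingEnd ℂ) ⁻¹' Q with hQ'
    have hQ'c : IsCompact Q' := hQc.inter_right
      (hQc.isClosed.preimage Complex.continuous_conj)
    have hQ'W : Q' ⊆ W := fun z hz => ⟨hQΩ hz.1, hQΩ hz.2⟩
    have hUQ : IsCompact (U ∩ Q') := by
      have h1 : U ∩ Q' = Q' ∩ (⋃ y ∈ W \ U, connectedComponentIn W y)ᶜ := by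
        ext z
        constructor
        · rintro ⟨hz1, hz2⟩
          refine ⟨hz2, ?_⟩
          intro hz3
          simp only [mem_iUnion] at hz3
          obtain ⟨y, hy, hzy⟩ := hz3
          have h2 := connectedComponentIn_eq hz1
          have h3 := connectedComponentIn_eq hzy
          apply hy.2
          have h4 : connectedComponentIn W (x : ℂ) = connectedComponentIn W y := by
            rw [h2, h3]
          rw [hU, h4]
          exact mem_connectedComponentIn hy.1
        · rintro ⟨hz1, hz2⟩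
          refine ⟨?_, hz1⟩
          by_contra hzU
          apply hz2
          simp only [mem_iUnion]
          exact ⟨z, ⟨hQ'W hz1, hzU⟩, mem_connectedComponentIn (hQ'W hz1)⟩
      rw [h1]
      apply hQ'c.inter_right
      rw [isClosed_compl_iff]
      exact isOpen_biUnion (fun y _ => hWo.connectedComponentIn)
    have hset : {z ∈ St | ‖g (Θ z)‖ ≤ ρ ∧ ‖g (Θ ((starRingEnd ℂ) z))‖ ≤ ρ} =
        Θi '' (U ∩ Q') := by
      ext z
      constructor
      · rintro ⟨hz, h1, h2⟩
        have hz' := conj_mem_St hz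
        refine ⟨Θ z, ⟨(t3 z hz).1, ?_, ?_⟩, (t3 z hz).2⟩
        · exact ⟨g (Θ z), by simpa using h1, (g3 _ (hΘΩ z hz)).2⟩
        · show (starRingEnd ℂ) (Θ z) ∈ Q
          rw [← t5 z hz]
          exact ⟨g (Θ ((starRingEnd ℂ) z)), by simpa using h2, (g3 _ (hΘΩ _ hz')).2⟩
      · rintro ⟨w, ⟨hwU, hw1, hw2⟩, rfl⟩
        obtain ⟨h1, h2⟩ := t4 w hwU
        refine ⟨h1, ?_, ?_⟩
        · rw [h2]
          obtain ⟨v, hv, rfl⟩ := hw1
          rw [g2 v (hsub hv)]
          simpa using hv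
        · rw [t5 _ h1, h2]
          obtain ⟨v, hv, hvw⟩ := hw2
          rw [← hvw, g2 v (hsub hv)]
          simpa using hv
    rw [hset]
    exact hUQ.image_of_continuousOn (t2.continuousOn.mono inter_subset_left)

end HW714
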