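import Pool.Agent.Helper714_HW.Core2
import Pool.Agent.Helper714_HW.Struct
import Pool.Agent.Helper714_HW.JMp
import Pool.Agent.Helper714_HW.JGS
import Pool.Agent.Helper714_HW.JInt
import Pool.Agent.Helper714_HW.JLen
import Pool.Agent.Helper714_HW.JCc
import Pool.Agent.Helper714_HW.JSym

/-!
# Hayman-Wu constant: the upper bound
-/

set_option autoImplicit false
open Set Metric MeasureTheory Complex Filter Topology
open scoped NNReal ENNReal

namespace HW714

theorem upper_of (h_core : S_core) (h_len : S_len) (h_struct : S_struct) : S_upper := by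
  classical
  intro f hf hi hb
  set Ω : Set ℂ := f '' ball 0 1 with hΩ
  have hΩo : IsOpen Ω := isOpen_image_of_inj isOpen_ball hf hi isOpen_ball le_rfl
  set W : Set ℂ := Ω ∩ (starRingEnd ℂ) ⁻¹' Ω with hW
  have hWo : IsOpen W := hΩo.inter (hΩo.preimage Complex.continuous_conj)
  set 𝒰 : Set (Set ℂ) := {U | ∃ q : ℚ, ((q : ℝ) : ℂ) ∈ Ω ∧ U = Comp f ((q : ℝ) : ℂ)} with h𝒰
  have hcount : 𝒰.Countable := by
    have h1 : 𝒰 ⊆ range (fun q : ℚ => Comp f ((q : ℝ) : ℂ)) := by
      rintro U ⟨q, _, rfl⟩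
      exact ⟨q, rfl⟩
    exact (countable_range _).mono h1
  have : Countable 𝒰 := hcount.to_subtype
  have hch : ∀ U : 𝒰, ∃ Φ : ℂ → ℂ, DifferentiableOn ℂ Φ St ∧ InjOn Φ St ∧
      MapsTo Φ St (ball 0 1) ∧ (∀ z ∈ St, f (Φ z) ∈ (U : Set ℂ)) ∧
      (∀ z ∈ ball (0 : ℂ) 1, (f z).im = 0 → f z ∈ (U : Set ℂ) → ∃ t : ℝ, Φ t = z) ∧
      (∀ ρ : ℝ, ρ < 1 → IsCompact {z ∈ St | ‖Φ z‖ ≤ ρ ∧ ‖Φ ((starRingEnd ℂ) z)‖ ≤ ρ}) := by
    rintro ⟨U, q, hq, rfl⟩
    exact h_struct f hf hi hb q hq
  choose Φ p1 p2 p3 p4 p5 p6 using hch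
  -- distinct components are disjoint
  have hdisj : ∀ U V : 𝒰, U ≠ V → ∀ w, w ∈ (U : Set ℂ) → w ∉ (V : Set ℂ) := by
    rintro ⟨U, q, hq, rfl⟩ ⟨V, q', hq', rfl⟩ hne w hw hw'
    apply hne
    apply Subtype.ext
    show Comp f _ = Comp f _
    have h1 : Comp f ((q : ℝ) : ℂ) = connectedComponentIn W w := connectedComponentIn_eq hw
    have h2 : Comp f ((q' : ℝ) : ℂ) = connectedComponentIn W w := connectedComponentIn_eq hw'
    rw [h1, h2]
  -- covering
  have hcov : {z ∈ ball (0 : ℂ) 1 | (f z).im = 0} ⊆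
      ⋃ U : 𝒰, range (fun t : ℝ => Φ U t) := by
    rintro z ⟨hz, him⟩
    have hreal : ((f z).re : ℂ) = f z := by
      apply Complex.ext <;> simp [him]
    have hfΩ : f z ∈ Ω := ⟨z, hz, rfl⟩
    have hconj : (starRingEnd ℂ) (f z) = f z := Complex.conj_eq_iff_im.2 him
    have hfW : f z ∈ W := ⟨hfΩ, by show (starRingEnd ℂ) (f z) ∈ Ω; rw [hconj]; exact hfΩ⟩
    have hCo : IsOpen (connectedComponentIn W (f z)) := hWo.connectedComponentIn
    have hCm : f z ∈ connectedComponentIn W (f z) := mem_connectedComponentIn hfW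
    -- a rational point of the component
    have h1 : IsOpen ((fun t : ℝ => (t : ℂ)) ⁻¹' connectedComponentIn W (f z)) :=
      hCo.preimage Complex.continuous_ofReal
    have h2 : ((fun t : ℝ => (t : ℂ)) ⁻¹' connectedComponentIn W (f z)).Nonempty :=
      ⟨(f z).re, by
        show ((f z).re : ℂ) ∈ connectedComponentIn W (f z)
        rw [hreal]; exact hCm⟩
    obtain ⟨_, h3, ⟨q, rfl⟩⟩ := Rat.denseRange_cast (𝕜 := ℝ) |>.inter_open_nonempty _ h1 h2
    have h4 : ((q : ℝ) : ℂ) ∈ connectedComponentIn W (f z) := h3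
    have hqΩ : ((q : ℝ) : ℂ) ∈ Ω := (connectedComponentIn_subset _ _ h4).1
    have h5 : Comp f ((q : ℝ) : ℂ) = connectedComponentIn W (f z) :=
      (connectedComponentIn_eq h4).symm
    have hU : Comp f ((q : ℝ) : ℂ) ∈ 𝒰 := ⟨q, hqΩ, rfl⟩
    obtain ⟨t, ht⟩ := p5 ⟨_, hU⟩ z hz him (by show f z ∈ Comp f _; rw [h5]; exact hCm)
    exact mem_iUnion.2 ⟨⟨_, hU⟩, t, ht⟩
  -- finite sums
  have hfin : ∀ (F : Finset 𝒰) (n : ℕ),
      ∑ U ∈ F, μH[1] ((fun t : ℝ => Φ U t) '' Icc (-((n : ℝ) + 1)) ((n : ℝ) + 1)) ≤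
        ENNReal.ofReal (Real.pi ^ 2) := by
    intro F n
    have hR : (0 : ℝ) < (n : ℝ) + 1 := by positivity
    have h1 := h_core 𝒰 F Φ (fun i _ => p1 i) (fun i _ => p2 i) (fun i _ => p3 i)
      (fun i _ j _ hij z hz w hw h => hdisj i j hij (f (Φ i z)) (p4 i z hz) (by
        rw [h]; exact p4 j w hw)) (fun i _ => p6 i) ((n : ℝ) + 1) hR
    have h2 : ∀ U ∈ F, μH[1] ((fun t : ℝ => Φ U t) '' Icc (-((n : ℝ) + 1)) ((n : ℝ) + 1)) ≤
        ENNReal.ofReal (∫ t in (-((n : ℝ) + 1))..((n : ℝ) + 1), -Real.log ‖Φ U t‖) :=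
      fun U _ => h_len (Φ U) (p1 U) (p2 U) (p3 U) _ hR
    refine (Finset.sum_le_sum h2).trans ?_
    rw [← ENNReal.ofReal_sum_of_nonneg]
    · exact ENNReal.ofReal_le_ofReal h1
    · intro U _
      apply intervalIntegral.integral_nonneg (by linarith)
      intro t _
      have h3 : ‖Φ U t‖ < 1 := by simpa using p3 U (ofReal_mem_St t)
      have := Real.log_nonpos (norm_nonneg (Φ U t)) h3.le
      linarith
  have hrange : ∀ U : 𝒰, μH[1] (range (fun t : ℝ => Φ U t)) =
      ⨆ n : ℕ, μH[1] ((fun t : ℝ => Φ U t) '' Icc (-((n : ℝ) + 1)) ((n : ℝ) + 1)) := by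
    intro U
    have hmono : Monotone (fun n : ℕ =>
        (fun t : ℝ => Φ U t) '' Icc (-((n : ℝ) + 1)) ((n : ℝ) + 1)) := by
      intro n m hnm
      apply image_mono
      have : (n : ℝ) ≤ m := by exact_mod_cast hnm
      apply Icc_subset_Icc <;> linarith
    rw [← hmono.measure_iUnion]
    congr 1
    rw [← image_iUnion, ← image_univ]
    congr 1
    symm
    rw [eq_univ_iff_forall]
    intro t
    obtain ⟨n, hn⟩ := exists_nat_gt |t|
    rw [mem_iUnion]
    exact ⟨n, by rw [mem_Icc]; constructor <;> linarith [abs_lt.1 hn]⟩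
  calc μH[1] {z ∈ ball (0 : ℂ) 1 | (f z).im = 0}
      ≤ μH[1] (⋃ U : 𝒰, range (fun t : ℝ => Φ U t)) := measure_mono hcov
    _ ≤ ∑' U : 𝒰, μH[1] (range (fun t : ℝ => Φ U t)) := measure_iUnion_le _
    _ = ⨆ F : Finset 𝒰, ∑ U ∈ F, μH[1] (range (fun t : ℝ => Φ U t)) :=
        ENNReal.tsum_eq_iSup_sum
    _ ≤ ENNReal.ofReal (Real.pi ^ 2) := by
        apply iSup_le
        intro F
        simp_rw [hrange]
        rw [ENNReal.finsetSum_iSup_of_monotone]
        · exact iSup_le (fun n => hfin F n)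
        · intro U n m hnm
          apply measure_mono
          apply image_mono
          have : (n : ℝ) ≤ m := by exact_mod_cast hnm
          apply Icc_subset_Icc <;> linarith

/-- the given form of the Riemann mapping theorem -/
theorem rmt714 : S_rmt := Pool.Agent.W538.JQ.rmt

theorem t_core : S_core := core t_mp t_gS t_hreg t_int t_log

theorem t_struct : S_struct := struct t_cc (t_sym rmt714)

theorem t_upper : S_upper := upper_of t_core t_len t_struct

/-- the upper bound for all univalent maps, real line -/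
theorem upper_real (f : ℂ → ℂ) (hf : DifferentiableOn ℂ f (ball 0 1))
    (hi : InjOn f (ball 0 1)) :
    μH[1] {z ∈ ball (0 : ℂ) 1 | (f z).im = 0} ≤ ENNReal.ofReal (Real.pi ^ 2) := by
  -- dilations
  have hr : ∀ n : ℕ, μH[1] {z ∈ ball (0 : ℂ) ((n + 1 : ℝ) / (n + 2)) | (f z).im = 0} ≤
      ENNReal.ofReal (Real.pi ^ 2) := by
    intro n
    set r : ℝ := (n + 1 : ℝ) / (n + 2) with hrdef
    have hr0 : 0 < r := by positivity
    have hr1 : r < 1 := by
      rw [hrdef, div_lt_one (by positivity)]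
      linarith
    have hmem : ∀ z ∈ ball (0 : ℂ) 1, (r : ℂ) * z ∈ closedBall (0 : ℂ) r := by
      intro z hz
      rw [mem_closedBall_zero_iff, norm_mul, Complex.norm_real, Real.norm_of_nonneg hr0.le]
      have : ‖z‖ < 1 := by simpa using hz
      nlinarith
    have hsub : closedBall (0 : ℂ) r ⊆ ball 0 1 := closedBall_subset_ball hr1
    have h1 := t_upper (fun z => f ((r : ℂ) * z))
      (hf.comp ((differentiableOn_const _).mul differentiableOn_id)
        (fun z hz => hsub (hmem z hz)))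
      (by
        intro z hz w hw h
        have := hi (hsub (hmem z hz)) (hsub (hmem w hw)) h
        exact mul_left_cancel₀ (by exact_mod_cast hr0.ne') this)
      (by
        have hc : IsCompact (f '' closedBall (0 : ℂ) r) :=
          (isCompact_closedBall 0 r).image_of_continuousOn (hf.continuousOn.mono hsub)
        apply hc.isBounded.subset
        rintro _ ⟨z, hz, rfl⟩
        exact ⟨(r : ℂ) * z, hmem z hz, rfl⟩)
    have himg : {z ∈ ball (0 : ℂ) r | (f z).im = 0} ⊆
        (fun z : ℂ => (r : ℂ) * z) '' {z ∈ ball (0 : ℂ) 1 | (f ((r : ℂ) * z)).im = 0} := by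
      rintro z ⟨hz, him⟩
      have hz' : ‖z‖ < r := by simpa using hz
      have hrc : (r : ℂ) ≠ 0 := by exact_mod_cast hr0.ne'
      refine ⟨z / r, ⟨?_, ?_⟩, ?_⟩
      · rw [mem_ball_zero_iff, norm_div, Complex.norm_real, Real.norm_of_nonneg hr0.le,
          div_lt_one hr0]
        exact hz'
      · show (f ((r : ℂ) * (z / r))).im = 0
        rw [mul_div_cancel₀ _ hrc]
        exact him
      · show (r : ℂ) * (z / r) = z
        rw [mul_div_cancel₀ _ hrc]
    have hlip : LipschitzWith 1 (fun z : ℂ => (r : ℂ) * z) := by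
      apply LipschitzWith.of_dist_le_mul
      intro z w
      rw [NNReal.coe_one, one_mul, dist_eq_norm, dist_eq_norm, ← mul_sub, norm_mul,
        Complex.norm_real, Real.norm_of_nonneg hr0.le]
      nlinarith [norm_nonneg (z - w)]
    have h2 := hlip.hausdorffMeasure_image_le (d := 1) (by norm_num)
      {z ∈ ball (0 : ℂ) 1 | (f ((r : ℂ) * z)).im = 0}
    rw [ENNReal.coe_one, ENNReal.one_rpow, one_mul] at h2
    exact (measure_mono himg).trans (h2.trans h1)
  have hmono : Monotone (fun n : ℕ => {z ∈ ball (0 : ℂ) ((n + 1 : ℝ) / (n + 2)) | (f z).im = 0}) := by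
    intro n m hnm z hz
    refine ⟨?_, hz.2⟩
    apply ball_subset_ball _ hz.1
    have : (n : ℝ) ≤ m := by exact_mod_cast hnm
    rw [div_le_div_iff₀ (by positivity) (by positivity)]
    nlinarith
  have hun : {z ∈ ball (0 : ℂ) 1 | (f z).im = 0} =
      ⋃ n : ℕ, {z ∈ ball (0 : ℂ) ((n + 1 : ℝ) / (n + 2)) | (f z).im = 0} := by
    ext z
    simp only [mem_iUnion]
    constructor
    · rintro ⟨hz, him⟩
      have hz' : ‖z‖ < 1 := by simpa using hz
      obtain ⟨n, hn⟩ := exists_nat_gt (1 / (1 - ‖z‖))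
      refine ⟨n, ?_, him⟩
      rw [mem_ball_zero_iff, lt_div_iff₀ (by positivity)]
      have h1 : 0 < 1 - ‖z‖ := by linarith
      rw [div_lt_iff₀ h1] at hn
      nlinarith [norm_nonneg z]
    · rintro ⟨n, hz, him⟩
      refine ⟨?_, him⟩
      apply ball_subset_ball _ hz
      rw [div_le_one (by positivity)]
      linarith
  rw [hun, hmono.measure_iUnion]
  exact iSup_le hr

/-- the upper bound in the form of the frozen statement -/
theorem upper_line (f : ℂ → ℂ) (hf : DifferentiableOn ℂ f (ball 0 1))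
    (hi : InjOn f (ball 0 1)) (a b : ℂ) (hb : b ≠ 0) :
    μH[1] {z ∈ ball (0 : ℂ) 1 | ∃ t : ℝ, f z = a + (t : ℂ) * b} ≤
      ENNReal.ofReal (Real.pi ^ 2) := by
  have h1 := upper_real (fun z => (f z - a) / b)
    ((hf.sub (differentiableOn_const _)).div_const _)
    (by
      intro z hz w hw h
      apply hi hz hw
      have h2 : (f z - a) / b = (f w - a) / b := h
      have h3 : f z - a = f w - a := (div_left_inj' hb).1 h2
      exact sub_left_injective h3)
  refine (measure_mono ?_).trans h1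
  rintro z ⟨hz, t, ht⟩
  refine ⟨hz, ?_⟩
  show ((f z - a) / b).im = 0
  rw [ht, add_sub_cancel_left, mul_div_cancel_right₀ _ hb]
  exact Complex.ofReal_im t

end HW714
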